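import Pool.Agent.H.MP_e11395_an.C.Path

/-!
# Part C of MP_e11395: amplifications and boundary conditions
-/

set_option autoImplicit false
set_option linter.unusedSectionVars false

open Filter Topology unitInterval

namespace Pool.Agent.H.MP_e11395_an

section

variable {κ P Q : Type} [Fintype κ] [DecidableEq κ] [Fintype P] [DecidableEq P]
  [Fintype Q] [DecidableEq Q] (e : κ ≃ P × Q)
variable {α α' α'' : Type} [Fintype α] [DecidableEq α] [Fintype α'] [DecidableEq α']
  [Fintype α''] [DecidableEq α'']

/-- `G ⊗ 1_Q` for a block matrix `G` with blocks indexed by `P`. -/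
noncomputable def ampM (G : Matrix (α × P) (α' × P) ℂ) : Matrix (α × κ) (α' × κ) ℂ :=
  fun a b => if (e a.2).2 = (e b.2).2 then G (a.1, (e a.2).1) (b.1, (e b.2).1) else 0

theorem ampM_one : ampM e (1 : Matrix (α × P) (α × P) ℂ) = 1 := by
  ext a b
  obtain ⟨a1, a2⟩ := a
  obtain ⟨b1, b2⟩ := b
  simp only [ampM, Matrix.one_apply, Prod.mk.injEq]
  by_cases h2 : (e a2).2 = (e b2).2
  · by_cases h1 : (e a2).1 = (e b2).1
    · have h3 : a2 = b2 := e.injective (Prod.ext h1 h2)
      simp [h3]
    · have h3 : a2 ≠ b2 := fun h => h1 (by rw [h])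
      simp [h1, h3]
  · have h3 : a2 ≠ b2 := fun h => h2 (by rw [h])
    simp [h2, h3]

theorem ampM_mul (G : Matrix (α × P) (α' × P) ℂ) (G' : Matrix (α' × P) (α'' × P) ℂ) :
    ampM e (G * G') = ampM e G * ampM e G' := by
  ext a b
  simp only [Matrix.mul_apply, ampM]
  rw [Fintype.sum_prod_type, Fintype.sum_prod_type]
  split_ifs with h2
  · refine Finset.sum_congr rfl fun c _ => ?_
    rw [← Equiv.sum_comp e.symm, Fintype.sum_prod_type]
    refine Finset.sum_congr rfl fun p _ => ?_
    simp only [Equiv.apply_symm_apply]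
    rw [Finset.sum_eq_single (e a.2).2]
    · simp [h2]
    · intro q _ hq
      rw [if_neg (fun h => hq h.symm), zero_mul]
    · intro h
      exact absurd (Finset.mem_univ _) h
  · symm
    refine Finset.sum_eq_zero fun c _ => ?_
    refine Finset.sum_eq_zero fun k _ => ?_
    by_cases h3 : (e a.2).2 = (e k).2
    · have h4 : (e k).2 ≠ (e b.2).2 := fun h => h2 (h3.trans h)
      rw [if_neg h4, mul_zero]
    · rw [if_neg h3, zero_mul]

/-- (`Q` nonempty.) -/
theorem ampM_injective [Nonempty Q] {G G' : Matrix (α × P) (α' × P) ℂ}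
    (h : ampM e G = ampM e G') : G = G' := by
  obtain ⟨q⟩ := ‹Nonempty Q›
  ext a b
  have h1 := congrFun (congrFun h (a.1, e.symm (a.2, q))) (b.1, e.symm (b.2, q))
  simpa [ampM] using h1

theorem ampM_continuous :
    Continuous (ampM e : Matrix (α × P) (α' × P) ℂ → Matrix (α × κ) (α' × κ) ℂ) := by
  refine continuous_pi fun a => continuous_pi fun b => ?_
  by_cases h : (e a.2).2 = (e b.2).2
  · simp only [ampM, if_pos h]
    exact (continuous_apply (b.1, (e b.2).1)).comp (continuous_apply (a.1, (e a.2).1))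
  · simp only [ampM, if_neg h]
    exact continuous_const

theorem ampM_trace (G : Matrix (α × P) (α × P) ℂ) :
    (ampM e G).trace = Fintype.card Q * G.trace := by
  simp only [Matrix.trace, Matrix.diag_apply, ampM, if_true]
  rw [Fintype.sum_prod_type, Fintype.sum_prod_type, Finset.mul_sum]
  refine Finset.sum_congr rfl fun c _ => ?_
  rw [← Equiv.sum_comp e.symm, Fintype.sum_prod_type]
  simp [Finset.mul_sum]

end

end Pool.Agent.H.MP_e11395_an
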