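import Pool.Agent.H.MP_e11395_an.C.AmpA

/-!
# Part C of MP_e11395: determinants of amplifications
-/

set_option autoImplicit false
set_option linter.unusedSectionVars false

open Filter Topology unitInterval

namespace Pool.Agent.H.MP_e11395_an

section

variable {κ P Q : Type} [Fintype κ] [DecidableEq κ] [Fintype P] [DecidableEq P]
  [Fintype Q] [DecidableEq Q] (e : κ ≃ P × Q)
variable {α α' α'' : Type} [Fintype α] [DecidableEq α] [Fintype α'] [DecidableEq α']
  [Fintype α''] [DecidableEq α'']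

/-- The bijection `(a, k) ↦ ((a, p), q)`. -/
def AmpB_eqv (α : Type) (e : κ ≃ P × Q) : α × κ ≃ (α × P) × Q :=
  (Equiv.prodCongr (Equiv.refl α) e).trans (Equiv.prodAssoc α P Q).symm

theorem AmpB_sub (G : Matrix (α × P) (α × P) ℂ) :
    ampM e G = (Matrix.blockDiagonal fun _ : Q => G).submatrix (AmpB_eqv α e) (AmpB_eqv α e) := by
  ext a b
  simp [ampM, Matrix.blockDiagonal_apply, AmpB_eqv]

/-- The determinant of `G ⊗ 1_Q` is `(det G)^{|Q|}` (after reindexing it is the block diagonal
matrix with `|Q|` blocks `G`: `Matrix.det_blockDiagonal`). -/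
theorem ampM_det (G : Matrix (α × P) (α × P) ℂ) : (ampM e G).det = G.det ^ Fintype.card Q := by
  rw [AmpB_sub, Matrix.det_submatrix_equiv_self, Matrix.det_blockDiagonal, Finset.prod_const,
    Finset.card_univ]

/-- `G ⊗ 1_Q` is invertible iff `G` is (`Q` nonempty; determinants). -/
theorem ampM_isUnit [Nonempty Q] (G : Matrix (α × P) (α × P) ℂ) :
    IsUnit (ampM e G) ↔ IsUnit G := by
  rw [Matrix.isUnit_iff_isUnit_det, Matrix.isUnit_iff_isUnit_det G, ampM_det,
    isUnit_pow_iff Fintype.card_ne_zero]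

theorem ampM_inv [Nonempty Q] {G : Matrix (α × P) (α × P) ℂ} (h : IsUnit G) :
    (ampM e G)⁻¹ = ampM e G⁻¹ := by
  refine Matrix.inv_eq_left_inv ?_
  rw [← ampM_mul, Matrix.nonsing_inv_mul _ ((Matrix.isUnit_iff_isUnit_det _).1 h), ampM_one]

end

end Pool.Agent.H.MP_e11395_an
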