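import Pool.Agent.H.MP_e11395_an.C.AmpB

/-!
# Part C of MP_e11395: the boundary condition
-/

set_option autoImplicit false
set_option linter.unusedSectionVars false

open Filter Topology unitInterval

namespace Pool.Agent.H.MP_e11395_an

section

variable {κ P₀ Q₀ P₁ Q₁ : Type} [Fintype κ] [DecidableEq κ] [Fintype P₀] [DecidableEq P₀]
  [Fintype Q₀] [DecidableEq Q₀] [Fintype P₁] [DecidableEq P₁] [Fintype Q₁] [DecidableEq Q₁]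
  (e₀ : κ ≃ P₀ × Q₀) (e₁ : κ ≃ P₁ × Q₁)
variable {α α' α'' : Type} [Fintype α] [DecidableEq α] [Fintype α'] [DecidableEq α']
  [Fintype α''] [DecidableEq α'']

/-- The boundary condition: the value at `0` is some `G ⊗ 1_{Q₀}` and the value at `1` is some
`G' ⊗ 1_{Q₁}`. -/
def Bd (u : Matrix (α × κ) (α' × κ) CI) : Prop :=
  (∃ G : Matrix (α × P₀) (α' × P₀) ℂ, ev 0 u = ampM e₀ G) ∧
    ∃ G : Matrix (α × P₁) (α' × P₁) ℂ, ev 1 u = ampM e₁ G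

theorem Bd_mul {u : Matrix (α × κ) (α' × κ) CI} {v : Matrix (α' × κ) (α'' × κ) CI}
    (hu : Bd e₀ e₁ u) (hv : Bd e₀ e₁ v) : Bd e₀ e₁ (u * v) := by
  obtain ⟨⟨G, hG⟩, G', hG'⟩ := hu
  obtain ⟨⟨H, hH⟩, H', hH'⟩ := hv
  exact ⟨⟨G * H, by rw [ev_mul, hG, hH, ampM_mul]⟩, G' * H', by rw [ev_mul, hG', hH', ampM_mul]⟩

/-- The invertible matrices with the boundary condition. -/
def BdU (α : Type) [Fintype α] [DecidableEq α] : Set (Matrix (α × κ) (α × κ) CI) :=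
  {u | IsUnit u ∧ Bd e₀ e₁ u}

theorem BdU_mul : ∀ u ∈ BdU e₀ e₁ α, ∀ v ∈ BdU e₀ e₁ α, u * v ∈ BdU e₀ e₁ α := by
  rintro u ⟨hu, hu0⟩ v ⟨hv, hv0⟩
  exact ⟨hu.mul hv, Bd_mul e₀ e₁ hu0 hv0⟩

/-- The inverse satisfies the boundary condition. -/
theorem BdU_inv [Nonempty Q₀] [Nonempty Q₁] {u : Matrix (α × κ) (α × κ) CI}
    (hu : u ∈ BdU e₀ e₁ α) : u⁻¹ ∈ BdU e₀ e₁ α := by
  obtain ⟨hu, ⟨G, hG⟩, G', hG'⟩ := hu
  have h0 : IsUnit G := by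
    rw [← ampM_isUnit e₀ G, ← hG]
    exact isUnit_iff_ev.1 hu 0
  have h1 : IsUnit G' := by
    rw [← ampM_isUnit e₁ G', ← hG']
    exact isUnit_iff_ev.1 hu 1
  refine ⟨?_, ⟨G⁻¹, ?_⟩, G'⁻¹, ?_⟩
  · exact Matrix.isUnit_nonsing_inv_iff.2 hu
  · rw [ev_inv hu, hG, ampM_inv e₀ h0]
  · rw [ev_inv hu, hG', ampM_inv e₁ h1]

theorem one_mem_BdU : (1 : Matrix (α × κ) (α × κ) CI) ∈ BdU e₀ e₁ α :=
  ⟨isUnit_one, ⟨1, by rw [ev_one, ampM_one]⟩, 1, by rw [ev_one, ampM_one]⟩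

end

end Pool.Agent.H.MP_e11395_an
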