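import Mathlib

/-!
# Part C of MP_e11395: idempotents in Banach algebras
-/

set_option autoImplicit false

open Filter Topology

namespace Pool.Agent.H.MP_e11395_an

/-- The Newton step `a ↦ 3 a² - 2 a³`, written as `a + (d - (d a + d a))` with `d = a² - a`. -/
noncomputable def BanA_step {B : Type} [NormedRing B] (a : B) : B :=
  a + ((a * a - a) - ((a * a - a) * a + (a * a - a) * a))

/-- The Newton iterates. -/
noncomputable def BanA_seq {B : Type} [NormedRing B] (a : B) : ℕ → B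
  | 0 => a
  | n + 1 => BanA_step (BanA_seq a n)

theorem BanA_step_defect {B : Type} [NormedRing B] (a : B) :
    BanA_step a * BanA_step a - BanA_step a =
      ((a * a - a) * (a * a - a)) * (a * a - a) + ((a * a - a) * (a * a - a)) * (a * a - a)
      + ((a * a - a) * (a * a - a)) * (a * a - a) + ((a * a - a) * (a * a - a)) * (a * a - a)
      - ((a * a - a) * (a * a - a) + (a * a - a) * (a * a - a) + (a * a - a) * (a * a - a)) := by
  unfold BanA_step
  noncomm_ring

theorem BanA_defect_norm {B : Type} [NormedRing B] (a : B) (h : ‖a * a - a‖ ≤ 1 / 16) :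
    ‖BanA_step a * BanA_step a - BanA_step a‖ ≤ ‖a * a - a‖ * (1 / 4) := by
  rw [BanA_step_defect]
  set d := a * a - a with hd
  have h0 : 0 ≤ ‖d‖ := norm_nonneg d
  have h2 : ‖d * d‖ ≤ ‖d‖ * (1 / 16) :=
    (norm_mul_le d d).trans (mul_le_mul_of_nonneg_left h h0)
  have h3 : ‖d * d * d‖ ≤ ‖d‖ * (1 / 256) := by
    refine (norm_mul_le (d * d) d).trans ?_
    calc ‖d * d‖ * ‖d‖ ≤ (‖d‖ * (1 / 16)) * (1 / 16) :=
          mul_le_mul h2 h h0 (by positivity)
      _ = ‖d‖ * (1 / 256) := by ring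
  have e1 : ‖d * d * d + d * d * d + d * d * d + d * d * d‖ ≤ 4 * (‖d‖ * (1 / 256)) := by
    have u1 := norm_add_le (d * d * d + d * d * d + d * d * d) (d * d * d)
    have u2 := norm_add_le (d * d * d + d * d * d) (d * d * d)
    have u3 := norm_add_le (d * d * d) (d * d * d)
    linarith
  have e2 : ‖d * d + d * d + d * d‖ ≤ 3 * (‖d‖ * (1 / 16)) := by
    have u2 := norm_add_le (d * d + d * d) (d * d)
    have u3 := norm_add_le (d * d) (d * d)
    linarith
  have e3 := norm_sub_le (d * d * d + d * d * d + d * d * d + d * d * d)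
    (d * d + d * d + d * d)
  linarith

theorem BanA_step_sub_norm {B : Type} [NormedRing B] (a : B) (R : ℝ) (h : ‖a‖ ≤ R) :
    ‖BanA_step a - a‖ ≤ ‖a * a - a‖ * (1 + 2 * R) := by
  have e : BanA_step a - a = (a * a - a) - ((a * a - a) * a + (a * a - a) * a) := by
    unfold BanA_step
    abel
  rw [e]
  set d := a * a - a with hd
  have h0 : 0 ≤ ‖d‖ := norm_nonneg d
  have h1 : ‖d * a‖ ≤ ‖d‖ * R := (norm_mul_le d a).trans (mul_le_mul_of_nonneg_left h h0)
  have u1 := norm_sub_le d (d * a + d * a)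
  have u2 := norm_add_le (d * a) (d * a)
  linarith

theorem BanA_seq_bounds {B : Type} [NormedRing B] (a : B) (R δ : ℝ) (hδ : 0 < δ)
    (ha : ‖a‖ + 1 ≤ R) (h16 : δ ≤ 1 / 16) (hC : 2 * (δ * (1 + 2 * R)) ≤ 1)
    (hd : ‖a * a - a‖ ≤ δ) (n : ℕ) :
    ‖BanA_seq a n * BanA_seq a n - BanA_seq a n‖ ≤ δ * (1 / 4) ^ n ∧
      ‖BanA_seq a n - a‖ ≤ 2 * (δ * (1 + 2 * R)) * (1 - (1 / 4) ^ n) := by
  have hR : 0 ≤ R := by have := norm_nonneg a; linarith
  induction n with
  | zero => simpa [BanA_seq] using hd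
  | succ n ih =>
    obtain ⟨i1, i2⟩ := ih
    have q0 : (0 : ℝ) ≤ (1 / 4) ^ n := by positivity
    have q1 : ((1 : ℝ) / 4) ^ n ≤ 1 := pow_le_one₀ (by norm_num) (by norm_num)
    have hC0 : 0 ≤ δ * (1 + 2 * R) := by positivity
    have hle : ‖BanA_seq a n * BanA_seq a n - BanA_seq a n‖ ≤ 1 / 16 := by
      refine i1.trans (le_trans ?_ h16)
      have := mul_le_mul_of_nonneg_left q1 hδ.le
      linarith
    have hn : ‖BanA_seq a n‖ ≤ R := by
      have e : BanA_seq a n = (BanA_seq a n - a) + a := by abel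
      have u := norm_add_le (BanA_seq a n - a) a
      rw [← e] at u
      have : 2 * (δ * (1 + 2 * R)) * (1 - (1 / 4) ^ n) ≤ 1 := by
        nlinarith
      linarith
    constructor
    · show ‖BanA_step (BanA_seq a n) * BanA_step (BanA_seq a n) - BanA_step (BanA_seq a n)‖ ≤ _
      refine (BanA_defect_norm _ hle).trans ?_
      rw [pow_succ, ← mul_assoc]
      exact mul_le_mul_of_nonneg_right i1 (by norm_num)
    · show ‖BanA_step (BanA_seq a n) - a‖ ≤ _
      have e : BanA_step (BanA_seq a n) - a =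
          (BanA_step (BanA_seq a n) - BanA_seq a n) + (BanA_seq a n - a) := by abel
      have u := norm_add_le (BanA_step (BanA_seq a n) - BanA_seq a n) (BanA_seq a n - a)
      rw [← e] at u
      have v := BanA_step_sub_norm (BanA_seq a n) R hn
      have w : ‖BanA_seq a n * BanA_seq a n - BanA_seq a n‖ * (1 + 2 * R) ≤
          δ * (1 / 4) ^ n * (1 + 2 * R) :=
        mul_le_mul_of_nonneg_right i1 (by linarith)
      have x : 0 ≤ δ * (1 + 2 * R) * (1 / 4) ^ n := mul_nonneg hC0 q0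
      rw [pow_succ]
      linarith

/-- An almost idempotent element of bounded norm is close to an idempotent.
Newton iteration `a₀ = a`, `a_{k+1} = 3 a_k² - 2 a_k³`. With `d_k = a_k² - a_k`:
`a_{k+1} - a_k = d_k (1 - 2 a_k)` and `d_{k+1} = d_k² (4 d_k - 3)`. If `‖d_k‖ ≤ 1/16` then
`‖d_{k+1}‖ ≤ 4 ‖d_k‖² ≤ ‖d_k‖ / 4`; so `‖d_k‖ ≤ δ 4^{-k}`, the norms `‖a_k‖` stay below `M + 1`
and `∑ ‖a_{k+1} - a_k‖ ≤ 2 δ (1 + 2 (M + 1))` (use `‖x‖`-estimates without `‖1‖ = 1`:
`d_k (1 - 2 a_k) = d_k - 2 d_k a_k`). The limit is idempotent. (`M` may be negative: nothing to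
prove.) -/
theorem exists_idem_near (M ε : ℝ) (hε : 0 < ε) :
    ∃ δ > 0, ∀ (B : Type) [NormedRing B] [CompleteSpace B] (a : B), ‖a‖ ≤ M → ‖a * a - a‖ ≤ δ →
      ∃ e : B, e * e = e ∧ ‖e - a‖ ≤ ε := by
  set C : ℝ := 1 + 2 * (|M| + 1) with hC
  have hC0 : 0 < C := by positivity
  set δ : ℝ := min (1 / 16) (min (1 / (2 * C)) (ε / (2 * C))) with hδ
  have hδ0 : 0 < δ := by
    refine lt_min (by norm_num) (lt_min (by positivity) (by positivity))
  have h16 : δ ≤ 1 / 16 := min_le_left _ _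
  have hδ1 : δ ≤ 1 / (2 * C) := (min_le_right _ _).trans (min_le_left _ _)
  have hδ2 : δ ≤ ε / (2 * C) := (min_le_right _ _).trans (min_le_right _ _)
  have h2C : 0 < 2 * C := by positivity
  have k1 : 2 * (δ * C) ≤ 1 := by
    have := (le_div_iff₀ h2C).1 hδ1
    linarith
  have k2 : 2 * (δ * C) ≤ ε := by
    have := (le_div_iff₀ h2C).1 hδ2
    linarith
  refine ⟨δ, hδ0, fun B _ _ a ha hd => ?_⟩
  have haR : ‖a‖ + 1 ≤ |M| + 1 := by
    have := le_abs_self M
    linarith
  have key := BanA_seq_bounds a (|M| + 1) δ hδ0 haR h16 k1 hd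
  have hδC : 0 ≤ δ * C := by positivity
  have hstep : ∀ n, dist (BanA_seq a n) (BanA_seq a (n + 1)) ≤ (δ * C) * (1 / 4) ^ n := by
    intro n
    rw [dist_comm, dist_eq_norm]
    have q1 : (0 : ℝ) ≤ (1 / 4) ^ n := by positivity
    have hn : ‖BanA_seq a n‖ ≤ |M| + 1 := by
      have e : BanA_seq a n = (BanA_seq a n - a) + a := by abel
      have u := norm_add_le (BanA_seq a n - a) a
      rw [← e] at u
      have := (key n).2
      have : 2 * (δ * C) * (1 - (1 / 4) ^ n) ≤ 1 := by nlinarith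
      have hM := le_abs_self M
      have := (key n).2
      linarith
    have v := BanA_step_sub_norm (BanA_seq a n) (|M| + 1) hn
    have w : ‖BanA_seq a n * BanA_seq a n - BanA_seq a n‖ * (1 + 2 * (|M| + 1)) ≤
          δ * (1 / 4) ^ n * (1 + 2 * (|M| + 1)) :=
        mul_le_mul_of_nonneg_right (key n).1 hC0.le
    calc ‖BanA_seq a (n + 1) - BanA_seq a n‖ ≤ _ := v
      _ ≤ _ := w
      _ = (δ * C) * (1 / 4) ^ n := by rw [hC]; ring
  have hcau : CauchySeq (BanA_seq a) :=
    cauchySeq_of_le_geometric (1 / 4) (δ * C) (by norm_num) hstep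
  obtain ⟨e, he⟩ := cauchySeq_tendsto_of_complete hcau
  refine ⟨e, ?_, ?_⟩
  · have t1 : Tendsto (fun n => BanA_seq a n * BanA_seq a n - BanA_seq a n) atTop
        (𝓝 (e * e - e)) := (he.mul he).sub he
    have t2 : Tendsto (fun n => BanA_seq a n * BanA_seq a n - BanA_seq a n) atTop (𝓝 0) := by
      refine squeeze_zero_norm (fun n => (key n).1) ?_
      have := (tendsto_pow_atTop_nhds_zero_of_lt_one (r := (1 / 4 : ℝ)) (by norm_num)
        (by norm_num)).const_mul δ
      simpa using this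
    exact sub_eq_zero.1 (tendsto_nhds_unique t1 t2)
  · have t : Tendsto (fun n => ‖BanA_seq a n - a‖) atTop (𝓝 ‖e - a‖) :=
      (he.sub_const a).norm
    refine le_of_tendsto t (Eventually.of_forall fun n => ?_)
    refine (key n).2.trans (le_trans ?_ k2)
    have q0 : (0 : ℝ) ≤ (1 / 4) ^ n := by positivity
    have : 2 * (δ * C) * (1 - (1 / 4) ^ n) ≤ 2 * (δ * C) * 1 :=
      mul_le_mul_of_nonneg_left (by linarith) (by positivity)
    linarith

end Pool.Agent.H.MP_e11395_an
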