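import Mathlib

/-!
# Part C of MP_e11395: similarity of idempotents in Banach algebras
-/

set_option autoImplicit false
set_option linter.unusedSectionVars false

open Filter Topology

namespace Pool.Agent.H.MP_e11395_an

variable {B : Type} [NormedRing B] [CompleteSpace B]

/-- Close idempotents are similar: `z = f e + (1 - f) (1 - e)` satisfies `f z = f e = z e` and
`z - 1 = f (e - f) + (f - e) e`, so `‖z - 1‖ < 1` and `z` is invertible. -/
theorem similar_of_near {e f : B} (he : e * e = e) (hf : f * f = f)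
    (h : ‖f - e‖ * (‖f‖ + ‖e‖) < 1) : ∃ w : Bˣ, f * w = w * e := by
  obtain ⟨z, hz⟩ : ∃ z, z = f * e + (1 - f) * (1 - e) := ⟨_, rfl⟩
  have h1 : 1 - z = -(f * (e - f) + (f - e) * e) := by
    rw [hz]
    have e1 : f * (e - f) = f * e - f := by rw [mul_sub, hf]
    have e2 : (f - e) * e = f * e - e := by rw [sub_mul, he]
    rw [e1, e2, sub_mul, mul_sub, mul_sub, one_mul, mul_one, one_mul]
    abel
  have h2 : ‖1 - z‖ < 1 := by
    rw [h1, norm_neg]
    calc ‖f * (e - f) + (f - e) * e‖ ≤ ‖f * (e - f)‖ + ‖(f - e) * e‖ := norm_add_le _ _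
      _ ≤ ‖f‖ * ‖e - f‖ + ‖f - e‖ * ‖e‖ := add_le_add (norm_mul_le _ _) (norm_mul_le _ _)
      _ = ‖f - e‖ * (‖f‖ + ‖e‖) := by rw [norm_sub_rev e f]; ring
      _ < 1 := h
  refine ⟨Units.oneSub (1 - z) h2, ?_⟩
  have h3 : ((Units.oneSub (1 - z) h2 : Bˣ) : B) = z := by
    rw [Units.val_oneSub]
    abel
  rw [h3, hz, mul_add, add_mul, ← mul_assoc, hf, ← mul_assoc, mul_sub f 1 f, hf, mul_one, sub_self,
    zero_mul, add_zero, mul_assoc f e e, he, mul_assoc (1 - f), sub_mul 1 e e, he, one_mul,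
    sub_self, mul_zero, add_zero]

/-- The ends of a continuous path of idempotents are similar: the set of all `t` for which
`e t` is similar to `e 0` is open and closed in the unit interval by `similar_of_near` (similarity
is an equivalence relation and `‖e s - e t‖ (‖e s‖ + ‖e t‖) → 0` for `s → t`). -/
theorem similar_of_path (e : unitInterval → B) (he : Continuous e) (h : ∀ t, e t * e t = e t) :
    ∃ w : Bˣ, e 1 * w = w * e 0 := by
  refine PreconnectedSpace.induction₂' (fun s t => ∃ w : Bˣ, e t * w = w * e s) ?_ ?_ 0 1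
  · intro s
    have hc : Continuous fun t => ‖e t - e s‖ * (‖e t‖ + ‖e s‖) :=
      (he.sub continuous_const).norm.mul (he.norm.add continuous_const)
    have h0 : ‖e s - e s‖ * (‖e s‖ + ‖e s‖) < 1 := by
      rw [sub_self, norm_zero, zero_mul]
      exact one_pos
    filter_upwards [hc.continuousAt.eventually (gt_mem_nhds h0)] with t ht
    refine ⟨similar_of_near (h s) (h t) ht, similar_of_near (h t) (h s) ?_⟩
    rw [norm_sub_rev, add_comm]
    exact ht
  · refine ⟨?_⟩
    rintro s t r ⟨w, hw⟩ ⟨w', hw'⟩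
    refine ⟨w' * w, ?_⟩
    rw [Units.val_mul, ← mul_assoc, hw', mul_assoc, hw, mul_assoc]

/-- A neighbourhood of an invertible element consists of invertible elements which can be joined
to it (straight line: `u + t (v - u) = u (1 + t u⁻¹ (v - u))`, `0 ≤ t ≤ 1`). -/
theorem joinedIn_of_near [NormedAlgebra ℝ B] {u : B} (hu : IsUnit u) :
    ∃ δ > 0, ∀ v : B, ‖v - u‖ < δ → JoinedIn {x : B | IsUnit x} u v := by
  obtain ⟨w, rfl⟩ := hu
  have hpos : 0 < ‖((w⁻¹ : Bˣ) : B)‖ + 1 := by positivity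
  refine ⟨1 / (‖((w⁻¹ : Bˣ) : B)‖ + 1), by positivity, fun v hv => ?_⟩
  have hkey : ∀ t : unitInterval, IsUnit ((w : B) + (t : ℝ) • (v - w)) := by
    intro t
    have h1 : ‖-((t : ℝ) • (((w⁻¹ : Bˣ) : B) * (v - w)))‖ < 1 := by
      rw [norm_neg, norm_smul, Real.norm_of_nonneg t.2.1]
      have h2 : ‖((w⁻¹ : Bˣ) : B) * (v - w)‖ < 1 := by
        calc ‖((w⁻¹ : Bˣ) : B) * (v - w)‖ ≤ ‖((w⁻¹ : Bˣ) : B)‖ * ‖v - w‖ := norm_mul_le _ _
          _ ≤ ‖((w⁻¹ : Bˣ) : B)‖ * (1 / (‖((w⁻¹ : Bˣ) : B)‖ + 1)) :=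
            mul_le_mul_of_nonneg_left hv.le (norm_nonneg _)
          _ < 1 := by
            rw [mul_one_div, div_lt_one hpos]
            linarith
      calc (t : ℝ) * ‖((w⁻¹ : Bˣ) : B) * (v - w)‖
          ≤ 1 * ‖((w⁻¹ : Bˣ) : B) * (v - w)‖ :=
            mul_le_mul_of_nonneg_right t.2.2 (norm_nonneg _)
        _ < 1 := by rw [one_mul]; exact h2
    have h3 : (w : B) + (t : ℝ) • (v - w) =
        w * (Units.oneSub (-((t : ℝ) • (((w⁻¹ : Bˣ) : B) * (v - w)))) h1 : Bˣ) := by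
      rw [Units.val_oneSub, sub_neg_eq_add, mul_add, mul_one, mul_smul_comm, ← mul_assoc,
        Units.mul_inv, one_mul]
    rw [h3]
    exact w.isUnit.mul (Units.isUnit _)
  refine ⟨⟨⟨fun t => (w : B) + (t : ℝ) • (v - w), ?_⟩, ?_, ?_⟩, hkey⟩
  · exact continuous_const.add (continuous_subtype_val.smul continuous_const)
  · simp
  · simp

end Pool.Agent.H.MP_e11395_an
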