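import Pool.Agent.H.MP_e11395_an.Mt

/-!
# Part C of MP_e11395: the identification of `Mt ι A` with `Matrix ι ι A`
-/

set_option autoImplicit false

open Filter Topology

namespace Pool.Agent.H.MP_e11395_an

variable {ι A A' : Type} [Fintype ι] [DecidableEq ι] [CStarAlgebra A] [CStarAlgebra A']

/-- `Mt ι A` is the ring of matrices. -/
noncomputable def mtEquiv (ι A : Type) [Fintype ι] [DecidableEq ι] [CStarAlgebra A] :
    Mt ι A ≃+* Matrix ι ι A where
  toFun M := Matrix.of fun i j => M i j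
  invFun M := Mt.of fun i j => M i j
  left_inv _ := rfl
  right_inv _ := rfl
  map_mul' _ _ := rfl
  map_add' _ _ := rfl

@[simp] theorem mtEquiv_apply (M : Mt ι A) (i j : ι) : mtEquiv ι A M i j = M i j := rfl

@[simp] theorem mtEquiv_symm_apply (M : Matrix ι ι A) (i j : ι) :
    (mtEquiv ι A).symm M i j = M i j := rfl

theorem mtEquiv_continuous : Continuous (mtEquiv ι A) :=
  continuous_pi fun i => continuous_pi fun j => Mt.continuous_entry i j

theorem mtEquiv_symm_continuous : Continuous (mtEquiv ι A).symm :=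
  Mt.continuous_iff.2 fun i j => (continuous_apply j).comp (continuous_apply i)

theorem mtEquiv_map (φ : A →⋆ₐ[ℂ] A') (M : Mt ι A) :
    mtEquiv ι A' (Mt.map φ M) = (mtEquiv ι A M).map φ := rfl

theorem mtEquiv_symm_map (φ : A →⋆ₐ[ℂ] A') (M : Matrix ι ι A) :
    (mtEquiv ι A').symm (M.map φ) = Mt.map φ ((mtEquiv ι A).symm M) := rfl

/-- Transfer of paths of invertible matrices. -/
theorem joinedIn_mt {u v : Mt ι A} (h : JoinedIn {x : Mt ι A | IsUnit x} u v) :
    JoinedIn {x : Matrix ι ι A | IsUnit x} (mtEquiv ι A u) (mtEquiv ι A v) := by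
  obtain ⟨γ, hγ⟩ := h
  refine ⟨γ.map mtEquiv_continuous, fun t => ?_⟩
  exact (hγ t).map (mtEquiv ι A)

/-- Matrices with small entries are small. -/
theorem Mt.norm_lt_of_entry {M : Mt ι A} {ε : ℝ} (hε : 0 < ε) (h : ∀ i j, ‖M i j‖ ≤
    ε / ((Fintype.card ι : ℝ) * Fintype.card ι + 1)) : ‖M‖ < ε := by
  refine (Mt.norm_le_sum M).trans_lt ?_
  have h1 : ∑ i : ι, ∑ j : ι, ‖M i j‖ ≤
      ∑ _i : ι, ∑ _j : ι, ε / ((Fintype.card ι : ℝ) * Fintype.card ι + 1) :=
    Finset.sum_le_sum fun i _ => Finset.sum_le_sum fun j _ => h i j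
  refine h1.trans_lt ?_
  simp only [Finset.sum_const, Finset.card_univ, nsmul_eq_mul]
  rw [← mul_assoc, mul_div_assoc', div_lt_iff₀ (by positivity)]
  nlinarith

end Pool.Agent.H.MP_e11395_an
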