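import Pool.Agent.H.MP_e11395_an.Tower
import Pool.Agent.H.MP_e11395_an.C.MtMat

/-!
# Part C of MP_e11395: functoriality of the building blocks
-/

set_option autoImplicit false
set_option linter.unusedSectionVars false

open Filter Topology

namespace Pool.Agent.H.MP_e11395_an

variable {B B' : Type} [CStarAlgebra B] [CStarAlgebra B']

theorem Mt.map_amp {ι κ τ : Type} [Fintype ι] [DecidableEq ι] [Fintype κ] [DecidableEq κ]
    [Fintype τ] [DecidableEq τ] (e : κ ≃ ι × τ) (φ : B →⋆ₐ[ℂ] B') (M : Mt ι B) :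
    Mt.map φ (Mt.amp e M) = Mt.amp e (Mt.map φ M) := by
  ext i j
  rw [Mt.map_apply, Mt.amp_apply, Mt.amp_apply]
  split_ifs
  · rfl
  · exact map_zero φ

theorem starHom_norm_le (φ : B →⋆ₐ[ℂ] B') (b : B) : ‖φ b‖ ≤ ‖b‖ :=
  NonUnitalStarAlgHom.norm_apply_le φ b

theorem starHom_continuous (φ : B →⋆ₐ[ℂ] B') : Continuous φ :=
  AddMonoidHomClass.continuous_of_bound φ 1 fun b => by
    rw [one_mul]
    exact starHom_norm_le φ b

theorem Mt.map_continuous {ι : Type} [Fintype ι] [DecidableEq ι] (φ : B →⋆ₐ[ℂ] B') :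
    Continuous (Mt.map φ : Mt ι B →⋆ₐ[ℂ] Mt ι B') :=
  Mt.continuous_iff.2 fun i j => (starHom_continuous φ).comp (Mt.continuous_entry i j)

namespace TowerData

variable {d : ℕ → ℕ} {T : TowerData d}

theorem Bk.val_sum {n : ℕ} {α : Type} (s : Finset α) (f : α → T.Bk B n) :
    (∑ a ∈ s, f a).val = ∑ a ∈ s, (f a).val := by
  classical
  induction s using Finset.induction_on with
  | empty => rfl
  | insert a s ha ih => rw [Finset.sum_insert ha, Finset.sum_insert ha, Bk.val_add, ih]

theorem Bk.ext' {n : ℕ} {f g : T.Bk B n} (h : ∀ x i j, f.val x i j = g.val x i j) : f = g :=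
  Bk.ext (ContinuousMap.ext fun x => Mt.ext fun i j => h x i j)

theorem Bk.continuous_iff {n : ℕ} {X : Type} [TopologicalSpace X] {f : X → T.Bk B n} :
    Continuous f ↔ Continuous fun x => (f x).val :=
  continuous_induced_rng

variable (T)

/-- Functoriality of the building blocks in the coefficient algebra. -/
noncomputable def BkMap (n : ℕ) (φ : B →⋆ₐ[ℂ] B') : T.Bk B n →⋆ₐ[ℂ] T.Bk B' n where
  toFun f := Bk.mk ⟨fun x => Mt.map φ (f.val x),
    (Mt.map_continuous φ).comp (ContinuousMap.continuous _)⟩ (by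
      have hf := f.val_mem
      rw [T.mem_Bl] at hf ⊢
      obtain ⟨⟨g, hg⟩, g', hg'⟩ := hf
      refine ⟨⟨Mt.map φ g, ?_⟩, Mt.map φ g', ?_⟩
      · rw [← Mt.map_amp, hg]; rfl
      · rw [← Mt.map_amp, hg']; rfl)
  map_one' := Bk.ext' fun x i j => by
    change (Mt.map φ (1 : Mt (Fin (T.r n)) B)) i j = _
    rw [map_one]; rfl
  map_mul' f g := Bk.ext' fun x i j => by
    change (Mt.map φ (f.val x * g.val x)) i j = _
    rw [map_mul]; rfl
  map_zero' := Bk.ext' fun x i j => by
    change (Mt.map φ (0 : Mt (Fin (T.r n)) B)) i j = _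
    rw [map_zero]; rfl
  map_add' f g := Bk.ext' fun x i j => by
    change (Mt.map φ (f.val x + g.val x)) i j = _
    rw [map_add]; rfl
  commutes' c := Bk.ext' fun x i j => by
    change (Mt.map φ (algebraMap ℂ (Mt (Fin (T.r n)) B) c)) i j = _
    rw [AlgHomClass.commutes]; rfl
  map_star' f := Bk.ext' fun x i j => by
    change (Mt.map φ (star (f.val x))) i j = _
    rw [map_star]; rfl

theorem BkMap_val (n : ℕ) (φ : B →⋆ₐ[ℂ] B') (f : T.Bk B n) (x : unitInterval) :
    (T.BkMap n φ f).val x = Mt.map φ (f.val x) := rfl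

end TowerData

end Pool.Agent.H.MP_e11395_an
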