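import Pool.Agent.H.MP_e11395_an.C.Bk

/-!
# Part C of MP_e11395: contraction of the building blocks to the scalars
-/

set_option autoImplicit false
set_option linter.unusedSectionVars false

open Filter Topology

namespace Pool.Agent.H.MP_e11395_an

/-- The scalars in `B`. -/
noncomputable def scal (B : Type) [CStarAlgebra B] : ℂ →⋆ₐ[ℂ] B := StarAlgHom.ofId ℂ B

variable {B : Type} [CStarAlgebra B] {d : ℕ → ℕ} (T : TowerData d) (C : ConeAlg d B)

/-- The contraction is continuous on the building blocks: `(t, x) ↦ C.h t (f x i j)` is jointly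
continuous because `‖C.h t b - C.h t₀ b₀‖ ≤ ‖b - b₀‖ + ‖C.h t b₀ - C.h t₀ b₀‖`
(`starHom_norm_le`); then `ContinuousMap.curry` and `TowerData.Bk.continuous_iff`
(`Mt.continuous_iff` for the values). -/
theorem BkMap_h_continuous (n : ℕ) (f : T.Bk B n) :
    Continuous fun t : unitInterval => T.BkMap n (C.h t) f := by
  have hj : Continuous fun z : unitInterval × unitInterval =>
      (Mt.map (C.h z.1) (f.val z.2) : Mt (Fin (T.r n)) B) := by
    rw [Mt.continuous_iff]
    intro i j
    exact Conn_h_joint C continuous_fst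
      (Mt.continuous_iff.1 (f.val.continuous.comp continuous_snd) i j)
  rw [TowerData.Bk.continuous_iff]
  exact (ContinuousMap.curry ⟨_, hj⟩).continuous

theorem BkMap_h_one (n : ℕ) (f : T.Bk B n) : T.BkMap n (C.h 1) f = f :=
  TowerData.Bk.ext' fun x i j => by
    rw [T.BkMap_val, Mt.map_apply, C.h_one]

theorem BkMap_h_zero (n : ℕ) (f : T.Bk B n) :
    T.BkMap n (C.h 0) f = T.BkMap n (scal B) (T.BkMap n C.ε f) :=
  TowerData.Bk.ext' fun x i j => by
    rw [T.BkMap_val, T.BkMap_val, T.BkMap_val, Mt.map_apply, Mt.map_apply, Mt.map_apply, C.h_zero]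
    rfl

end Pool.Agent.H.MP_e11395_an
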