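import Pool.Agent.H.MP_e11395_an.C.ConA
import Pool.Agent.H.MP_e11395_an.C.BanB

/-!
# Part C of MP_e11395: reduction to the scalar building blocks
-/

set_option autoImplicit false
set_option linter.unusedSectionVars false

open Filter Topology

namespace Pool.Agent.H.MP_e11395_an

variable {B : Type} [CStarAlgebra B] {d : ℕ → ℕ} (T : TowerData d) (C : ConeAlg d B)

theorem ConB_cont {s n : ℕ} (e : Mt (Fin s) (T.Bk B n)) :
    Continuous fun t : unitInterval => Mt.map (T.BkMap n (C.h t)) e :=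
  Mt.continuous_iff.2 fun i j => BkMap_h_continuous T C n (e i j)

theorem ConB_one {s n : ℕ} (e : Mt (Fin s) (T.Bk B n)) : Mt.map (T.BkMap n (C.h 1)) e = e := by
  ext i j
  rw [Mt.map_apply, BkMap_h_one]

theorem ConB_zero {s n : ℕ} (e : Mt (Fin s) (T.Bk B n)) :
    Mt.map (T.BkMap n (C.h 0)) e = Mt.map (T.BkMap n (scal B)) (Mt.map (T.BkMap n C.ε) e) := by
  ext i j
  rw [Mt.map_apply, Mt.map_apply, Mt.map_apply, BkMap_h_zero]

include C

/-- Idempotent matrices over a building block are similar to scalar ones: `similar_of_path` for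
`t ↦ Mt.map (T.BkMap n (C.h t)) e` (continuous: `Mt.continuous_iff`, `BkMap_h_continuous`);
`e₀ = Mt.map (T.BkMap n C.ε) e`. -/
theorem idem_scalar {s n : ℕ} (e : Mt (Fin s) (T.Bk B n)) (he : e * e = e) :
    ∃ e₀ : Mt (Fin s) (T.Bk ℂ n), e₀ * e₀ = e₀ ∧
      ∃ w : (Mt (Fin s) (T.Bk B n))ˣ, e * w = w * Mt.map (T.BkMap n (scal B)) e₀ := by
  refine ⟨Mt.map (T.BkMap n C.ε) e, by rw [← map_mul, he], ?_⟩
  obtain ⟨w, hw⟩ := similar_of_path (fun t => Mt.map (T.BkMap n (C.h t)) e)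
    (ConB_cont T C e) (fun t => by rw [← map_mul, he])
  refine ⟨w, ?_⟩
  rw [← ConB_zero T C e]
  have h1 : Mt.map (T.BkMap n (C.h 1)) e * w = w * Mt.map (T.BkMap n (C.h 0)) e := hw
  rwa [ConB_one T C e] at h1

/-- Invertible matrices over a building block can be joined to scalar ones:
`t ↦ Mt.map (T.BkMap n (C.h t)) u`. -/
theorem unit_scalar {s n : ℕ} (u : Mt (Fin s) (T.Bk B n)) (hu : IsUnit u) :
    ∃ u₀ : Mt (Fin s) (T.Bk ℂ n), IsUnit u₀ ∧
      JoinedIn {x : Mt (Fin s) (T.Bk B n) | IsUnit x} u (Mt.map (T.BkMap n (scal B)) u₀) := by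
  refine ⟨Mt.map (T.BkMap n C.ε) u, hu.map _, ?_⟩
  apply JoinedIn.symm
  rw [← ConB_zero T C u]
  exact ⟨⟨⟨fun t => Mt.map (T.BkMap n (C.h t)) u, ConB_cont T C u⟩, rfl, ConB_one T C u⟩,
    fun t => hu.map (Mt.map (ι := Fin s) (T.BkMap n (C.h t)))⟩

end Pool.Agent.H.MP_e11395_an
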