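import Pool.Agent.H.MP_e11395_an.C.GLB

/-!
# Part C of MP_e11395: continuous families of idempotent complex matrices
-/

set_option autoImplicit false
set_option linter.unusedSectionVars false

open Filter Topology unitInterval

namespace Pool.Agent.H.MP_e11395_an

variable {N : Type} [Fintype N] [DecidableEq N]

/-- The trace of a continuous family of idempotent complex matrices is constant (it takes its
values in the natural numbers by `idem_factor` and the unit interval is connected). -/
theorem trace_const {e : I → Matrix N N ℂ} (hc : Continuous e) (he : ∀ t, e t * e t = e t)
    (s t : I) : Matrix.trace (e s) = Matrix.trace (e t) := by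
  have h1 : ∀ t, ∃ k : ℕ, Matrix.trace (e t) = k := fun t =>
    (idem_factor (he t)).imp fun k hk => hk.1
  choose k hk using h1
  have h2 : Continuous (fun t => (Matrix.trace (e t)).re) :=
    Complex.continuous_re.comp hc.matrix_trace
  have h3 : Continuous k := by
    rw [Nat.isClosedEmbedding_coe_real.isInducing.continuous_iff]
    convert h2 using 1
    funext t
    simp [hk t]
  have h4 : k s = k t := PreconnectedSpace.constant inferInstance h3
  rw [hk s, hk t, h4]

end Pool.Agent.H.MP_e11395_an
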