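import Pool.Agent.H.MP_e11395_an.C.IdeB
import Pool.Agent.H.MP_e11395_an.C.GLC
import Pool.Agent.H.MP_e11395_an.C.AmpC

/-!
# Part C of MP_e11395: idempotents over the scalar dimension drop algebra
-/

set_option autoImplicit false
set_option linter.unusedSectionVars false

open Filter Topology unitInterval

namespace Pool.Agent.H.MP_e11395_an

variable {κ P₀ Q₀ P₁ Q₁ : Type} [Fintype κ] [DecidableEq κ] [Fintype P₀] [DecidableEq P₀]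
  [Fintype Q₀] [DecidableEq Q₀] [Fintype P₁] [DecidableEq P₁] [Fintype Q₁] [DecidableEq Q₁]
  (e₀ : κ ≃ P₀ × Q₀) (e₁ : κ ≃ P₁ × Q₁)
variable {α : Type} [Fintype α] [DecidableEq α]

/-- Every idempotent matrix over the dimension drop algebra with coprime parameters is equivalent
to a unit matrix. `F(0) = G₀ ⊗ 1_{Q₀}`, `F(1) = G₁ ⊗ 1_{Q₁}`, `G₀`, `G₁` idempotent
(`ampM_injective`) with traces `k₀`, `k₁` (`idem_factor`);
`q k₀ = p k₁` (`trace_const`, `ampM_trace`; `q = |Q₀| = |P₁|`, `p = |Q₁| = |P₀|`), so `k₀ = j p`,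
`k₁ = j q`. Factorise `G₀ = x₀ y₀` through `Fin j × P₀` and `G₁ = x₁ y₁` through `Fin j × P₁` and
apply `idem_lift` to `ampM x₀`, ... with `M = Fin j × κ`. -/
theorem idem_equiv_one [Nonempty P₀] [Nonempty Q₀] (hp : Fintype.card P₀ = Fintype.card Q₁)
    (hq : Fintype.card Q₀ = Fintype.card P₁)
    (hpq : Nat.Coprime (Fintype.card P₀) (Fintype.card Q₀))
    {F : Matrix (α × κ) (α × κ) CI} (hF : F * F = F) (hB : Bd e₀ e₁ F) :
    ∃ (j : ℕ) (X : Matrix (α × κ) (Fin j × κ) CI) (Y : Matrix (Fin j × κ) (α × κ) CI),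
      Bd e₀ e₁ X ∧ Bd e₀ e₁ Y ∧ X * Y = F ∧ Y * X = 1 := by
  obtain ⟨⟨G₀, hG₀⟩, G₁, hG₁⟩ := hB
  have hp0 : 0 < Fintype.card P₀ := Fintype.card_pos
  have : Nonempty Q₁ := Fintype.card_pos_iff.1 (hp ▸ hp0)
  have hG₀' : G₀ * G₀ = G₀ := by
    apply ampM_injective e₀
    rw [ampM_mul, ← hG₀, ← ev_mul, hF]
  have hG₁' : G₁ * G₁ = G₁ := by
    apply ampM_injective e₁
    rw [ampM_mul, ← hG₁, ← ev_mul, hF]
  obtain ⟨k₀, hk₀, hfac₀⟩ := idem_factor hG₀'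
  obtain ⟨k₁, hk₁, hfac₁⟩ := idem_factor hG₁'
  have htr : Matrix.trace (ev 0 F) = Matrix.trace (ev 1 F) :=
    trace_const (e := fun t => ev t F) (ev_continuous F)
      (fun t => by rw [← ev_mul, hF]) 0 1
  rw [hG₀, hG₁, ampM_trace, ampM_trace, hk₀, hk₁, ← hp] at htr
  have hn : Fintype.card Q₀ * k₀ = Fintype.card P₀ * k₁ := by exact_mod_cast htr
  obtain ⟨j, hj⟩ : Fintype.card P₀ ∣ k₀ :=
    hpq.dvd_of_dvd_mul_left (Dvd.intro _ hn.symm)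
  have hj₁ : k₁ = Fintype.card Q₀ * j := by
    apply Nat.eq_of_mul_eq_mul_left hp0
    rw [← hn, hj]
    ring
  obtain ⟨x₀, y₀, hxy₀, hyx₀⟩ := hfac₀ (Fin j × P₀) (by
    rw [Fintype.card_prod, Fintype.card_fin, hj, mul_comm])
  obtain ⟨x₁, y₁, hxy₁, hyx₁⟩ := hfac₁ (Fin j × P₁) (by
    rw [Fintype.card_prod, Fintype.card_fin, hj₁, hq, mul_comm])
  obtain ⟨X, Y, hXY, hYX, hX0, hY0, hX1, hY1⟩ := idem_lift (M := Fin j × κ) hF
    (X₀ := ampM e₀ x₀) (X₁ := ampM e₁ x₁) (Y₀ := ampM e₀ y₀) (Y₁ := ampM e₁ y₁)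
    (by rw [← ampM_mul, hxy₀, hG₀]) (by rw [← ampM_mul, hyx₀, ampM_one])
    (by rw [← ampM_mul, hxy₁, hG₁]) (by rw [← ampM_mul, hyx₁, ampM_one])
  exact ⟨j, X, Y, ⟨⟨x₀, hX0⟩, x₁, hX1⟩, ⟨⟨y₀, hY0⟩, y₁, hY1⟩, hXY, hYX⟩

end Pool.Agent.H.MP_e11395_an
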