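import Pool.Agent.H.MP_e11395_an.C.FlaA
import Pool.Agent.H.MP_e11395_an.C.IdeC

/-!
# Part C of MP_e11395: idempotent matrices over the scalar building block
-/

set_option autoImplicit false
set_option linter.unusedSectionVars false

open Filter Topology unitInterval

namespace Pool.Agent.H.MP_e11395_an

variable {d : ℕ → ℕ} (T : TowerData d) {n : ℕ} {s s' s'' : ℕ}

/-- Idempotent matrices over the scalar building block are equivalent to unit matrices
(`idem_equiv_one`). -/
theorem flat_idem {e : Matrix (Fin s) (Fin s) (T.Bk ℂ n)} (he : e * e = e) :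
    ∃ (j : ℕ) (X : Matrix (Fin s) (Fin j) (T.Bk ℂ n)) (Y : Matrix (Fin j) (Fin s) (T.Bk ℂ n)),
      X * Y = e ∧ Y * X = 1 := by
  have hP : Nonempty (Fin (T.p n)) := ⟨⟨0, T.p_pos n⟩⟩
  have hQ : Nonempty (Fin (T.q n)) := ⟨⟨0, T.q_pos n⟩⟩
  obtain ⟨j, X, Y, hX, hY, h1, h2⟩ := idem_equiv_one (T.e₀ n) (T.e₁ n)
    (by simp) (by simp) (by simpa using T.coprime n) (F := flat T e)
    (by rw [← flat_mul, he]) (flat_bd T e)
  obtain ⟨M, hM⟩ := exists_flat T hX
  obtain ⟨M', hM'⟩ := exists_flat T hY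
  refine ⟨j, M, M', flat_injective T ?_, flat_injective T ?_⟩
  · rw [flat_mul, hM, hM', h1]
  · rw [flat_mul, hM, hM', h2, flat_one]

end Pool.Agent.H.MP_e11395_an
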