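import Pool.Agent.H.MP_e11395_an.C.UniC

/-!
# Part C of MP_e11395: invertible matrices over the scalar dimension drop algebra
-/

set_option autoImplicit false
set_option linter.unusedSectionVars false

open Filter Topology unitInterval

namespace Pool.Agent.H.MP_e11395_an

variable {κ P₀ Q₀ P₁ Q₁ : Type} [Fintype κ] [DecidableEq κ] [Fintype P₀] [DecidableEq P₀]
  [Fintype Q₀] [DecidableEq Q₀] [Fintype P₁] [DecidableEq P₁] [Fintype Q₁] [DecidableEq Q₁]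
  (e₀ : κ ≃ P₀ × Q₀) (e₁ : κ ≃ P₁ × Q₁)
variable {α : Type} [Fintype α] [DecidableEq α]

theorem UniD_Triv_one (i₀ : α × κ) : Triv e₀ e₁ i₀ 1 := by
  refine ⟨fun x => one_ne_zero, rfl, rfl, ?_⟩
  rw [dg_one]
  exact JoinedIn.refl (Loops_sub e₀ e₁ one_mem_Loops)

/-- The exponents of a scalar loop with trivial power. -/
def UniD_H (i₀ : α × κ) (C : CIˣ) : AddSubgroup ℤ where
  carrier := {n | Triv e₀ e₁ i₀ ((C ^ n : CIˣ) : CI)}
  zero_mem' := by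
    change Triv e₀ e₁ i₀ ((C ^ (0 : ℤ) : CIˣ) : CI)
    rw [zpow_zero, Units.val_one]
    exact UniD_Triv_one e₀ e₁ i₀
  add_mem' {m n} hm hn := by
    change Triv e₀ e₁ i₀ ((C ^ (m + n) : CIˣ) : CI)
    rw [zpow_add, Units.val_mul]
    exact Triv_mul e₀ e₁ hm hn
  neg_mem' {n} hn := by
    change Triv e₀ e₁ i₀ ((C ^ (-n) : CIˣ) : CI)
    refine Triv_inv e₀ e₁ hn ?_
    rw [← Units.val_mul, ← zpow_add, add_neg_cancel, zpow_zero, Units.val_one]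

/-- Bezout: every scalar loop is trivial when `|Q₀|` and `|Q₁|` are coprime. -/
theorem Triv_all (hpq : Nat.Coprime (Fintype.card Q₀) (Fintype.card Q₁)) (i₀ : α × κ) {c : CI}
    (hc : ∀ x, c x ≠ 0) (h0 : c 0 = 1) (h1 : c 1 = 1) : Triv e₀ e₁ i₀ c := by
  obtain ⟨C, rfl⟩ := (ContinuousMap.isUnit_iff_forall_ne_zero c).2 hc
  have hq0 : (Fintype.card Q₀ : ℤ) ∈ UniD_H e₀ e₁ i₀ C := by
    change Triv e₀ e₁ i₀ ((C ^ (Fintype.card Q₀ : ℤ) : CIˣ) : CI)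
    rw [zpow_natCast, Units.val_pow_eq_pow_val]
    exact Triv_pow₀ e₀ e₁ i₀ hc h0 h1
  have hq1 : (Fintype.card Q₁ : ℤ) ∈ UniD_H e₀ e₁ i₀ C := by
    change Triv e₀ e₁ i₀ ((C ^ (Fintype.card Q₁ : ℤ) : CIˣ) : CI)
    rw [zpow_natCast, Units.val_pow_eq_pow_val]
    exact Triv_pow₁ e₀ e₁ i₀ hc h0 h1
  have hone : (1 : ℤ) ∈ UniD_H e₀ e₁ i₀ C := by
    have h2 := Nat.gcd_eq_gcd_ab (Fintype.card Q₀) (Fintype.card Q₁)
    rw [Nat.coprime_iff_gcd_eq_one.1 hpq, Nat.cast_one] at h2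
    rw [h2, mul_comm (Fintype.card Q₀ : ℤ), mul_comm (Fintype.card Q₁ : ℤ), ← smul_eq_mul,
      ← smul_eq_mul]
    exact add_mem (zsmul_mem hq0 _) (zsmul_mem hq1 _)
  have h3 : Triv e₀ e₁ i₀ ((C ^ (1 : ℤ) : CIˣ) : CI) := hone
  rwa [zpow_one] at h3

/-- The group of invertible matrices over the dimension drop algebra with coprime parameters is
path connected. -/
theorem unit_joined_one [Nonempty Q₀] [Nonempty Q₁]
    (hpq : Nat.Coprime (Fintype.card Q₀) (Fintype.card Q₁))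
    {u : Matrix (α × κ) (α × κ) CI} (hu : u ∈ BdU e₀ e₁ α) : JoinedIn (BdU e₀ e₁ α) u 1 := by
  obtain ⟨v, hv, huv⟩ := joined_loop e₀ e₁ hu
  refine huv.trans ?_
  rcases isEmpty_or_nonempty (α × κ) with hE | ⟨⟨i₀⟩⟩
  · have hv1 : v = 1 := by
      funext i
      exact isEmptyElim i
    rw [hv1]
    exact JoinedIn.refl (Loops_sub e₀ e₁ one_mem_Loops)
  · refine ((detOK_of_loop hv i₀).mono (Loops_sub e₀ e₁)).trans ?_
    refine (Triv_all e₀ e₁ hpq i₀ (c := v.det) (fun x => ?_) ?_ ?_).2.2.2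
    · exact (ContinuousMap.isUnit_iff_forall_ne_zero _).1
        ((Matrix.isUnit_iff_isUnit_det _).1 hv.1) x
    · rw [ev_det, hv.2.1, Matrix.det_one]
    · rw [ev_det, hv.2.2, Matrix.det_one]

end Pool.Agent.H.MP_e11395_an
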