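import Pool.Agent.H.MP_e11395_an.C.FlaA
import Pool.Agent.H.MP_e11395_an.C.UniD

/-!
# Part C of MP_e11395: invertible matrices over the scalar building block
-/

set_option autoImplicit false
set_option linter.unusedSectionVars false

open Filter Topology unitInterval

namespace Pool.Agent.H.MP_e11395_an

variable {d : ℕ → ℕ} (T : TowerData d) {n : ℕ} {s s' s'' : ℕ}

/-- Invertible matrices over the scalar building block can be joined to `1`
(`unit_joined_one`; the inverse path consists of matrices with the boundary condition, `BdU_inv`,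
so the path consists of invertible matrices over `T.Bk ℂ n`). -/
theorem flat_unit {u : Matrix (Fin s) (Fin s) (T.Bk ℂ n)} (hu : IsUnit u) :
    JoinedIn {x : Matrix (Fin s) (Fin s) (T.Bk ℂ n) | IsUnit x} u 1 := by
  classical
  have hQ0 : Nonempty (Fin (T.q n)) := ⟨⟨0, T.q_pos n⟩⟩
  have hQ1 : Nonempty (Fin (T.p n)) := ⟨⟨0, T.p_pos n⟩⟩
  have hflat : flat T u ∈ BdU (T.e₀ n) (T.e₁ n) (Fin s) := by
    refine ⟨?_, flat_bd T u⟩
    obtain ⟨w, rfl⟩ := hu
    refine IsUnit.of_mul_eq_one (flat T (w⁻¹ : (Matrix (Fin s) (Fin s) (T.Bk ℂ n))ˣ)) ?_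
    rw [← flat_mul, Units.mul_inv, flat_one]
  have hco : Nat.Coprime (Fintype.card (Fin (T.q n))) (Fintype.card (Fin (T.p n))) := by
    rw [Fintype.card_fin, Fintype.card_fin]
    exact (T.coprime n).symm
  obtain ⟨γ, hγ⟩ := unit_joined_one (T.e₀ n) (T.e₁ n) hco hflat
  have hex : ∀ t, ∃ M : Matrix (Fin s) (Fin s) (T.Bk ℂ n), flat T M = γ t := fun t =>
    exists_flat T (hγ t).2
  choose M hM using hex
  have hMc : Continuous M := continuous_of_flat T (by
    simp only [hM]
    exact γ.continuous)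
  refine ⟨⟨⟨M, hMc⟩, ?_, ?_⟩, ?_⟩
  · exact flat_injective T (by rw [hM 0, γ.source])
  · exact flat_injective T (by rw [hM 1, γ.target, flat_one])
  · intro t
    have h1 := BdU_inv (T.e₀ n) (T.e₁ n) (hγ t)
    obtain ⟨M', hM'⟩ := exists_flat T h1.2
    have hdet : IsUnit (γ t).det := (Matrix.isUnit_iff_isUnit_det _).1 (hγ t).1
    refine ⟨⟨M t, M', ?_, ?_⟩, rfl⟩
    · refine flat_injective T ?_
      rw [flat_mul, hM, hM', flat_one, Matrix.mul_nonsing_inv _ hdet]
    · refine flat_injective T ?_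
      rw [flat_mul, hM, hM', flat_one, Matrix.nonsing_inv_mul _ hdet]

end Pool.Agent.H.MP_e11395_an
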