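import Pool.Agent.H.MP_e11395_an.Defs

/-!
# Part C of MP_e11395: generalities on `K1` (invertible matrices)
-/

set_option autoImplicit false

namespace Pool.Agent.H.MP_e11395_an

variable {A : Type} [Ring A]

/-- (aux) the sum of a function over `Fin N` which vanishes outside the first `n` elements. -/
theorem K1_sum {n N : ℕ} (h : n ≤ N) (f : Fin N → A) (hf : ∀ k : Fin N, ¬ k.1 < n → f k = 0) :
    ∑ k, f k = ∑ k : Fin n, f (Fin.castLE h k) := by
  obtain ⟨m, rfl⟩ := Nat.exists_eq_add_of_le h
  rw [Fin.sum_univ_add]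
  have h0 : ∑ k : Fin m, f (Fin.natAdd n k) = 0 :=
    Finset.sum_eq_zero fun k _ => hf _ (by simp)
  rw [h0, add_zero]
  rfl

theorem K1_stab_mul {n N : ℕ} (h : n ≤ N) (u v : Matrix (Fin n) (Fin n) A) :
    stab u N * stab v N = stab (u * v) N := by
  ext i j
  rw [Matrix.mul_apply]
  by_cases hi : i.1 < n
  · rw [K1_sum h]
    · by_cases hj : j.1 < n
      · simp only [stab, hi, hj, Fin.val_castLE, Fin.is_lt, and_self, dite_true]
        rw [Matrix.mul_apply]
      · have hij : i ≠ j := fun h0 => hj (h0 ▸ hi)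
        have h1 : stab (u * v) N i j = 0 := by
          simp only [stab, hj, hij, and_false, dite_false, if_false]
        rw [h1]
        refine Finset.sum_eq_zero fun k _ => ?_
        have hk : Fin.castLE h k ≠ j := fun h0 => hj (by rw [← h0]; exact k.2)
        simp only [stab, hj, hk, and_false, dite_false, if_false, mul_zero]
    · intro k hk
      have hik : i ≠ k := fun h0 => hk (h0 ▸ hi)
      simp only [stab, hk, hik, and_false, dite_false, if_false, zero_mul]
  · rw [Finset.sum_eq_single i]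
    · simp only [stab, hi, false_and, dite_false, if_true, one_mul]
    · intro k _ hk
      simp only [stab, hi, false_and, dite_false, Ne.symm hk, if_false, zero_mul]
    · intro h0
      exact absurd (Finset.mem_univ _) h0

theorem K1_stab_one {n N : ℕ} : stab (1 : Matrix (Fin n) (Fin n) A) N = 1 := by
  ext i j
  unfold stab
  by_cases h : i.1 < n ∧ j.1 < n
  · rw [dif_pos h]
    by_cases hij : i = j
    · subst hij
      simp
    · have h1 : (⟨i.1, h.1⟩ : Fin n) ≠ ⟨j.1, h.2⟩ := fun h0 => hij (Fin.ext (congrArg Fin.val h0 :))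
      rw [Matrix.one_apply_ne h1, Matrix.one_apply_ne hij]
  · rw [dif_neg h, Matrix.one_apply]

/-- `diag(u, 1, ..., 1)` is invertible (its inverse is `stab u⁻¹ N`). -/
theorem stab_isUnit {n N : ℕ} (h : n ≤ N) (u : (Matrix (Fin n) (Fin n) A)ˣ) :
    IsUnit (stab (u : Matrix (Fin n) (Fin n) A) N) := by
  refine ⟨⟨stab (u : Matrix (Fin n) (Fin n) A) N,
    stab ((u⁻¹ : (Matrix (Fin n) (Fin n) A)ˣ) : Matrix (Fin n) (Fin n) A) N, ?_, ?_⟩, rfl⟩
  · rw [K1_stab_mul h, Units.mul_inv, K1_stab_one]
  · rw [K1_stab_mul h, Units.inv_mul, K1_stab_one]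

/-- If all the groups `GL_{n+1}(A)` are path connected then `K1 A` is trivial: two invertible
matrices `u`, `v` of sizes `n`, `m` are related with `N = max n m + 1` (`stab_isUnit`). -/
theorem K1.main [TopologicalSpace A]
    (h : ∀ (n : ℕ) (u : Matrix (Fin (n + 1)) (Fin (n + 1)) A), IsUnit u →
      JoinedIn {M : Matrix (Fin (n + 1)) (Fin (n + 1)) A | IsUnit M} u 1) :
    Subsingleton (K1 A) := by
  refine ⟨fun a b => ?_⟩
  induction a using Quot.ind with | _ u => ?_
  induction b using Quot.ind with | _ v => ?_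
  refine Quot.sound ⟨max u.1 v.1 + 1, by omega, by omega, ?_⟩
  exact (h _ _ (stab_isUnit (by omega) u.2)).trans (h _ _ (stab_isUnit (by omega) v.2)).symm

end Pool.Agent.H.MP_e11395_an
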