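import Pool.Agent.H.MP_e11395_an.C.LimA
import Pool.Agent.H.MP_e11395_an.C.BanA
import Pool.Agent.H.MP_e11395_an.C.BanB

/-!
# Part C of MP_e11395: idempotents over the limit
-/

set_option autoImplicit false
set_option linter.unusedSectionVars false

open Filter Topology

namespace Pool.Agent.H.MP_e11395_an

variable {A : Type} [CStarAlgebra A] {An : ℕ → Type} [∀ n, CStarAlgebra (An n)]
  (R : ∀ n, An n →⋆ₐ[ℂ] A)

/-- Every idempotent matrix over the limit is similar to one from a finite stage.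
With `M = ‖p‖ + 1` choose `ε ≤ 1` with `2 ε (2 M + 1) < 1`, then `δ` from `exists_idem_near`
(it does not depend on the algebra), then `η ≤ ε` small. By `limit_approx` there are `n`, `y` with
`‖Mt.map (R n) y - p‖ < η`. `Mt.map (R n)` is an injective *-homomorphism of C*-algebras, hence
isometric (`NonUnitalStarAlgHom.norm_map`), so `‖y‖ ≤ M` and
`‖y * y - y‖ = ‖(R y)² - R y‖ ≤ η (‖R y‖ + ‖p‖ + 1) ≤ δ`. Take `e` close to `y`
(`exists_idem_near`) and apply `similar_of_near` to `R e` and `p`. -/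
theorem limit_idem (hinj : ∀ n, Function.Injective (R n))
    (hmono : ∀ n m, n ≤ m → ∀ f, ∃ g, R m g = R n f)
    (hdense : ∀ a : A, ∀ ε : ℝ, 0 < ε → ∃ n f, ‖R n f - a‖ < ε)
    {s : ℕ} (p : Mt (Fin s) A) (hp : p * p = p) :
    ∃ n, ∃ e : Mt (Fin s) (An n), e * e = e ∧
      ∃ w : (Mt (Fin s) A)ˣ, p * w = w * Mt.map (R n) e := by
  have hP : 0 ≤ ‖p‖ := norm_nonneg p
  set M : ℝ := ‖p‖ + 1 with hM
  have hM1 : 1 ≤ M := by linarith
  have hM0 : 0 < M := by linarith
  set ε : ℝ := 1 / (8 * M) with hε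
  have hε0 : 0 < ε := by positivity
  have hεM : ε * M = 1 / 8 := by
    rw [hε]; field_simp
  have hε8 : ε ≤ 1 / 8 := by nlinarith
  obtain ⟨δ, hδ0, hδ⟩ := exists_idem_near M ε hε0
  set η : ℝ := min ε (δ / (2 * M)) with hη
  have hη0 : 0 < η := lt_min hε0 (by positivity)
  have hηε : η ≤ ε := min_le_left _ _
  have hηδ : η * (2 * M) ≤ δ := by
    have : η ≤ δ / (2 * M) := min_le_right _ _
    calc η * (2 * M) ≤ δ / (2 * M) * (2 * M) := by
          exact mul_le_mul_of_nonneg_right this (by positivity)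
      _ = δ := by field_simp
  obtain ⟨n, y, hy⟩ := limit_approx R hmono hdense p η hη0
  have hinjM : Function.Injective (Mt.map (ι := Fin s) (R n)) := by
    intro a b hab
    ext i j
    apply hinj n
    have := congrFun (congrFun hab i) j
    exact this
  have hiso : ∀ a : Mt (Fin s) (An n), ‖Mt.map (R n) a‖ = ‖a‖ := fun a =>
    NonUnitalStarAlgHom.norm_map (Mt.map (R n)) hinjM a
  set r := Mt.map (R n) y with hr
  have hrn : ‖r‖ ≤ ‖p‖ + η := by
    have : r = p + (r - p) := by abel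
    rw [this]
    exact (norm_add_le _ _).trans (by linarith)
  have hyM : ‖y‖ ≤ M := by
    rw [← hiso y, ← hr]; linarith
  have hyy : ‖y * y - y‖ ≤ δ := by
    rw [← hiso (y * y - y), map_sub, map_mul, ← hr]
    have h1 : r * r - r = p * (r - p) + (r - p) * p + (r - p) * (r - p) - (r - p) := by
      have h2 : p * (r - p) + (r - p) * p + (r - p) * (r - p) - (r - p)
          = r * r - p * p - r + p := by noncomm_ring
      rw [h2, hp]; abel
    rw [h1]
    have e1 : ‖p * (r - p)‖ ≤ ‖p‖ * η :=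
      (norm_mul_le _ _).trans (mul_le_mul_of_nonneg_left hy.le hP)
    have e2 : ‖(r - p) * p‖ ≤ η * ‖p‖ :=
      (norm_mul_le _ _).trans (mul_le_mul_of_nonneg_right hy.le hP)
    have e3 : ‖(r - p) * (r - p)‖ ≤ η * η :=
      (norm_mul_le _ _).trans (mul_le_mul hy.le hy.le (norm_nonneg _) hη0.le)
    have e4 : ‖p * (r - p) + (r - p) * p + (r - p) * (r - p) - (r - p)‖ ≤
        ‖p‖ * η + η * ‖p‖ + η * η + η := by
      refine (norm_sub_le _ _).trans (add_le_add ?_ hy.le)
      refine (norm_add_le _ _).trans (add_le_add ?_ e3)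
      exact (norm_add_le _ _).trans (add_le_add e1 e2)
    refine e4.trans (le_trans ?_ hηδ)
    nlinarith
  obtain ⟨e, he, hey⟩ := hδ (Mt (Fin s) (An n)) y hyM hyy
  refine ⟨n, e, he, ?_⟩
  have hRe : Mt.map (R n) e * Mt.map (R n) e = Mt.map (R n) e := by
    rw [← map_mul, he]
  have hd1 : ‖Mt.map (R n) e - r‖ ≤ ε := by
    rw [hr, ← map_sub, hiso]; exact hey
  have hd : ‖p - Mt.map (R n) e‖ ≤ 2 * ε := by
    have : p - Mt.map (R n) e = -((Mt.map (R n) e - r) + (r - p)) := by abel
    rw [this, norm_neg]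
    exact (norm_add_le _ _).trans (by linarith)
  have hRn : ‖Mt.map (R n) e‖ ≤ ‖p‖ + 2 * ε := by
    have : Mt.map (R n) e = p - (p - Mt.map (R n) e) := by abel
    rw [this]
    exact (norm_sub_le _ _).trans (by linarith)
  refine similar_of_near hRe hp ?_
  calc ‖p - Mt.map (R n) e‖ * (‖p‖ + ‖Mt.map (R n) e‖)
      ≤ (2 * ε) * (2 * M) := by
        refine mul_le_mul hd (by linarith) (by positivity) (by positivity)
    _ < 1 := by nlinarith

end Pool.Agent.H.MP_e11395_an
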