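import Pool.Agent.H.MP_e11395_an.C.LimA
import Pool.Agent.H.MP_e11395_an.C.BanB

/-!
# Part C of MP_e11395: invertible matrices over the limit
-/

set_option autoImplicit false
set_option linter.unusedSectionVars false

open Filter Topology

namespace Pool.Agent.H.MP_e11395_an

variable {A : Type} [CStarAlgebra A] {An : ℕ → Type} [∀ n, CStarAlgebra (An n)]
  (R : ∀ n, An n →⋆ₐ[ℂ] A)

/-- (aux) an element with `‖v v' - 1‖ < 1` and `‖v' v - 1‖ < 1` is invertible. -/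
theorem LimC_isUnit {B : Type} [NormedRing B] [CompleteSpace B] {v v' : B}
    (h1 : ‖v * v' - 1‖ < 1) (h2 : ‖v' * v - 1‖ < 1) : IsUnit v := by
  have e1 : IsUnit (v * v') := by
    have h : ‖1 - v * v'‖ < 1 := by rwa [norm_sub_rev]
    have := isUnit_one_sub_of_norm_lt_one h
    rwa [sub_sub_cancel] at this
  have e2 : IsUnit (v' * v) := by
    have h : ‖1 - v' * v‖ < 1 := by rwa [norm_sub_rev]
    have := isUnit_one_sub_of_norm_lt_one h
    rwa [sub_sub_cancel] at this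
  obtain ⟨a, ha⟩ := e1.exists_right_inv
  obtain ⟨b, hb⟩ := e2.exists_left_inv
  have r : v * (v' * a) = 1 := by rw [← mul_assoc]; exact ha
  have l : (b * v') * v = 1 := by rw [mul_assoc]; exact hb
  have e : b * v' = v' * a := left_inv_eq_right_inv l r
  exact ⟨⟨v, v' * a, r, by rw [← e]; exact l⟩, rfl⟩

/-- (aux) the product of approximations of inverse elements is close to `1`. -/
theorem LimC_near {B : Type} [NormedRing B] {u u' x x' : B} (h : u * u' = 1) {ε : ℝ}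
    (hε : 0 < ε) (hε1 : ε ≤ 1) (hε2 : ε * (‖u‖ + ‖u'‖ + 1) < 1) (h1 : ‖x - u‖ < ε)
    (h2 : ‖x' - u'‖ < ε) : ‖x * x' - 1‖ < 1 := by
  have e : x * x' - 1 = (x - u) * (x' - u') + (x - u) * u' + u * (x' - u') := by
    rw [← h]
    noncomm_ring
  rw [e]
  have a1 : ‖(x - u) * (x' - u')‖ ≤ ε * 1 :=
    (norm_mul_le _ _).trans (mul_le_mul h1.le (h2.le.trans hε1) (norm_nonneg _) hε.le)
  have a2 : ‖(x - u) * u'‖ ≤ ε * ‖u'‖ :=
    (norm_mul_le _ _).trans (mul_le_mul_of_nonneg_right h1.le (norm_nonneg _))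
  have a3 : ‖u * (x' - u')‖ ≤ ‖u‖ * ε :=
    (norm_mul_le _ _).trans (mul_le_mul_of_nonneg_left h2.le (norm_nonneg _))
  have a4 := norm_add_le ((x - u) * (x' - u') + (x - u) * u') (u * (x' - u'))
  have a5 := norm_add_le ((x - u) * (x' - u')) ((x - u) * u')
  have a6 : ε * (‖u‖ + ‖u'‖ + 1) = ε * 1 + ε * ‖u'‖ + ‖u‖ * ε := by ring
  linarith

/-- Every invertible matrix over the limit can be joined to one from a finite stage: approximate
`u` and `u⁻¹` by `v`, `v'` (`limit_approx₂`); `‖v v' - 1‖ < 1` and `‖v' v - 1‖ < 1` (isometry), so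
`v` is invertible in `Mt (Fin s) (An n)`; `joinedIn_of_near`. -/
theorem limit_unit (hinj : ∀ n, Function.Injective (R n))
    (hmono : ∀ n m, n ≤ m → ∀ f, ∃ g, R m g = R n f)
    (hdense : ∀ a : A, ∀ ε : ℝ, 0 < ε → ∃ n f, ‖R n f - a‖ < ε)
    {s : ℕ} (u : Mt (Fin s) A) (hu : IsUnit u) :
    ∃ n, ∃ v : Mt (Fin s) (An n), IsUnit v ∧
      JoinedIn {x : Mt (Fin s) A | IsUnit x} u (Mt.map (R n) v) := by
  obtain ⟨δ, hδ, hj⟩ := joinedIn_of_near hu
  obtain ⟨⟨u₀, u', huu', hu'u⟩, rfl⟩ := hu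
  dsimp only at hj ⊢
  set ε : ℝ := min δ (1 / (2 * (‖u₀‖ + ‖u'‖ + 1))) with hε
  have hpos : 0 < ‖u₀‖ + ‖u'‖ + 1 := by positivity
  have hε0 : 0 < ε := lt_min hδ (by positivity)
  have hε1 : ε ≤ 1 / (2 * (‖u₀‖ + ‖u'‖ + 1)) := min_le_right _ _
  have hε2 : ε * (‖u₀‖ + ‖u'‖ + 1) < 1 := by
    have h1 : ε * (‖u₀‖ + ‖u'‖ + 1) ≤ 1 / (2 * (‖u₀‖ + ‖u'‖ + 1)) * (‖u₀‖ + ‖u'‖ + 1) :=
      mul_le_mul_of_nonneg_right hε1 hpos.le
    have h2 : 1 / (2 * (‖u₀‖ + ‖u'‖ + 1)) * (‖u₀‖ + ‖u'‖ + 1) = 1 / 2 := by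
      field_simp
    linarith
  have hε3 : ε ≤ 1 := by
    refine hε1.trans ?_
    rw [div_le_one (by positivity)]
    have := norm_nonneg u₀
    have := norm_nonneg u'
    linarith
  obtain ⟨n, v, v', h1, h2⟩ := limit_approx₂ R hmono hdense u₀ u' ε hε0
  have hinj' : Function.Injective (Mt.map (ι := Fin s) (R n)) := by
    intro M N h
    apply Mt.ext
    intro i j
    apply hinj n
    exact congrArg (fun L : Mt (Fin s) A => L i j) h
  have hnorm : ∀ M : Mt (Fin s) (An n), ‖Mt.map (R n) M‖ = ‖M‖ := fun M =>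
    NonUnitalStarAlgHom.norm_map (Mt.map (R n)) hinj' M
  refine ⟨n, v, LimC_isUnit (v' := v') ?_ ?_, hj _ (h1.trans_le (min_le_left _ _))⟩
  · rw [← hnorm, map_sub, map_mul, map_one]
    exact LimC_near huu' hε0 hε3 hε2 h1 h2
  · rw [← hnorm, map_sub, map_mul, map_one]
    exact LimC_near hu'u hε0 hε3 (by rw [add_comm ‖u'‖ ‖u₀‖]; exact hε2) h2 h1

end Pool.Agent.H.MP_e11395_an
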