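import Pool.Agent.H.MP_e11395_an.C.K0Main
import Pool.Agent.H.MP_e11395_an.C.K1
import Pool.Agent.H.MP_e11395_an.C.LimB
import Pool.Agent.H.MP_e11395_an.C.LimC
import Pool.Agent.H.MP_e11395_an.C.ConB
import Pool.Agent.H.MP_e11395_an.C.FlaB
import Pool.Agent.H.MP_e11395_an.C.FlaC

/-!
# Part C of MP_e11395: the K-theory of the limit
-/

set_option autoImplicit false
set_option linter.unusedSectionVars false

open Filter Topology

namespace Pool.Agent.H.MP_e11395_an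

theorem joinedIn_map' {X Y : Type} [TopologicalSpace X] [TopologicalSpace Y] {S : Set X}
    {S' : Set Y} {u v : X} (h : JoinedIn S u v) {f : X → Y} (hf : Continuous f)
    (hS : ∀ x ∈ S, f x ∈ S') : JoinedIn S' (f u) (f v) := by
  obtain ⟨γ, hγ⟩ := h
  exact ⟨γ.map hf, fun t => hS _ (hγ t)⟩

variable {B : Type} [CStarAlgebra B] {d : ℕ → ℕ} (T : TowerData d)
  {A : Type} [CStarAlgebra A]

/-- The K-theory of the limit, for building blocks `T.Bk B n`. -/
theorem ktheory_limit (C : ConeAlg d B) (R : ∀ n, T.Bk B n →⋆ₐ[ℂ] A) (hinj : ∀ n, Function.Injective (R n))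
    (hmono : ∀ n m, n ≤ m → ∀ f, ∃ g, R m g = R n f)
    (hdense : ∀ a : A, ∀ ε : ℝ, 0 < ε → ∃ n f, ‖R n f - a‖ < ε)
    (τ : A →+ ℂ) (hτ : ∀ x y, τ (x * y) = τ (y * x)) (h1 : τ 1 = 1) :
    (∃ φ : K0 A ≃+ ℤ, φ (K0.mk (Idem.one A)) = 1) ∧ Subsingleton (K1 A) := by
  refine ⟨K0.main (fun p => ?_) τ hτ h1, K1.main fun n u hu => ?_⟩
  · have hP : (mtEquiv (Fin p.n) A).symm p.e * (mtEquiv (Fin p.n) A).symm p.e =
        (mtEquiv (Fin p.n) A).symm p.e := by rw [← map_mul, p.idem]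
    obtain ⟨n, e, he, w, hw⟩ := limit_idem R hinj hmono hdense _ hP
    obtain ⟨e₀, he₀, w', hw'⟩ := idem_scalar T C e he
    have hE₀ : mtEquiv _ _ e₀ * mtEquiv _ _ e₀ = mtEquiv _ _ e₀ := by rw [← map_mul, he₀]
    obtain ⟨j, X, Y, hXY, hYX⟩ := flat_idem T hE₀
    set S : T.Bk ℂ n →⋆ₐ[ℂ] A := (R n).comp (T.BkMap n (scal B)) with hS
    have hw2 : Mt.map (R n) e * Mt.map (R n) (w' : Mt (Fin p.n) (T.Bk B n)) =
        Mt.map (R n) (w' : Mt (Fin p.n) (T.Bk B n)) * Mt.map S e₀ := by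
      rw [← map_mul, hw', map_mul]
      rfl
    set V : (Mt (Fin p.n) A)ˣ := w * Units.map
      ((Mt.map (R n) : Mt (Fin p.n) (T.Bk B n) →⋆ₐ[ℂ] Mt (Fin p.n) A) :
        Mt (Fin p.n) (T.Bk B n) →* Mt (Fin p.n) A) w' with hV
    have hV1 : (V : Mt (Fin p.n) A) = w * Mt.map (R n) (w' : Mt (Fin p.n) (T.Bk B n)) := rfl
    have hPV : (mtEquiv (Fin p.n) A).symm p.e * V = V * Mt.map S e₀ := by
      rw [hV1, ← mul_assoc, hw, mul_assoc, hw2, ← mul_assoc]
    set V' : (Matrix (Fin p.n) (Fin p.n) A)ˣ := Units.map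
      ((mtEquiv (Fin p.n) A : Mt (Fin p.n) A ≃+* Matrix (Fin p.n) (Fin p.n) A) :
        Mt (Fin p.n) A →* Matrix (Fin p.n) (Fin p.n) A) V with hV'
    have hPV' : p.e * (V' : Matrix (Fin p.n) (Fin p.n) A) =
        V' * (mtEquiv _ _ e₀).map S := by
      have := congrArg (mtEquiv (Fin p.n) A) hPV
      rw [map_mul, map_mul] at this
      exact this
    refine ⟨j, (V' : Matrix (Fin p.n) (Fin p.n) A) * X.map S,
      Y.map S * ((V'⁻¹ : (Matrix (Fin p.n) (Fin p.n) A)ˣ) : Matrix (Fin p.n) (Fin p.n) A), ?_, ?_⟩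
    · have h2 : X.map S * Y.map S = (mtEquiv _ _ e₀).map S := by
        rw [← hXY]
        exact (Matrix.map_mul (f := (S : T.Bk ℂ n →+* A))).symm
      calc (V' : Matrix (Fin p.n) (Fin p.n) A) * X.map S *
          (Y.map S * ((V'⁻¹ : (Matrix (Fin p.n) (Fin p.n) A)ˣ) : Matrix (Fin p.n) (Fin p.n) A))
          = (V' : Matrix (Fin p.n) (Fin p.n) A) * (X.map S * Y.map S) *
            ((V'⁻¹ : (Matrix (Fin p.n) (Fin p.n) A)ˣ) : Matrix (Fin p.n) (Fin p.n) A) := by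
            simp only [Matrix.mul_assoc]
        _ = p.e := by rw [h2, ← hPV', Units.mul_inv_cancel_right]
    · have h2 : Y.map S * X.map S = (1 : Matrix (Fin j) (Fin j) A) := by
        have h3 : Y.map S * X.map S = (Y * X).map S :=
          (Matrix.map_mul (f := (S : T.Bk ℂ n →+* A))).symm
        rw [h3, hYX]
        exact Matrix.map_one S (map_zero S) (map_one S)
      calc Y.map S * ((V'⁻¹ : (Matrix (Fin p.n) (Fin p.n) A)ˣ) : Matrix (Fin p.n) (Fin p.n) A) *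
          ((V' : Matrix (Fin p.n) (Fin p.n) A) * X.map S)
          = Y.map S * (((V'⁻¹ : (Matrix (Fin p.n) (Fin p.n) A)ˣ) :
            Matrix (Fin p.n) (Fin p.n) A) * (V' : Matrix (Fin p.n) (Fin p.n) A)) * X.map S := by
            simp only [Matrix.mul_assoc]
        _ = 1 := by rw [Units.inv_mul, Matrix.mul_one, h2]
  · have hU : IsUnit ((mtEquiv (Fin (n + 1)) A).symm u) := hu.map (mtEquiv (Fin (n + 1)) A).symm
    obtain ⟨m, v, hv, hj⟩ := limit_unit R hinj hmono hdense _ hU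
    obtain ⟨v₀, hv₀, hj'⟩ := unit_scalar T C v hv
    have hj'' := flat_unit T (u := mtEquiv _ _ v₀) (hv₀.map (mtEquiv (Fin (n + 1)) (T.Bk ℂ m)))
    set S : T.Bk ℂ m →⋆ₐ[ℂ] A := (R m).comp (T.BkMap m (scal B)) with hS
    have k1 : JoinedIn {M : Matrix (Fin (n + 1)) (Fin (n + 1)) A | IsUnit M} u
        (mtEquiv _ _ (Mt.map (R m) v)) := joinedIn_mt hj
    have k2 : JoinedIn {M : Matrix (Fin (n + 1)) (Fin (n + 1)) A | IsUnit M}
        (mtEquiv _ _ (Mt.map (R m) v)) ((mtEquiv _ _ v₀).map S) :=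
      joinedIn_mt (joinedIn_map' hj' (Mt.map_continuous (R m))
        fun x (hx : IsUnit x) => hx.map (Mt.map (R m)))
    have k3 : JoinedIn {M : Matrix (Fin (n + 1)) (Fin (n + 1)) A | IsUnit M}
        ((mtEquiv _ _ v₀).map S) ((1 : Matrix (Fin (n + 1)) (Fin (n + 1)) (T.Bk ℂ m)).map S) :=
      joinedIn_map' hj'' (f := fun M => M.map S)
        (Continuous.matrix_map continuous_id (starHom_continuous S))
        fun x (hx : IsUnit x) => hx.map (RingHom.mapMatrix (S : T.Bk ℂ m →+* A))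
    rw [Matrix.map_one S (map_zero S) (map_one S)] at k3
    exact (k1.trans k2).trans k3

/-- The K-theory of the limit. -/
theorem partC (C : ConeAlg d B) (R : ∀ n, T.Bk B n →⋆ₐ[ℂ] A) (hA : T.IsLimit C A R)
    (τ : A →+ ℂ) (hτ : ∀ x y, τ (x * y) = τ (y * x)) (h1 : τ 1 = 1) :
    (∃ φ : K0 A ≃+ ℤ, φ (K0.mk (Idem.one A)) = 1) ∧ Subsingleton (K1 A) := by
  refine ktheory_limit T C R hA.inj ?_ hA.dense τ hτ h1
  intro n m hnm
  induction m, hnm using Nat.le_induction with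
  | base => exact fun f => ⟨f, rfl⟩
  | succ m hnm ih =>
    intro f
    obtain ⟨g, hg⟩ := ih f
    exact ⟨T.Φ C m g, by rw [hA.compat, hg]⟩

end Pool.Agent.H.MP_e11395_an
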