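import Pool.Agent.H.MP_e11395_an.C.Bk
import Pool.Agent.H.MP_e11395_an.C.AmpC

/-!
# Part C of MP_e11395: matrices over the scalar building blocks as matrices over `C([0,1])`
-/

set_option autoImplicit false
set_option linter.unusedSectionVars false

open Filter Topology unitInterval

namespace Pool.Agent.H.MP_e11395_an

variable {d : ℕ → ℕ} (T : TowerData d) {n : ℕ} {s s' s'' : ℕ}

/-- A matrix over the scalar building block as a big matrix over `C([0,1])`. -/
noncomputable def flat (M : Matrix (Fin s) (Fin s') (T.Bk ℂ n)) :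
    Matrix (Fin s × Fin (T.r n)) (Fin s' × Fin (T.r n)) CI :=
  fun a b => ⟨fun x => (M a.1 b.1).val x a.2 b.2,
    (Mt.continuous_entry a.2 b.2).comp (ContinuousMap.continuous _)⟩

theorem FlaA_apply (M : Matrix (Fin s) (Fin s') (T.Bk ℂ n))
    (a : Fin s × Fin (T.r n)) (b : Fin s' × Fin (T.r n)) (x : I) :
    flat T M a b x = (M a.1 b.1).val x a.2 b.2 := rfl

theorem FlaA_sum_apply {ι α : Type} [Fintype ι] [DecidableEq ι] (t : Finset α) (f : α → Mt ι ℂ)
    (i j : ι) : (∑ k ∈ t, f k) i j = ∑ k ∈ t, f k i j := by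
  classical
  induction t using Finset.induction_on with
  | empty => rfl
  | insert a t ha ih => rw [Finset.sum_insert ha, Finset.sum_insert ha, Mt.add_apply, ih]

/-- `val` is additive and multiplicative; `Mt.mul_apply`; `Matrix.mul_apply`,
`Fintype.sum_prod_type`. -/
theorem flat_mul (M : Matrix (Fin s) (Fin s') (T.Bk ℂ n))
    (M' : Matrix (Fin s') (Fin s'') (T.Bk ℂ n)) : flat T (M * M') = flat T M * flat T M' := by
  funext a b
  refine ContinuousMap.ext fun x => ?_
  rw [FlaA_apply, Matrix.mul_apply, Matrix.mul_apply, TowerData.Bk.val_sum,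
    ContinuousMap.sum_apply, FlaA_sum_apply, ContinuousMap.sum_apply, Fintype.sum_prod_type]
  refine Finset.sum_congr rfl fun k _ => ?_
  rw [TowerData.Bk.val_mul, ContinuousMap.mul_apply, Mt.mul_apply]
  refine Finset.sum_congr rfl fun l _ => ?_
  rw [ContinuousMap.mul_apply]
  rfl

theorem flat_one : flat T (1 : Matrix (Fin s) (Fin s) (T.Bk ℂ n)) = 1 := by
  funext a b
  refine ContinuousMap.ext fun x => ?_
  rw [FlaA_apply, Matrix.one_apply, Matrix.one_apply]
  by_cases h : a = b
  · rw [if_pos (congrArg Prod.fst h), if_pos h, TowerData.Bk.val_one, ContinuousMap.one_apply,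
      ContinuousMap.one_apply, Mt.one_apply, if_pos (congrArg Prod.snd h)]
  · rw [if_neg h]
    by_cases h1 : a.1 = b.1
    · have h2 : a.2 ≠ b.2 := fun h2 => h (Prod.ext h1 h2)
      rw [if_pos h1, TowerData.Bk.val_one, ContinuousMap.one_apply, Mt.one_apply, if_neg h2]
      rfl
    · rw [if_neg h1]
      rfl

theorem flat_injective {M M' : Matrix (Fin s) (Fin s') (T.Bk ℂ n)} (h : flat T M = flat T M') :
    M = M' := by
  funext i j
  refine TowerData.Bk.ext' fun x a b => ?_
  rw [← FlaA_apply T M (i, a) (j, b) x, ← FlaA_apply T M' (i, a) (j, b) x, h]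

/-- Flattened matrices satisfy the boundary condition (`TowerData.mem_Bl`, `Mt.amp_apply`). -/
theorem flat_bd (M : Matrix (Fin s) (Fin s') (T.Bk ℂ n)) : Bd (T.e₀ n) (T.e₁ n) (flat T M) := by
  have h0 : ∀ i j, ∃ g : Mt (Fin (T.p n)) ℂ, Mt.amp (T.e₀ n) g = (M i j).val 0 := fun i j =>
    ((T.mem_Bl).1 (M i j).val_mem).1
  have h1 : ∀ i j, ∃ g : Mt (Fin (T.q n)) ℂ, Mt.amp (T.e₁ n) g = (M i j).val 1 := fun i j =>
    ((T.mem_Bl).1 (M i j).val_mem).2
  choose g hg using h0
  choose g' hg' using h1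
  refine ⟨⟨fun a b => g a.1 b.1 a.2 b.2, ?_⟩, fun a b => g' a.1 b.1 a.2 b.2, ?_⟩
  · funext a b
    have h : ev 0 (flat T M) a b = (M a.1 b.1).val 0 a.2 b.2 := rfl
    rw [h, ← hg, Mt.amp_apply]
    rfl
  · funext a b
    have h : ev 1 (flat T M) a b = (M a.1 b.1).val 1 a.2 b.2 := rfl
    rw [h, ← hg', Mt.amp_apply]
    rfl

/-- Every matrix with the boundary condition is a flattened matrix. -/
theorem exists_flat {u : Matrix (Fin s × Fin (T.r n)) (Fin s' × Fin (T.r n)) CI}
    (hu : Bd (T.e₀ n) (T.e₁ n) u) : ∃ M : Matrix (Fin s) (Fin s') (T.Bk ℂ n), flat T M = u := by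
  obtain ⟨⟨G, hG⟩, G', hG'⟩ := hu
  have hc : ∀ (i : Fin s) (j : Fin s'),
      Continuous fun x : I => (Mt.of fun a b => u (i, a) (j, b) x : Mt (Fin (T.r n)) ℂ) :=
    fun i j => Mt.continuous_iff.2 fun a b => (u (i, a) (j, b)).continuous
  refine ⟨fun i j => TowerData.Bk.mk ⟨fun x => Mt.of fun a b => u (i, a) (j, b) x, hc i j⟩
    ((T.mem_Bl).2 ⟨⟨Mt.of fun p p' => G (i, p) (j, p'), ?_⟩,
      Mt.of fun p p' => G' (i, p) (j, p'), ?_⟩), ?_⟩
  · refine Mt.ext fun a b => ?_
    have h : ev 0 u (i, a) (j, b) = ampM (T.e₀ n) G (i, a) (j, b) := by rw [hG]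
    rw [Mt.amp_apply]
    exact h.symm
  · refine Mt.ext fun a b => ?_
    have h : ev 1 u (i, a) (j, b) = ampM (T.e₁ n) G' (i, a) (j, b) := by rw [hG']
    rw [Mt.amp_apply]
    exact h.symm
  · funext a b
    refine ContinuousMap.ext fun x => ?_
    rfl

/-- Continuity of the inverse of `flat`: a family of matrices is continuous if the flattened
family is (`TowerData.Bk.continuous_iff`, `Mt.continuous_iff`, and: a map into `C(I, Mt κ ℂ)` is
continuous iff its entries, as maps into `C(I, ℂ)`, are; e.g. with the sup norm and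
`Mt.norm_le_sum`, or `ContinuousMap.continuous_of_continuous_uncurry`). -/
theorem continuous_of_flat {X : Type} [TopologicalSpace X]
    {M : X → Matrix (Fin s) (Fin s') (T.Bk ℂ n)} (h : Continuous fun x => flat T (M x)) :
    Continuous M := by
  refine continuous_pi fun i => continuous_pi fun j => ?_
  rw [TowerData.Bk.continuous_iff]
  refine ContinuousMap.continuous_of_continuous_uncurry _ ?_
  refine Mt.continuous_iff.2 fun a b => ?_
  have h1 : Continuous fun x => flat T (M x) (i, a) (j, b) :=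
    (continuous_apply (j, b)).comp ((continuous_apply (i, a)).comp h)
  exact (h1.comp continuous_fst).eval continuous_snd

end Pool.Agent.H.MP_e11395_an
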