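import Mathlib

/-!
# Part C of MP_e11395: `GL_N(ℂ)` is path connected
-/

set_option autoImplicit false
set_option linter.unusedSectionVars false

open Filter Topology unitInterval

namespace Pool.Agent.H.MP_e11395_an

variable {N : Type} [Fintype N] [DecidableEq N]

/-- `GL_N(ℂ)` is path connected. `det (1 + z (c - 1))` is a polynomial in `z` which is nonzero at
`z = 0` and `z = 1`; its zeros form a finite set, whose complement in `ℂ` is path connected
(`Set.Countable.isPathConnected_compl_of_one_lt_rank`, `Complex.rank_real_complex`). -/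
theorem gl_path {c : Matrix N N ℂ} (hc : IsUnit c) :
    ∃ γ : I → Matrix N N ℂ, Continuous γ ∧ γ 0 = 1 ∧ γ 1 = c ∧ ∀ t, IsUnit (γ t) := by
  classical
  -- the determinant polynomial
  let P : Polynomial ℂ := (1 + (Polynomial.X : Polynomial ℂ) •
    (c - 1).map (Polynomial.C : ℂ →+* Polynomial ℂ)).det
  have hP : ∀ z : ℂ, P.eval z = (1 + z • (c - 1)).det := by
    intro z
    change (Polynomial.evalRingHom z) P = _
    rw [RingHom.map_det]
    congr 1
    ext i j
    by_cases h : i = j
    · subst h
      simp
    · simp [h]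
      ring
  have hP0 : P ≠ 0 := by
    intro h
    have := hP 0
    rw [h] at this
    simp at this
  have hfin : {z : ℂ | P.eval z = 0}.Finite := by
    have h1 : {z : ℂ | P.eval z = 0} ⊆ (P.roots.toFinset : Set ℂ) := by
      intro z hz
      simpa [hP0] using hz
    exact (Finset.finite_toSet _).subset h1
  have hconn : IsPathConnected ({z : ℂ | P.eval z = 0}ᶜ) :=
    hfin.countable.isPathConnected_compl_of_one_lt_rank (by
      rw [Complex.rank_real_complex]; norm_num)
  have h0 : (0 : ℂ) ∈ ({z : ℂ | P.eval z = 0}ᶜ) := by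
    simp [hP]
  have h1 : (1 : ℂ) ∈ ({z : ℂ | P.eval z = 0}ᶜ) := by
    have hd : c.det ≠ 0 := by
      rw [Matrix.isUnit_iff_isUnit_det] at hc
      exact hc.ne_zero
    simpa [hP] using hd
  obtain ⟨γ, hγ⟩ := hconn.joinedIn 0 h0 1 h1
  refine ⟨fun t => 1 + γ t • (c - 1), ?_, ?_, ?_, ?_⟩
  · exact continuous_const.add (γ.continuous.smul continuous_const)
  · simp
  · simp
  · intro t
    rw [Matrix.isUnit_iff_isUnit_det, isUnit_iff_ne_zero, ← hP]
    exact hγ t

end Pool.Agent.H.MP_e11395_an
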