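import Mathlib

/-!
# Part C of MP_e11395: idempotent complex matrices
-/

set_option autoImplicit false
set_option linter.unusedSectionVars false

open Filter Topology unitInterval

namespace Pool.Agent.H.MP_e11395_an

variable {N : Type} [Fintype N] [DecidableEq N]

theorem GLB_factor {e : Matrix N N ℂ} (he : e * e = e) (M : Type) [Fintype M] [DecidableEq M]
    (hM : Fintype.card M = Module.finrank ℂ (LinearMap.range (Matrix.toLin' e))) :
    ∃ (x : Matrix N M ℂ) (y : Matrix M N ℂ), x * y = e ∧ y * x = 1 := by
  set f : (N → ℂ) →ₗ[ℂ] (N → ℂ) := Matrix.toLin' e with hf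
  have hff : ∀ v, f (f v) = f v := by
    intro v
    rw [hf, Matrix.toLin'_apply, Matrix.toLin'_apply, Matrix.mulVec_mulVec, he]
  let b : Module.Basis M ℂ (LinearMap.range f) :=
    (Module.finBasis ℂ (LinearMap.range f)).reindex
      ((finCongr hM.symm).trans (Fintype.equivFin M).symm)
  refine ⟨LinearMap.toMatrix b (Pi.basisFun ℂ N) (LinearMap.range f).subtype,
    LinearMap.toMatrix (Pi.basisFun ℂ N) b f.rangeRestrict, ?_, ?_⟩
  · rw [← LinearMap.toMatrix_comp]
    have : (LinearMap.range f).subtype ∘ₗ f.rangeRestrict = f := by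
      ext v
      rfl
    rw [this, hf, ← Matrix.toLin_eq_toLin', LinearMap.toMatrix_toLin]
  · rw [← LinearMap.toMatrix_comp]
    have : f.rangeRestrict ∘ₗ (LinearMap.range f).subtype = LinearMap.id := by
      apply LinearMap.ext
      rintro ⟨v, w, rfl⟩
      apply Subtype.ext
      exact hff w
    rw [this, LinearMap.toMatrix_id]

/-- Rank factorisation of idempotents: `e = x y`, `y x = 1` with the rank `k`; any index type of
cardinality `k = trace e` can be used (`Matrix.trace (x * y) = Matrix.trace (y * x) = k`).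
(Range of `e` as a submodule of `N → ℂ` of dimension `k`, basis; or `Matrix.rank` factorisation.) -/
theorem idem_factor {e : Matrix N N ℂ} (he : e * e = e) :
    ∃ k : ℕ, Matrix.trace e = k ∧ ∀ (M : Type) [Fintype M] [DecidableEq M], Fintype.card M = k →
      ∃ (x : Matrix N M ℂ) (y : Matrix M N ℂ), x * y = e ∧ y * x = 1 := by
  refine ⟨Module.finrank ℂ (LinearMap.range (Matrix.toLin' e)), ?_, ?_⟩
  · obtain ⟨x, y, hxy, hyx⟩ := GLB_factor he
      (Fin (Module.finrank ℂ (LinearMap.range (Matrix.toLin' e)))) (Fintype.card_fin _)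
    rw [← hxy, Matrix.trace_mul_comm, hyx, Matrix.trace_one, Fintype.card_fin, hxy]
  · intro M _ _ hM
    exact GLB_factor he M hM

end Pool.Agent.H.MP_e11395_an
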