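import Pool.Agent.H.MP_e11395_an.C.Loop

/-!
# Part C of MP_e11395: elementary matrices are joined to the identity
-/

set_option autoImplicit false
set_option linter.unusedSectionVars false

open Filter Topology unitInterval

namespace Pool.Agent.H.MP_e11395_an

variable {N : Type} [Fintype N] [DecidableEq N]

/-- Elementary matrices: `1 + w` with `w` a matrix such that `w² = 0` and `w 0 = w 1 = 0` can be
joined to `1` in `Loops N` (path `1 + τ w`, inverse `1 - τ w`). -/
theorem joined_one_add {w : Matrix N N CI} (hw : w * w = 0) (h0 : ev 0 w = 0) (h1 : ev 1 w = 0) :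
    JoinedIn (Loops N) 1 (1 + w) := by
  have hW : ∀ x, ev x w * ev x w = 0 := fun x => by
    rw [← ev_mul, hw]
    rfl
  refine joinedIn_of_homotopy (fun τ x => 1 + ((τ : ℝ) : ℂ) • ev x w) ?_ ?_ ?_ ?_
  · have h2 : Continuous fun z : I × I => ((z.1 : ℝ) : ℂ) • ev z.2 w :=
      (Complex.continuous_ofReal.comp (continuous_subtype_val.comp continuous_fst)).smul
        ((ev_continuous w).comp continuous_snd)
    exact continuous_const.add h2
  · intro x
    simp
  · intro x
    rw [ev_add, ev_one]
    simp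
  · intro τ v hv
    refine ⟨isUnit_iff_ev.2 fun x => ?_, ?_, ?_⟩
    · rw [hv x]
      have e1 : (1 + ((τ : ℝ) : ℂ) • ev x w) * (1 - ((τ : ℝ) : ℂ) • ev x w) = 1 := by
        rw [add_mul, one_mul, mul_sub, mul_one, smul_mul_smul_comm, hW x, smul_zero, sub_zero]
        abel
      have e2 : (1 - ((τ : ℝ) : ℂ) • ev x w) * (1 + ((τ : ℝ) : ℂ) • ev x w) = 1 := by
        rw [sub_mul, one_mul, mul_add, mul_one, smul_mul_smul_comm, hW x, smul_zero, add_zero]
        abel
      exact ⟨⟨_, _, e1, e2⟩, rfl⟩
    · rw [hv 0, h0, smul_zero, add_zero]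
    · rw [hv 1, h1, smul_zero, add_zero]

end Pool.Agent.H.MP_e11395_an
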