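import Pool.Agent.H.MP_e11395_an.C.Loop

/-!
# Part C of MP_e11395: the rotation trick
-/

set_option autoImplicit false
set_option linter.unusedSectionVars false

open Filter Topology unitInterval

namespace Pool.Agent.H.MP_e11395_an

variable {N : Type} [Fintype N] [DecidableEq N]

/-- the unit vector `sin (τ π / 2) e₀ + cos (τ π / 2) e₁` -/
noncomputable def GauB_v (i₀ i₁ : N) (τ : I) : N → ℂ :=
  fun i => (if i = i₀ then ((Real.sin ((τ : ℝ) * (Real.pi / 2)) : ℝ) : ℂ) else 0) +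
    if i = i₁ then ((Real.cos ((τ : ℝ) * (Real.pi / 2)) : ℝ) : ℂ) else 0

/-- the projection to the line of `GauB_v` -/
noncomputable def GauB_P (i₀ i₁ : N) (τ : I) : Matrix N N ℂ :=
  Matrix.vecMulVec (GauB_v i₀ i₁ τ) (GauB_v i₀ i₁ τ)

theorem GauB_P_continuous (i₀ i₁ : N) : Continuous (GauB_P i₀ i₁) := by
  have h : Continuous fun τ : I => GauB_v i₀ i₁ τ := by
    refine continuous_pi fun i => ?_
    unfold GauB_v
    refine Continuous.add ?_ ?_
    · split_ifs
      · fun_prop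
      · exact continuous_const
    · split_ifs
      · fun_prop
      · exact continuous_const
  refine continuous_pi fun i => continuous_pi fun j => ?_
  exact ((continuous_apply i).comp h).mul ((continuous_apply j).comp h)

theorem GauB_dot {i₀ i₁ : N} (h : i₀ ≠ i₁) (τ : I) :
    dotProduct (GauB_v i₀ i₁ τ) (GauB_v i₀ i₁ τ) = 1 := by
  have h1 : ∀ i, GauB_v i₀ i₁ τ i * GauB_v i₀ i₁ τ i =
      (if i = i₀ then ((Real.sin ((τ : ℝ) * (Real.pi / 2)) : ℝ) : ℂ) ^ 2 else 0) +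
        if i = i₁ then ((Real.cos ((τ : ℝ) * (Real.pi / 2)) : ℝ) : ℂ) ^ 2 else 0 := by
    intro i
    unfold GauB_v
    by_cases h0 : i = i₀
    · subst h0
      rw [if_pos rfl, if_pos rfl, if_neg h, if_neg h]
      ring
    · rw [if_neg h0, if_neg h0]
      split_ifs <;> ring
  unfold dotProduct
  rw [Finset.sum_congr rfl fun i _ => h1 i, Finset.sum_add_distrib, Finset.sum_ite_eq',
    Finset.sum_ite_eq', if_pos (Finset.mem_univ _), if_pos (Finset.mem_univ _)]
  have h2 := Real.sin_sq_add_cos_sq ((τ : ℝ) * (Real.pi / 2))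
  exact_mod_cast h2

theorem GauB_P_mul {i₀ i₁ : N} (h : i₀ ≠ i₁) (τ : I) :
    GauB_P i₀ i₁ τ * GauB_P i₀ i₁ τ = GauB_P i₀ i₁ τ := by
  unfold GauB_P
  rw [Matrix.vecMulVec_mul_vecMulVec, GauB_dot h, one_smul]

theorem GauB_isUnit {i₀ i₁ : N} (h : i₀ ≠ i₁) (τ : I) {β : ℂ} (hβ : β ≠ 0) :
    IsUnit (1 + (β - 1) • GauB_P i₀ i₁ τ) := by
  refine IsUnit.of_mul_eq_one (1 + (β⁻¹ - 1) • GauB_P i₀ i₁ τ) ?_
  have h1 : (1 + (β - 1) • GauB_P i₀ i₁ τ) * (1 + (β⁻¹ - 1) • GauB_P i₀ i₁ τ) =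
      1 + ((β⁻¹ - 1) + (β - 1) + (β - 1) * (β⁻¹ - 1)) • GauB_P i₀ i₁ τ := by
    rw [add_mul, one_mul, mul_add, mul_one, smul_mul_smul_comm, GauB_P_mul h, add_smul, add_smul]
    abel
  have h2 : (β⁻¹ - 1) + (β - 1) + (β - 1) * (β⁻¹ - 1) = 0 := by
    field_simp
    ring
  rw [h1, h2, zero_smul, add_zero]

theorem GauB_dg (i : N) (β : ℂ) (v : N → ℂ) (hv : v = Pi.single i 1) :
    1 + (β - 1) • Matrix.vecMulVec v v = dg i β := by
  subst hv
  unfold dg
  funext j k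
  rw [Matrix.add_apply, Matrix.smul_apply, Matrix.vecMulVec_apply, Matrix.one_apply,
    Matrix.diagonal_apply]
  by_cases hj : j = i
  · subst hj
    by_cases hk : j = k
    · subst hk
      simp
    · rw [Pi.single_eq_of_ne (Ne.symm hk)]
      simp [hk]
  · rw [Pi.single_eq_of_ne hj]
    by_cases hk : j = k
    · simp [hk, Function.update_of_ne (hk ▸ hj)]
    · simp [hk]

theorem GauB_v_zero (i₀ i₁ : N) : GauB_v i₀ i₁ 0 = Pi.single i₁ 1 := by
  funext i
  unfold GauB_v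
  by_cases h : i = i₁
  · subst h; simp
  · simp [h]

theorem GauB_v_one (i₀ i₁ : N) : GauB_v i₀ i₁ 1 = Pi.single i₀ 1 := by
  funext i
  unfold GauB_v
  by_cases h : i = i₀
  · subst h; simp
  · simp [h]

theorem GauB_dg_continuous (i : N) {a : I → ℂ} (ha : Continuous a) :
    Continuous fun x => dg i (a x) := by
  unfold dg
  exact (Continuous.update continuous_const i ha).matrix_diagonal

/-- Rotation trick (Whitehead): for scalar loops `a`, `b` and `i₀ ≠ i₁`,
`diag(a at i₀, b at i₁) ~ diag(a b at i₀)`. Path: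
`τ ↦ dg i₀ a * (Rot τ * dg i₁ b * (Rot τ)⁻¹)` where `Rot τ` is the rotation by the angle
`τ π / 2` in the `(i₀, i₁)`-plane (constant in `x`); `Rot 1` interchanges the two coordinates up to
sign, so `Rot 1 * dg i₁ b * (Rot 1)⁻¹ = dg i₀ b`. At `x = 0, 1` the value is `1`. -/
theorem joined_dg_dg {i₀ i₁ : N} (h : i₀ ≠ i₁) {a b : CI} (ha : ∀ x, a x ≠ 0) (ha0 : a 0 = 1)
    (ha1 : a 1 = 1) (hb : ∀ x, b x ≠ 0) (hb0 : b 0 = 1) (hb1 : b 1 = 1) :
    JoinedIn (Loops N) (dg i₀ a * dg i₁ b) (dg i₀ (a * b)) := by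
  refine joinedIn_of_homotopy
    (fun τ x => dg i₀ (a x) * (1 + (b x - 1) • GauB_P i₀ i₁ τ)) ?_ ?_ ?_ ?_
  · have h1 : Continuous fun z : I × I => dg i₀ (a z.2) :=
      (GauB_dg_continuous i₀ a.continuous).comp continuous_snd
    have h2 : Continuous fun z : I × I => GauB_P i₀ i₁ z.1 :=
      (GauB_P_continuous i₀ i₁).comp continuous_fst
    have h3 : Continuous fun z : I × I => b z.2 := b.continuous.comp continuous_snd
    exact h1.mul (continuous_const.add ((h3.sub continuous_const).smul h2))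
  · intro x
    rw [ev_mul, ev_dg, ev_dg]
    unfold GauB_P
    rw [GauB_dg i₁ (b x) _ (GauB_v_zero i₀ i₁)]
  · intro x
    unfold GauB_P
    rw [GauB_dg i₀ (b x) _ (GauB_v_one i₀ i₁), dg_mul, ev_dg]
    rfl
  · intro τ w hw
    refine ⟨isUnit_iff_ev.2 fun x => ?_, ?_, ?_⟩
    · rw [hw x]
      refine IsUnit.mul ?_ (GauB_isUnit h τ (hb x))
      rw [Matrix.isUnit_iff_isUnit_det, det_dg, isUnit_iff_ne_zero]
      exact ha x
    · rw [hw 0, ha0, hb0, dg_one, sub_self, zero_smul, add_zero, one_mul]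
    · rw [hw 1, ha1, hb1, dg_one, sub_self, zero_smul, add_zero, one_mul]

end Pool.Agent.H.MP_e11395_an
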