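import Pool.Agent.H.MP_e11395_an.C.GauA

/-!
# Part C of MP_e11395: elimination of one column and one row
-/

set_option autoImplicit false
set_option linter.unusedSectionVars false

open Filter Topology unitInterval

namespace Pool.Agent.H.MP_e11395_an

variable {N : Type} [Fintype N] [DecidableEq N]

/-- `det (1 + a b^T) = 1 + b · a`. -/
theorem GauC_det (a b : N → CI) :
    (1 + Matrix.vecMulVec a b : Matrix N N CI).det = 1 + b ⬝ᵥ a := by
  rw [Matrix.vecMulVec_eq Unit, Matrix.det_one_add_replicateCol_mul_replicateRow]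

/-- Square of a rank one matrix. -/
theorem GauC_sq {a b : N → CI} (h : b ⬝ᵥ a = 0) :
    (Matrix.vecMulVec a b : Matrix N N CI) * Matrix.vecMulVec a b = 0 := by
  rw [Matrix.vecMulVec_mul_vecMulVec, h]
  have h1 : (0 : CI) • b = 0 := by
    funext i
    simp
  rw [h1, Matrix.vecMulVec_zero]

theorem GauC_single_dot (i₀ : N) (a : N → CI) : (Pi.single i₀ 1 : N → CI) ⬝ᵥ a = a i₀ := by
  rw [single_dotProduct, one_mul]

theorem GauC_dot_single (i₀ : N) (a : N → CI) : a ⬝ᵥ (Pi.single i₀ 1 : N → CI) = a i₀ := by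
  rw [dotProduct_single, mul_one]

/-- Gauss elimination for one column and one row: a loop `u` with `u i₀ i₀` nowhere zero can be
joined to a loop `v` with `v i₀ i₀ = u i₀ i₀` and `v i₀ i = v i i₀ = 0` for `i ≠ i₀`.
`v = (1 + w) u (1 + w')`, `w i i₀ = - u i i₀ / u i₀ i₀` for `i ≠ i₀`, all other entries of `w` are
`0`; `w' i₀ i = - u i₀ i / u i₀ i₀` for `i ≠ i₀`, other entries `0`; `joined_one_add`,
`joinedIn_mul`. -/
theorem joined_block {u : Matrix N N CI} (hu : u ∈ Loops N) (i₀ : N) (h : ∀ x, u i₀ i₀ x ≠ 0) :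
    ∃ v ∈ Loops N, JoinedIn (Loops N) u v ∧ v.det = u.det ∧ v i₀ i₀ = u i₀ i₀ ∧
      ∀ i, i ≠ i₀ → v i₀ i = 0 ∧ v i i₀ = 0 := by
  obtain ⟨hunit, hu0, hu1⟩ := hu
  set ci : CI := ⟨fun x => (u i₀ i₀ x)⁻¹, (u i₀ i₀).continuous.inv₀ h⟩ with hci
  have hci' : ci * u i₀ i₀ = 1 := by
    ext x
    show (u i₀ i₀ x)⁻¹ * u i₀ i₀ x = 1
    exact inv_mul_cancel₀ (h x)
  set a : N → CI := fun i => if i = i₀ then 0 else - (u i i₀ * ci) with ha
  set b : N → CI := fun j => if j = i₀ then 0 else - (ci * u i₀ j) with hb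
  have ha0 : a i₀ = 0 := if_pos rfl
  have hb0 : b i₀ = 0 := if_pos rfl
  have hev : ∀ (x : I), ev x u = 1 → (∀ i, i ≠ i₀ → u i i₀ x = 0 ∧ u i₀ i x = 0) := by
    intro x hx i hi
    have h1 := congrFun (congrFun hx i) i₀
    have h2 := congrFun (congrFun hx i₀) i
    rw [Matrix.one_apply_ne hi] at h1
    rw [Matrix.one_apply_ne (Ne.symm hi)] at h2
    exact ⟨h1, h2⟩
  set w : Matrix N N CI := Matrix.vecMulVec a (Pi.single i₀ 1) with hw
  set w' : Matrix N N CI := Matrix.vecMulVec (Pi.single i₀ 1) b with hw'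
  have hww : w * w = 0 := GauC_sq (by rw [GauC_single_dot, ha0])
  have hww' : w' * w' = 0 := GauC_sq (by rw [GauC_dot_single, hb0])
  have ev_w : ∀ (x : I), ev x u = 1 → ev x w = 0 ∧ ev x w' = 0 := by
    intro x hx
    have hx' := hev x hx
    constructor
    · funext i j
      show (a i * (Pi.single i₀ 1 : N → CI) j) x = 0
      by_cases hi : i = i₀
      · rw [hi, ha0, zero_mul]; rfl
      · have h1 : a i = - (u i i₀ * ci) := if_neg hi
        rw [h1]
        simp [(hx' i hi).1]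
    · funext i j
      show ((Pi.single i₀ 1 : N → CI) i * b j) x = 0
      by_cases hj : j = i₀
      · rw [hj, hb0, mul_zero]; rfl
      · have h1 : b j = - (ci * u i₀ j) := if_neg hj
        rw [h1]
        simp [(hx' j hj).2]
  have hj1 := joined_one_add hww (ev_w 0 hu0).1 (ev_w 1 hu1).1
  have hj2 := joined_one_add hww' (ev_w 0 hu0).2 (ev_w 1 hu1).2
  have hju : JoinedIn (Loops N) u u := JoinedIn.refl ⟨hunit, hu0, hu1⟩
  have hj : JoinedIn (Loops N) (1 * u * 1) ((1 + w) * u * (1 + w')) :=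
    joinedIn_mul Loops_mul (joinedIn_mul Loops_mul hj1 hju) hj2
  rw [one_mul, mul_one] at hj
  have e1 : ∀ i j, ((1 + w) * u) i j = u i j + a i * u i₀ j := by
    intro i j
    rw [add_mul, one_mul, Matrix.add_apply, hw, Matrix.vecMulVec_mul, Matrix.vecMulVec_apply,
      Matrix.single_one_vecMul]
    rfl
  have e2 : ∀ (m : Matrix N N CI) i j, (m * (1 + w')) i j = m i j + m i i₀ * b j := by
    intro m i j
    rw [mul_add, mul_one, Matrix.add_apply, hw', Matrix.mul_vecMulVec, Matrix.vecMulVec_apply,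
      Matrix.mulVec_single_one]
    rfl
  refine ⟨(1 + w) * u * (1 + w'), hj.target_mem, hj, ?_, ?_, ?_⟩
  · rw [Matrix.det_mul, Matrix.det_mul, hw, hw', GauC_det, GauC_det, GauC_single_dot,
      GauC_dot_single, ha0, hb0]
    ring
  · rw [e2, e1, ha0, hb0]
    ring
  · intro i hi
    constructor
    · rw [e2, e1, e1, ha0]
      have h1 : b i = - (ci * u i₀ i) := if_neg hi
      rw [h1]
      calc u i₀ i + 0 * u i₀ i + (u i₀ i₀ + 0 * u i₀ i₀) * -(ci * u i₀ i)
          = u i₀ i - (ci * u i₀ i₀) * u i₀ i := by ring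
        _ = 0 := by rw [hci']; ring
    · rw [e2, e1, hb0]
      have h1 : a i = - (u i i₀ * ci) := if_neg hi
      rw [h1]
      calc u i i₀ + -(u i i₀ * ci) * u i₀ i₀ + (u i i₀ + -(u i i₀ * ci) * u i₀ i₀) * 0
          = u i i₀ - u i i₀ * (ci * u i₀ i₀) := by ring
        _ = 0 := by rw [hci']; ring

end Pool.Agent.H.MP_e11395_an
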