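import Mathlib

/-!
# Part C of MP_e11395: general position
-/

set_option autoImplicit false
set_option linter.unusedSectionVars false

open Filter Topology unitInterval

namespace Pool.Agent.H.MP_e11395_an

/-- General position: if `c : ℝ → ℂ` and `ρ : ℝ → ℝ` are differentiable and have no common zero in
`[0,1]`, then `c + t ρ` has no zero in `[0,1]` for some `t : ℂ`. The bad `t` are
`- c x / ρ x`, `x ∈ [0,1]`, `ρ x ≠ 0`. They are contained in the image of the set
`s = {z : ℂ | z.im = 0 ∧ ρ z.re ≠ 0}`, of measure `0` (subset of a proper real subspace of `ℂ`,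
`MeasureTheory.Measure.addHaar_submodule`), under `z ↦ - c z.re / ρ z.re`, which is
differentiable on `s`: measure `0` by
`MeasureTheory.addHaar_image_eq_zero_of_differentiableOn_of_addHaar_eq_zero`, so the complement
is not empty. -/
theorem exists_general_position (c : ℝ → ℂ) (ρ : ℝ → ℝ) (hc : Differentiable ℝ c)
    (hρ : Differentiable ℝ ρ) (h : ∀ x ∈ Set.Icc (0 : ℝ) 1, c x ≠ 0 ∨ ρ x ≠ 0) :
    ∃ t : ℂ, ∀ x ∈ Set.Icc (0 : ℝ) 1, c x + t * (ρ x : ℂ) ≠ 0 := by
  set s : Set ℂ := {z : ℂ | z.im = 0 ∧ ρ z.re ≠ 0} with hs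
  set f : ℂ → ℂ := fun z => - c z.re / (ρ z.re : ℂ) with hf
  have hre : Differentiable ℝ fun z : ℂ => z.re := Complex.reCLM.differentiable
  have hfd : DifferentiableOn ℝ f s := by
    intro z hz
    have h1 : DifferentiableAt ℝ (fun z : ℂ => c z.re) z := (hc z.re).comp z (hre z)
    have h2 : DifferentiableAt ℝ (fun z : ℂ => ((ρ z.re : ℝ) : ℂ)) z := by
      have h3 : DifferentiableAt ℝ (fun z : ℂ => ρ z.re) z := (hρ z.re).comp z (hre z)
      exact Complex.ofRealCLM.differentiable.differentiableAt.comp z h3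
    have h4 : ((ρ z.re : ℝ) : ℂ) ≠ 0 := by
      exact_mod_cast hz.2
    have h5 : DifferentiableAt ℝ (fun z : ℂ => (((ρ z.re : ℝ) : ℂ))⁻¹) z := h2.fun_inv h4
    have h6 : DifferentiableAt ℝ (fun z : ℂ => (- c z.re) * (((ρ z.re : ℝ) : ℂ))⁻¹) z :=
      h1.fun_neg.fun_mul h5
    exact (h6.congr_of_eventuallyEq (Filter.Eventually.of_forall fun w => by
      rw [hf]; exact div_eq_mul_inv _ _)).differentiableWithinAt
  have hs0 : MeasureTheory.volume s = 0 := by
    set V : Submodule ℝ ℂ := LinearMap.ker Complex.imLm with hV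
    have hVne : V ≠ ⊤ := by
      intro h1
      have h2 : Complex.I ∈ V := by rw [h1]; trivial
      rw [hV, LinearMap.mem_ker] at h2
      simp at h2
    have h3 := MeasureTheory.Measure.addHaar_submodule (MeasureTheory.volume : MeasureTheory.Measure ℂ)
      V hVne
    refine MeasureTheory.measure_mono_null ?_ h3
    intro z hz
    show z ∈ V
    rw [hV, LinearMap.mem_ker]
    exact hz.1
  have himg : MeasureTheory.volume (f '' s) = 0 :=
    MeasureTheory.addHaar_image_eq_zero_of_differentiableOn_of_addHaar_eq_zero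
      (MeasureTheory.volume : MeasureTheory.Measure ℂ) hfd hs0
  have hne : ∃ t : ℂ, t ∉ f '' s := by
    by_contra hcon
    push Not at hcon
    have h1 : f '' s = Set.univ := Set.eq_univ_of_forall hcon
    rw [h1] at himg
    exact (MeasureTheory.Measure.measure_univ_ne_zero.2 (NeZero.ne _)) himg
  obtain ⟨t, ht⟩ := hne
  refine ⟨t, fun x hx h0 => ?_⟩
  have hr : ρ x ≠ 0 := by
    intro h1
    rw [h1] at h0
    simp at h0
    rcases h x hx with h2 | h2
    · exact h2 h0
    · exact h2 h1
  apply ht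
  refine ⟨(x : ℂ), ⟨Complex.ofReal_im x, by simpa using hr⟩, ?_⟩
  have h4 : ((ρ x : ℝ) : ℂ) ≠ 0 := by exact_mod_cast hr
  rw [hf]
  simp only [Complex.ofReal_re]
  rw [div_eq_iff h4]
  linear_combination -h0
end Pool.Agent.H.MP_e11395_an
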