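import Pool.Agent.H.MP_e11395_an.C.Path

/-!
# Part C of MP_e11395: smooth approximation
-/

set_option autoImplicit false
set_option linter.unusedSectionVars false

open Filter Topology unitInterval

namespace Pool.Agent.H.MP_e11395_an

/-- Weierstrass for complex valued functions on the unit interval with prescribed ends: `f` is
uniformly approximated by functions which extend to differentiable functions `ℝ → ℂ` and have the
same values as `f` at `0` and `1`. (Apply `exists_polynomial_near_of_continuousOn` to the real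
and imaginary parts of `f ∘ projIcc` with error `ε / 8`; then correct the ends by adding the
affine function `(1 - x) (f 0 - g 0) + x (f 1 - g 1)`.) -/
theorem exists_smooth_near (f : CI) (ε : ℝ) (hε : 0 < ε) :
    ∃ (g : CI) (G : ℝ → ℂ), Differentiable ℝ G ∧ (∀ x : I, g x = G x) ∧ g 0 = f 0 ∧ g 1 = f 1 ∧
      ∀ x, ‖g x - f x‖ < ε := by
  let F : ℝ → ℂ := fun x => f (Set.projIcc 0 1 zero_le_one x)
  have hF : Continuous F := f.continuous.comp continuous_projIcc
  have hFx : ∀ x : I, F x = f x := fun x => by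
    change f (Set.projIcc 0 1 zero_le_one (x : ℝ)) = f x
    rw [Set.projIcc_val]
  obtain ⟨P, hP⟩ := exists_polynomial_near_of_continuousOn 0 1 (fun x => (F x).re)
    (Complex.continuous_re.comp hF).continuousOn (ε / 8) (by positivity)
  obtain ⟨R, hR⟩ := exists_polynomial_near_of_continuousOn 0 1 (fun x => (F x).im)
    (Complex.continuous_im.comp hF).continuousOn (ε / 8) (by positivity)
  let G0 : ℝ → ℂ := fun x => ((P.eval x : ℝ) : ℂ) + ((R.eval x : ℝ) : ℂ) * Complex.I
  have hG0 : Differentiable ℝ G0 := by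
    have h1 : Differentiable ℝ (fun x : ℝ => ((P.eval x : ℝ) : ℂ)) :=
      Complex.ofRealCLM.differentiable.comp P.differentiable
    have h2 : Differentiable ℝ (fun x : ℝ => ((R.eval x : ℝ) : ℂ)) :=
      Complex.ofRealCLM.differentiable.comp R.differentiable
    exact h1.add (h2.mul_const _)
  have hnear : ∀ x : I, ‖G0 x - f x‖ < ε / 4 := by
    intro x
    have h1 := hP x x.2
    have h2 := hR x x.2
    simp only [hFx] at h1 h2
    have h3 : G0 x - f x = ((P.eval (x : ℝ) - (f x).re : ℝ) : ℂ) +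
        ((R.eval (x : ℝ) - (f x).im : ℝ) : ℂ) * Complex.I := by
      change ((P.eval (x : ℝ) : ℝ) : ℂ) + ((R.eval (x : ℝ) : ℝ) : ℂ) * Complex.I - f x = _
      conv_lhs => rw [← Complex.re_add_im (f x)]
      push_cast
      ring
    rw [h3]
    calc ‖((P.eval (x : ℝ) - (f x).re : ℝ) : ℂ) + ((R.eval (x : ℝ) - (f x).im : ℝ) : ℂ) * Complex.I‖
        ≤ ‖((P.eval (x : ℝ) - (f x).re : ℝ) : ℂ)‖ +
          ‖((R.eval (x : ℝ) - (f x).im : ℝ) : ℂ) * Complex.I‖ := norm_add_le _ _
      _ = |P.eval (x : ℝ) - (f x).re| + |R.eval (x : ℝ) - (f x).im| := by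
          rw [norm_mul, Complex.norm_I, mul_one, Complex.norm_real, Complex.norm_real,
            Real.norm_eq_abs, Real.norm_eq_abs]
      _ < ε / 4 := by linarith
  let G : ℝ → ℂ := fun x => G0 x + (((1 - x : ℝ) : ℂ) * (f 0 - G0 0) + ((x : ℝ) : ℂ) * (f 1 - G0 1))
  have hG : Differentiable ℝ G := by
    have h1 : Differentiable ℝ (fun x : ℝ => ((1 - x : ℝ) : ℂ)) :=
      Complex.ofRealCLM.differentiable.comp ((differentiable_const _).sub differentiable_id)
    have h2 : Differentiable ℝ (fun x : ℝ => ((x : ℝ) : ℂ)) := Complex.ofRealCLM.differentiable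
    exact hG0.add ((h1.mul_const _).add (h2.mul_const _))
  refine ⟨⟨fun x => G x, hG.continuous.comp continuous_subtype_val⟩, G, hG, fun x => rfl, ?_, ?_, ?_⟩
  · change G ((0 : I) : ℝ) = f 0
    simp [G]
  · change G ((1 : I) : ℝ) = f 1
    simp [G]
  · intro x
    change ‖G x - f x‖ < ε
    have h0 : ‖f 0 - G0 0‖ < ε / 4 := by
      have := hnear 0
      rw [norm_sub_rev]
      simpa using this
    have h1 : ‖f 1 - G0 1‖ < ε / 4 := by
      have := hnear 1
      rw [norm_sub_rev]
      simpa using this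
    have hx0 : 0 ≤ (x : ℝ) := x.2.1
    have hx1 : (x : ℝ) ≤ 1 := x.2.2
    have e1 : G x - f x = (G0 x - f x) + (((1 - x : ℝ) : ℂ) * (f 0 - G0 0) +
        ((x : ℝ) : ℂ) * (f 1 - G0 1)) := by
      simp only [G]; ring
    rw [e1]
    have e2 : ‖((1 - x : ℝ) : ℂ) * (f 0 - G0 0)‖ ≤ 1 * (ε / 4) := by
      rw [norm_mul, Complex.norm_real, Real.norm_eq_abs, abs_of_nonneg (by linarith)]
      exact mul_le_mul (by linarith) h0.le (norm_nonneg _) zero_le_one
    have e3 : ‖((x : ℝ) : ℂ) * (f 1 - G0 1)‖ ≤ 1 * (ε / 4) := by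
      rw [norm_mul, Complex.norm_real, Real.norm_eq_abs, abs_of_nonneg hx0]
      exact mul_le_mul hx1 h1.le (norm_nonneg _) zero_le_one
    calc ‖(G0 x - f x) + (((1 - x : ℝ) : ℂ) * (f 0 - G0 0) + ((x : ℝ) : ℂ) * (f 1 - G0 1))‖
        ≤ ‖G0 x - f x‖ + (‖((1 - x : ℝ) : ℂ) * (f 0 - G0 0)‖ + ‖((x : ℝ) : ℂ) * (f 1 - G0 1)‖) :=
          (norm_add_le _ _).trans (add_le_add_right (norm_add_le _ _) _)
      _ < ε := by linarith [hnear x]

end Pool.Agent.H.MP_e11395_an
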