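import Pool.Agent.H.MP_e11395_an.C.Loop
import Pool.Agent.H.MP_e11395_an.C.PertB

/-!
# Part C of MP_e11395: loops can be made differentiable
-/

set_option autoImplicit false
set_option linter.unusedSectionVars false

open Filter Topology unitInterval

namespace Pool.Agent.H.MP_e11395_an

variable {N : Type} [Fintype N] [DecidableEq N]

/-- The set of invertible matrices, as families of entries, is open. -/
theorem PertC_isOpen : IsOpen {w : N → N → CI | IsUnit (Matrix.of w).det} :=
  Units.isOpen.preimage (Continuous.matrix_det (continuous_id (X := Matrix N N CI)))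

/-- A loop of invertible matrices can be joined to every loop which is entrywise close enough to
it, by the straight line. (Let `v = u + w`, `w` small entrywise, `w 0 = w 1 = 0`;
`det (ev x (u + τ w))` is a continuous function of `x`, `τ` and of the entries; the simplest
argument: `|det (ev x u)| ≥ m > 0` for all `x` by compactness, and the function
`(a, b) ↦ det (a + b)` is uniformly continuous on compact sets of matrices; or use the norm of
`Mt N ℂ` and `1 + τ u⁻¹ w`.) -/
theorem Loops_near {u : Matrix N N CI} (hu : u ∈ Loops N) :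
    ∃ δ > 0, ∀ v : Matrix N N CI, ev 0 v = 1 → ev 1 v = 1 →
      (∀ i j x, ‖v i j x - u i j x‖ < δ) → v ∈ Loops N ∧ JoinedIn (Loops N) u v := by
  obtain ⟨ε, hε, hball⟩ := Metric.isOpen_iff.1 (PertC_isOpen (N := N)) (fun i j => u i j)
    ((Matrix.isUnit_iff_isUnit_det _).1 hu.1)
  refine ⟨ε / 2, by positivity, fun v hv0 hv1 hv => ?_⟩
  have key : ∀ τ : I, (u + ((τ : ℝ) : ℂ) • (v - u)) ∈ Loops N := by
    intro τ
    refine ⟨?_, ?_, ?_⟩
    · rw [Matrix.isUnit_iff_isUnit_det]
      refine hball (a := fun i j => (u + ((τ : ℝ) : ℂ) • (v - u)) i j) ?_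
      rw [Metric.mem_ball]
      refine lt_of_le_of_lt ((dist_pi_le_iff (by positivity : (0 : ℝ) ≤ ε / 2)).2 fun i =>
        (dist_pi_le_iff (by positivity)).2 fun j =>
          (ContinuousMap.dist_le (by positivity)).2 fun x => ?_) (by linarith : ε / 2 < ε)
      rw [dist_eq_norm]
      have h1 : (u + ((τ : ℝ) : ℂ) • (v - u)) i j x - u i j x =
          ((τ : ℝ) : ℂ) * (v i j x - u i j x) := by
        simp only [Matrix.add_apply, Matrix.smul_apply, Matrix.sub_apply, ContinuousMap.add_apply,
          ContinuousMap.smul_apply, ContinuousMap.sub_apply, smul_eq_mul]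
        ring
      rw [h1, norm_mul, Complex.norm_real, Real.norm_of_nonneg τ.2.1]
      calc (τ : ℝ) * ‖v i j x - u i j x‖ ≤ 1 * ‖v i j x - u i j x‖ :=
            mul_le_mul_of_nonneg_right τ.2.2 (norm_nonneg _)
        _ ≤ ε / 2 := by rw [one_mul]; exact (hv i j x).le
    · have h1 : ev 0 (u + ((τ : ℝ) : ℂ) • (v - u)) = ev 0 u + ((τ : ℝ) : ℂ) • (ev 0 v - ev 0 u) :=
        rfl
      rw [h1, hu.2.1, hv0, sub_self, smul_zero, add_zero]
    · have h1 : ev 1 (u + ((τ : ℝ) : ℂ) • (v - u)) = ev 1 u + ((τ : ℝ) : ℂ) • (ev 1 v - ev 1 u) :=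
        rfl
      rw [h1, hu.2.2, hv1, sub_self, smul_zero, add_zero]
  have hend : u + (((1 : I) : ℝ) : ℂ) • (v - u) = v := by
    rw [show ((1 : I) : ℝ) = 1 from rfl, Complex.ofReal_one, one_smul]
    abel
  refine ⟨hend ▸ key 1, ⟨⟨⟨fun τ : I => u + ((τ : ℝ) : ℂ) • (v - u), ?_⟩, ?_, ?_⟩, key⟩⟩
  · exact continuous_const.add
      ((Complex.continuous_ofReal.comp continuous_subtype_val).smul continuous_const)
  · show u + (((0 : I) : ℝ) : ℂ) • (v - u) = u
    funext i j
    ext x
    have e : ((((0 : I) : ℝ) : ℂ)) = 0 := Complex.ofReal_zero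
    simp only [e, Matrix.add_apply, Matrix.smul_apply, Matrix.sub_apply, ContinuousMap.add_apply,
      ContinuousMap.smul_apply, smul_eq_mul, zero_mul, add_zero]
  · exact hend

/-- Every loop can be joined to a differentiable one (`Loops_near`, `exists_smooth_near`). -/
theorem exists_smooth_loop {u : Matrix N N CI} (hu : u ∈ Loops N) :
    ∃ (v : Matrix N N CI) (V : N → N → ℝ → ℂ), v ∈ Loops N ∧ JoinedIn (Loops N) u v ∧
      (∀ i j, Differentiable ℝ (V i j)) ∧ ∀ i j (x : I), v i j x = V i j x := by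
  obtain ⟨δ, hδ, h⟩ := Loops_near hu
  choose g G hG hgG h0 h1 hn using fun i j => exists_smooth_near (u i j) δ hδ
  have e0 : ev 0 (g : Matrix N N CI) = 1 := by
    rw [← hu.2.1]
    funext i j
    exact h0 i j
  have e1 : ev 1 (g : Matrix N N CI) = 1 := by
    rw [← hu.2.2]
    funext i j
    exact h1 i j
  obtain ⟨h2, h3⟩ := h g e0 e1 hn
  exact ⟨g, G, h2, h3, hG, hgG⟩

end Pool.Agent.H.MP_e11395_an
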