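import Pool.Agent.H.MP_e11395_an.C.GauA
import Pool.Agent.H.MP_e11395_an.C.PertA
import Pool.Agent.H.MP_e11395_an.C.PertC

/-!
# Part C of MP_e11395: a loop with a pivot
-/

set_option autoImplicit false
set_option linter.unusedSectionVars false

open Filter Topology unitInterval

namespace Pool.Agent.H.MP_e11395_an

variable {N : Type} [Fintype N] [DecidableEq N]

/-- The entries of the elementary matrix. -/
noncomputable def GauD_f (t : ℂ) (f : CI) : CI where
  toFun := fun x => t * (((x : ℝ) * (1 - (x : ℝ)) : ℝ) : ℂ) * (starRingEnd ℂ) (f x)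
  continuous_toFun := by
    refine Continuous.mul (Continuous.mul continuous_const ?_) ?_
    · refine Complex.continuous_ofReal.comp ?_
      exact continuous_subtype_val.mul (continuous_const.sub continuous_subtype_val)
    · exact Complex.continuous_conj.comp f.continuous

theorem GauD_f_apply (t : ℂ) (f : CI) (x : I) : GauD_f t f x =
    t * (((x : ℝ) * (1 - (x : ℝ)) : ℝ) : ℂ) * (starRingEnd ℂ) (f x) := rfl

/-- The elementary matrix `w`. -/
noncomputable def GauD_w (t : ℂ) (v : Matrix N N CI) (i₀ : N) : Matrix N N CI :=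
  fun i j => if i = i₀ ∧ j ≠ i₀ then GauD_f t (v j i₀) else 0

theorem GauD_w_sq (t : ℂ) (v : Matrix N N CI) (i₀ : N) :
    GauD_w t v i₀ * GauD_w t v i₀ = 0 := by
  funext i j
  rw [Matrix.mul_apply]
  refine Finset.sum_eq_zero fun k _ => ?_
  unfold GauD_w
  by_cases h : k = i₀
  · rw [if_neg (fun h1 => h1.2 h), zero_mul]
  · rw [if_neg (fun h1 : k = i₀ ∧ j ≠ i₀ => h h1.1), mul_zero]

theorem GauD_w_ev (t : ℂ) (v : Matrix N N CI) (i₀ : N) (x : I)
    (hx : (x : ℝ) * (1 - (x : ℝ)) = 0) : ev x (GauD_w t v i₀) = 0 := by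
  funext i j
  show (GauD_w t v i₀ i j) x = 0
  unfold GauD_w
  split_ifs
  · rw [GauD_f_apply, hx]; simp
  · rfl

/-- Every loop can be joined to a loop whose entry at `(i₀, i₀)` is nowhere zero. First make `u`
differentiable (`exists_smooth_loop`); the column `i₀` of `u` has no zero. Let
`ρ x = x (1 - x) ∑_{i ≠ i₀} |u i i₀ x|²` (differentiable, `|z|² = re² + im²`); `u i₀ i₀` and `ρ`
have no common zero (at `0` and `1`: `u i₀ i₀ = 1`), so `exists_general_position` gives `t` with
`u i₀ i₀ + t ρ` nowhere zero; this is the `(i₀, i₀)` entry of `(1 + w) u` where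
`w i₀ i = t x (1 - x) conj (u i i₀)` for `i ≠ i₀`, other entries `0` (`joined_one_add`). -/
theorem joined_pivot {u : Matrix N N CI} (hu : u ∈ Loops N) (i₀ : N) :
    ∃ v ∈ Loops N, JoinedIn (Loops N) u v ∧ ∀ x, v i₀ i₀ x ≠ 0 := by
  obtain ⟨v, V, hv, huv, hV, hvV⟩ := exists_smooth_loop hu
  have hρ : Differentiable ℝ (fun x : ℝ => x * (1 - x) *
      ∑ i ∈ Finset.univ.erase i₀, Complex.normSq (V i i₀ x)) := by
    refine Differentiable.mul (differentiable_id.mul
      ((differentiable_const 1).sub differentiable_id)) ?_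
    refine Differentiable.fun_sum fun i _ => ?_
    have e : (fun x => Complex.normSq (V i i₀ x)) =
        fun x => (V i i₀ x).re * (V i i₀ x).re + (V i i₀ x).im * (V i i₀ x).im := by
      funext x
      rw [Complex.normSq_apply]
    rw [e]
    have h1 : Differentiable ℝ fun x => (V i i₀ x).re :=
      Complex.reCLM.differentiable.comp (hV i i₀)
    have h2 : Differentiable ℝ fun x => (V i i₀ x).im :=
      Complex.imCLM.differentiable.comp (hV i i₀)
    exact (h1.mul h1).add (h2.mul h2)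
  have hcommon : ∀ x ∈ Set.Icc (0 : ℝ) 1, V i₀ i₀ x ≠ 0 ∨ x * (1 - x) *
      ∑ i ∈ Finset.univ.erase i₀, Complex.normSq (V i i₀ x) ≠ 0 := by
    intro x hx
    by_contra hcon
    rw [not_or, not_not, not_not] at hcon
    obtain ⟨h1, h2⟩ := hcon
    have h1' : v i₀ i₀ ⟨x, hx⟩ = 0 := by rw [hvV]; exact h1
    have hx0 : x ≠ 0 := by
      rintro rfl
      have h3 : v i₀ i₀ 0 = 1 := by
        have := congrFun (congrFun hv.2.1 i₀) i₀
        simpa [ev] using this
      have h4 : v i₀ i₀ 0 = 0 := h1'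
      rw [h3] at h4
      exact one_ne_zero h4
    have hx1 : 1 - x ≠ 0 := by
      intro h
      have hx1' : x = 1 := by linarith
      subst hx1'
      have h3 : v i₀ i₀ 1 = 1 := by
        have := congrFun (congrFun hv.2.2 i₀) i₀
        simpa [ev] using this
      have h4 : v i₀ i₀ 1 = 0 := h1'
      rw [h3] at h4
      exact one_ne_zero h4
    have h5 : ∑ i ∈ Finset.univ.erase i₀, Complex.normSq (V i i₀ x) = 0 := by
      rcases mul_eq_zero.1 h2 with h | h
      · rcases mul_eq_zero.1 h with h | h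
        · exact absurd h hx0
        · exact absurd h hx1
      · exact h
    rw [Finset.sum_eq_zero_iff_of_nonneg (fun i _ => Complex.normSq_nonneg _)] at h5
    have h6 : ∀ i, ev ⟨x, hx⟩ v i i₀ = 0 := by
      intro i
      by_cases hi : i = i₀
      · subst hi; exact h1'
      · have := h5 i (Finset.mem_erase.2 ⟨hi, Finset.mem_univ _⟩)
        rw [Complex.normSq_eq_zero] at this
        show v i i₀ ⟨x, hx⟩ = 0
        rw [hvV]; exact this
    have h7 := isUnit_iff_ev.1 hv.1 ⟨x, hx⟩
    rw [Matrix.isUnit_iff_isUnit_det, Matrix.det_eq_zero_of_column_eq_zero i₀ h6] at h7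
    exact not_isUnit_zero h7
  obtain ⟨t, ht⟩ := exists_general_position (V i₀ i₀) _ (hV i₀ i₀) hρ hcommon
  have hj := joined_one_add (GauD_w_sq t v i₀) (GauD_w_ev t v i₀ 0 (by simp))
    (GauD_w_ev t v i₀ 1 (by simp))
  have hj2 := joinedIn_mul (Loops_mul (N := N)) hj (JoinedIn.refl hv)
  rw [one_mul] at hj2
  refine ⟨(1 + GauD_w t v i₀) * v, hj2.mem.2, huv.trans hj2, fun x => ?_⟩
  have hx := ht x x.2
  have e : ((1 + GauD_w t v i₀) * v) i₀ i₀ x = V i₀ i₀ x + t * (((x : ℝ) * (1 - (x : ℝ)) *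
      ∑ i ∈ Finset.univ.erase i₀, Complex.normSq (V i i₀ x) : ℝ) : ℂ) := by
    rw [add_mul, one_mul]
    show v i₀ i₀ x + (GauD_w t v i₀ * v) i₀ i₀ x = _
    rw [hvV, Matrix.mul_apply, ContinuousMap.sum_apply]
    congr 1
    rw [← Finset.add_sum_erase _ _ (Finset.mem_univ i₀)]
    have e1 : (GauD_w t v i₀ i₀ i₀ * v i₀ i₀) x = 0 := by
      unfold GauD_w
      rw [if_neg (fun h => h.2 rfl), zero_mul]
      rfl
    rw [e1, zero_add]
    push_cast
    rw [Finset.mul_sum, Finset.mul_sum]
    refine Finset.sum_congr rfl fun i hi => ?_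
    have hi' : i ≠ i₀ := (Finset.mem_erase.1 hi).1
    have e3 : (GauD_w t v i₀ i₀ i * v i i₀) x = GauD_f t (v i i₀) x * v i i₀ x := by
      unfold GauD_w
      rw [if_pos ⟨rfl, hi'⟩]
      rfl
    have e4 : V i i₀ x = v i i₀ x := (hvV _ _ _).symm
    refine Eq.trans e3 ?_
    rw [GauD_f_apply, e4]
    have e2 : (starRingEnd ℂ) (v i i₀ x) * v i i₀ x = (Complex.normSq (v i i₀ x) : ℂ) := by
      rw [mul_comm, Complex.mul_conj]
    rw [← e2]
    push_cast
    ring
  rw [e]
  exact hx

end Pool.Agent.H.MP_e11395_an
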