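import Pool.Agent.H.MP_e11395_an.C.GauB

/-!
# Part C of MP_e11395: block matrices
-/

set_option autoImplicit false
set_option linter.unusedSectionVars false

open Filter Topology unitInterval

namespace Pool.Agent.H.MP_e11395_an

variable {N : Type} [Fintype N] [DecidableEq N]

theorem GauE_det_ne {u : Matrix N N CI} (hu : u ∈ Loops N) (x : I) : u.det x ≠ 0 := by
  have h := isUnit_iff_ev.1 hu.1 x
  rw [Matrix.isUnit_iff_isUnit_det, isUnit_iff_ne_zero, ← ev_det] at h
  exact h

theorem GauE_det_zero {u : Matrix N N CI} (hu : u ∈ Loops N) : u.det 0 = 1 := by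
  rw [ev_det, hu.2.1, Matrix.det_one]

theorem GauE_det_one {u : Matrix N N CI} (hu : u ∈ Loops N) : u.det 1 = 1 := by
  rw [ev_det, hu.2.2, Matrix.det_one]

theorem GauE_dg_continuous (i₀ : N) : Continuous fun c : CI => (dg i₀ c : Matrix N N CI) := by
  unfold dg
  refine Continuous.matrix_diagonal ?_
  refine continuous_pi fun i => ?_
  by_cases h : i = i₀
  · subst h
    simp only [Function.update_self]
    exact continuous_id
  · simp only [Function.update_of_ne h]
    exact continuous_const

theorem GauE_joined_map {X Y : Type} [TopologicalSpace X] [TopologicalSpace Y] {S : Set X}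
    {S' : Set Y} (f : X → Y) (hf : Continuous f) (hS : ∀ x ∈ S, f x ∈ S') {x y : X}
    (h : JoinedIn S x y) : JoinedIn S' (f x) (f y) := by
  obtain ⟨γ, hγ⟩ := h
  exact ⟨γ.map hf, fun t => hS _ (hγ t)⟩

/-- `DetOK` is invariant under joining (the path `τ ↦ dg i₀ (det (γ τ))`). -/
theorem DetOK_of_joined {u v : Matrix N N CI} (h : JoinedIn (Loops N) u v) (hv : DetOK v) :
    DetOK u := by
  intro i₀
  have h1 : JoinedIn (Loops N) (dg i₀ u.det) (dg i₀ v.det) :=
    GauE_joined_map (fun w : Matrix N N CI => dg i₀ w.det)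
      ((GauE_dg_continuous i₀).comp (continuous_id.matrix_det)) (fun w hw =>
        dg_mem_Loops i₀ (GauE_det_ne hw) (GauE_det_zero hw) (GauE_det_one hw)) h
  exact (h.trans (hv i₀)).trans h1.symm

/-- Reindexing. -/
theorem DetOK_reindex {M : Type} [Fintype M] [DecidableEq M] (e : N ≃ M) {u : Matrix N N CI}
    (h : DetOK (Matrix.reindex e e u)) : DetOK u := by
  intro i₀
  have h1 := GauE_joined_map (S' := Loops N)
    (fun w : Matrix M M CI => Matrix.reindex e.symm e.symm w)
    (continuous_id.matrix_submatrix _ _) (fun w hw => by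
      refine ⟨?_, ?_, ?_⟩
      · rw [Matrix.isUnit_iff_isUnit_det, Matrix.det_reindex_self,
          ← Matrix.isUnit_iff_isUnit_det]
        exact hw.1
      · change Matrix.reindex e.symm e.symm (ev 0 w) = 1
        rw [hw.2.1, Matrix.reindex_apply, Matrix.submatrix_one_equiv]
      · change Matrix.reindex e.symm e.symm (ev 1 w) = 1
        rw [hw.2.2, Matrix.reindex_apply, Matrix.submatrix_one_equiv]) (h (e i₀))
  rw [Matrix.det_reindex_self] at h1
  have h2 : Matrix.reindex e.symm e.symm (Matrix.reindex e e u) = u := by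
    ext i j
    simp
  have h3 : Matrix.reindex e.symm e.symm (dg (e i₀) u.det) = dg i₀ u.det := by
    unfold dg
    ext1 i j
    rw [Matrix.reindex_apply, Matrix.submatrix_apply]
    simp only [Equiv.symm_symm]
    by_cases hij : i = j
    · subst hij
      rw [Matrix.diagonal_apply_eq, Matrix.diagonal_apply_eq]
      by_cases hi : i = i₀
      · subst hi
        rw [Function.update_self, Function.update_self]
      · rw [Function.update_of_ne hi, Function.update_of_ne (fun h => hi (e.injective h))]
        rfl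
    · rw [Matrix.diagonal_apply_ne _ hij, Matrix.diagonal_apply_ne _ (fun h => hij (e.injective h))]
  simp only [h2, h3] at h1
  exact h1

theorem GauE_block_dg {M : Type} [Fintype M] [DecidableEq M] (c d : CI) (i₁ : M) :
    Matrix.fromBlocks (Matrix.of fun _ _ : Unit => c) 0 0 (dg i₁ d) =
      dg (Sum.inl () : Unit ⊕ M) c * dg (Sum.inr i₁) d := by
  unfold dg
  rw [Matrix.diagonal_mul_diagonal]
  have h1 : (Matrix.of fun _ _ : Unit => c) = Matrix.diagonal fun _ : Unit => c := by
    ext1 i j
    rw [Matrix.of_apply, Subsingleton.elim i j, Matrix.diagonal_apply_eq]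
  rw [h1, Matrix.fromBlocks_diagonal]
  congr 1
  funext i
  rcases i with i | i
  · simp
  · by_cases h : i = i₁
    · subst h
      simp
    · simp [h]

theorem GauE_block_mem {M : Type} [Fintype M] [DecidableEq M] {c : CI} (hc : ∀ x, c x ≠ 0)
    (h0 : c 0 = 1) (h1 : c 1 = 1) {w : Matrix M M CI} (hw : w ∈ Loops M) :
    Matrix.fromBlocks (Matrix.of fun _ _ : Unit => c) 0 0 w ∈ Loops (Unit ⊕ M) := by
  have he : ∀ x : I, c x = 1 → ev x w = 1 →
      ev x (Matrix.fromBlocks (Matrix.of fun _ _ : Unit => c) 0 0 w) = 1 := by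
    intro x hx hwx
    rw [← Matrix.fromBlocks_one]
    funext i j
    rcases i with i | i <;> rcases j with j | j
    · change c x = (1 : Matrix Unit Unit ℂ) i j
      rw [hx, Subsingleton.elim i j, Matrix.one_apply_eq]
    · rfl
    · rfl
    · change ev x w i j = (1 : Matrix M M ℂ) i j
      rw [hwx]
  refine ⟨?_, he 0 h0 hw.2.1, he 1 h1 hw.2.2⟩
  rw [Matrix.isUnit_iff_isUnit_det, Matrix.det_fromBlocks_zero₂₁, Matrix.det_unique]
  refine IsUnit.mul ?_ ((Matrix.isUnit_iff_isUnit_det _).1 hw.1)
  rw [Matrix.of_apply, ContinuousMap.isUnit_iff_forall_ne_zero]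
  exact hc

/-- Block matrices: if `u = fromBlocks (c) 0 0 u'` (index set `Unit ⊕ M`) with a scalar loop `c`
and `DetOK u'` then `DetOK u`: `u' ~ dg i₁ (det u')`, so
`u ~ dg (inl ()) c * dg (inr i₁) (det u') ~ dg (inl ()) (c det u')` (`joined_dg_dg`; if `M` is
empty then `u = dg (inl ()) c`), and `dg` at different places are joined by `joined_dg_dg` with
`a = 1`. -/
theorem DetOK_block {M : Type} [Fintype M] [DecidableEq M] {c : CI} (hc : ∀ x, c x ≠ 0)
    (h0 : c 0 = 1) (h1 : c 1 = 1) {u' : Matrix M M CI} (hu' : u' ∈ Loops M) (h : DetOK u') :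
    DetOK (Matrix.fromBlocks (Matrix.of fun _ _ : Unit => c) 0 0 u') := by
  have hdet : (Matrix.fromBlocks (Matrix.of fun _ _ : Unit => c) 0 0 u').det = c * u'.det := by
    rw [Matrix.det_fromBlocks_zero₂₁, Matrix.det_unique, Matrix.of_apply]
  have hmem := GauE_block_mem hc h0 h1 hu'
  have hd : ∀ x, (c * u'.det) x ≠ 0 := fun x => by
    rw [ContinuousMap.mul_apply]
    exact mul_ne_zero (hc x) (GauE_det_ne hu' x)
  have hd0 : (c * u'.det) 0 = 1 := by
    rw [ContinuousMap.mul_apply, h0, GauE_det_zero hu', one_mul]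
  have hd1 : (c * u'.det) 1 = 1 := by
    rw [ContinuousMap.mul_apply, h1, GauE_det_one hu', one_mul]
  -- the place `inl ()`
  have key : JoinedIn (Loops (Unit ⊕ M))
      (Matrix.fromBlocks (Matrix.of fun _ _ : Unit => c) 0 0 u')
      (dg (Sum.inl () : Unit ⊕ M) (c * u'.det)) := by
    rcases isEmpty_or_nonempty M with hM | ⟨⟨i₁⟩⟩
    · have e1 : Matrix.fromBlocks (Matrix.of fun _ _ : Unit => c) 0 0 u' =
          dg (Sum.inl () : Unit ⊕ M) (c * u'.det) := by
        rw [Matrix.det_isEmpty, mul_one]
        unfold dg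
        ext1 i j
        rcases i with i | i
        · rcases j with j | j
          · rw [Matrix.fromBlocks_apply₁₁, Matrix.of_apply, Subsingleton.elim i j,
              Matrix.diagonal_apply_eq, Subsingleton.elim j (), Function.update_self]
          · exact (hM.false j).elim
        · exact (hM.false i).elim
      rw [← e1]
      exact JoinedIn.refl hmem
    · have a1 : JoinedIn (Loops (Unit ⊕ M))
          (Matrix.fromBlocks (Matrix.of fun _ _ : Unit => c) 0 0 u')
          (Matrix.fromBlocks (Matrix.of fun _ _ : Unit => c) 0 0 (dg i₁ u'.det)) :=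
        GauE_joined_map (fun w : Matrix M M CI =>
          Matrix.fromBlocks (Matrix.of fun _ _ : Unit => c) 0 0 w)
          (Continuous.matrix_fromBlocks continuous_const continuous_const continuous_const
            continuous_id) (fun w hw => GauE_block_mem hc h0 h1 hw) (h i₁)
      rw [GauE_block_dg] at a1
      exact a1.trans (joined_dg_dg (by simp) hc h0 h1 (GauE_det_ne hu') (GauE_det_zero hu')
        (GauE_det_one hu'))
  intro i₀
  rw [hdet]
  rcases i₀ with i | i
  · exact key
  · refine key.trans ?_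
    have a2 := joined_dg_dg (i₀ := (Sum.inr i : Unit ⊕ M)) (i₁ := Sum.inl ()) (by simp)
      (a := 1) (b := c * u'.det) (fun x => by simp) (by simp) (by simp) hd hd0 hd1
    rw [dg_one, one_mul, one_mul] at a2
    exact a2

end Pool.Agent.H.MP_e11395_an
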