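import Pool.Agent.H.MP_e11395_an.C.GauC
import Pool.Agent.H.MP_e11395_an.C.GauD
import Pool.Agent.H.MP_e11395_an.C.GauE

/-!
# Part C of MP_e11395: a loop of invertible matrices is determined by its determinant
-/

set_option autoImplicit false
set_option linter.unusedSectionVars false

open Filter Topology unitInterval

namespace Pool.Agent.H.MP_e11395_an

variable {N : Type} [Fintype N] [DecidableEq N]

/-- Splitting off one index. -/
def GauF_e (i₀ : N) : N ≃ Unit ⊕ {i : N // i ≠ i₀} where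
  toFun i := if h : i = i₀ then Sum.inl () else Sum.inr ⟨i, h⟩
  invFun := Sum.elim (fun _ => i₀) Subtype.val
  left_inv i := by
    by_cases h : i = i₀
    · simp [h]
    · simp [h]
  right_inv := by
    rintro (x | ⟨i, hi⟩)
    · simp
    · simp [hi]

theorem GauF_reindex (i₀ : N) {w : Matrix N N CI} (h : ∀ i, i ≠ i₀ → w i₀ i = 0 ∧ w i i₀ = 0) :
    Matrix.reindex (GauF_e i₀) (GauF_e i₀) w =
      Matrix.fromBlocks (Matrix.of fun _ _ : Unit => w i₀ i₀) 0 0
        (w.submatrix Subtype.val Subtype.val) := by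
  funext a b
  rcases a with a | ⟨i, hi⟩ <;> rcases b with b | ⟨j, hj⟩
  · rfl
  · exact (h j hj).1
  · exact (h i hi).2
  · rfl

theorem GauF_loops (i₀ : N) {w : Matrix N N CI} (hw : w ∈ Loops N)
    (h : ∀ i, i ≠ i₀ → w i₀ i = 0 ∧ w i i₀ = 0) :
    w.submatrix (Subtype.val : {i : N // i ≠ i₀} → N) Subtype.val ∈ Loops {i : N // i ≠ i₀} := by
  obtain ⟨hu, h0, h1⟩ := hw
  have hsub : ∀ x : I, ev x w = 1 →
      ev x (w.submatrix (Subtype.val : {i : N // i ≠ i₀} → N)
        (Subtype.val : {i : N // i ≠ i₀} → N)) = 1 := by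
    intro x hx
    funext i j
    have h2 : ev x w i.1 j.1 = (1 : Matrix N N ℂ) i.1 j.1 := by rw [hx]
    change ev x w i.1 j.1 = _
    rw [h2, Matrix.one_apply, Matrix.one_apply]
    by_cases hij : i = j
    · simp [hij]
    · rw [if_neg hij, if_neg fun h => hij (Subtype.ext h)]
  refine ⟨?_, hsub 0 h0, hsub 1 h1⟩
  rw [Matrix.isUnit_iff_isUnit_det] at hu ⊢
  have h3 : w.det = w i₀ i₀ *
      (w.submatrix (Subtype.val : {i : N // i ≠ i₀} → N) Subtype.val).det := by
    rw [← Matrix.det_reindex_self (GauF_e i₀) w, GauF_reindex i₀ h,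
      Matrix.det_fromBlocks_zero₂₁, Matrix.det_unique]
    rfl
  rw [h3] at hu
  exact isUnit_of_mul_isUnit_right hu

theorem GauF_aux (n : ℕ) : ∀ (N : Type) [Fintype N] [DecidableEq N], Fintype.card N = n →
    ∀ u ∈ Loops N, DetOK u := by
  induction n with
  | zero =>
    intro N _ _ hN u _ i₀
    exact absurd hN (Fintype.card_pos_iff.2 ⟨i₀⟩).ne'
  | succ n ih =>
    intro N _ _ hN u hu i₁
    obtain ⟨v, hv, huv, hv0⟩ := joined_pivot hu i₁
    obtain ⟨w, hw, hvw, -, hw0, hwz⟩ := joined_block hv i₁ hv0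
    refine DetOK_of_joined (huv.trans hvw) (DetOK_reindex (GauF_e i₁) ?_) i₁
    rw [GauF_reindex i₁ hwz]
    have hc : ∀ x : I, ev x w = 1 → w i₁ i₁ x = 1 := by
      intro x hx
      have h2 : ev x w i₁ i₁ = (1 : Matrix N N ℂ) i₁ i₁ := by rw [hx]
      rw [Matrix.one_apply_eq] at h2
      exact h2
    refine DetOK_block (fun x => ?_) (hc 0 hw.2.1) (hc 1 hw.2.2) (GauF_loops i₁ hw hwz)
      (ih {i : N // i ≠ i₁} ?_ _ (GauF_loops i₁ hw hwz))
    · rw [hw0]
      exact hv0 x
    · have h4 := Fintype.card_congr (GauF_e i₁)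
      rw [Fintype.card_sum, Fintype.card_unit, hN] at h4
      omega

/-- Every loop of invertible matrices can be joined, through loops, to `diag(det, 1, ..., 1)`.
Induction on the cardinality of `N` (reindex by `Unit ⊕ M`): `joined_pivot`, `joined_block`,
`DetOK_block`. -/
theorem detOK_of_loop {u : Matrix N N CI} (hu : u ∈ Loops N) : DetOK u :=
  GauF_aux _ N rfl u hu

end Pool.Agent.H.MP_e11395_an
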