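import Pool.Agent.H.MP_e11395_an.C.Path
import Pool.Agent.H.MP_e11395_an.C.BanB

/-!
# Part C of MP_e11395: idempotent matrices of functions are similar to constant ones
-/

set_option autoImplicit false
set_option linter.unusedSectionVars false

open Filter Topology unitInterval

namespace Pool.Agent.H.MP_e11395_an

variable {N : Type} [Fintype N] [DecidableEq N]

/-- the path `s ↦ (x ↦ F (s x))` -/
noncomputable def IdeA_path (F : Matrix N N CI) (s : I) : Matrix N N CI :=
  fun i j => ⟨fun x => F i j (s * x), by fun_prop⟩

theorem IdeA_ev (F : Matrix N N CI) (s x : I) : ev x (IdeA_path F s) = ev (s * x) F := rfl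

theorem IdeA_cont (F : Matrix N N CI) : Continuous (IdeA_path F) := by
  refine continuous_pi fun i => continuous_pi fun j => ?_
  exact (ContinuousMap.curry ⟨fun z : I × I => F i j (z.1 * z.2), by fun_prop⟩).continuous

/-- An idempotent matrix of functions is similar to a constant one: apply `similar_of_path` to the
path `s ↦ (x ↦ F (s x))`, in the Banach algebra `Matrix N N C(I, ℂ)`
(norm: `Matrix.linftyOpNormedRing`, to be introduced with `letI`; its topology is the entrywise
one). -/
theorem idem_const {F : Matrix N N CI} (hF : F * F = F) :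
    ∃ w : Matrix N N CI, IsUnit w ∧ F * w = w * cstM (ev 0 F) := by
  let inst : NormedRing (Matrix N N CI) := Matrix.linftyOpNormedRing
  have hc : @CompleteSpace (Matrix N N CI)
      inst.toMetricSpace.toPseudoMetricSpace.toUniformSpace :=
    (inferInstance : CompleteSpace (N → N → CI))
  obtain ⟨w, hw⟩ := @similar_of_path (Matrix N N CI) inst hc (IdeA_path F) (IdeA_cont F) (fun s => by
    refine ev_ext fun x => ?_
    rw [ev_mul, IdeA_ev, ← ev_mul, hF])
  refine ⟨w, w.isUnit, ?_⟩
  have h1 : IdeA_path F 1 = F := ev_ext fun x => by rw [IdeA_ev, one_mul]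
  have h0 : IdeA_path F 0 = cstM (ev 0 F) := ev_ext fun x => by rw [IdeA_ev, zero_mul, ev_cst]
  rw [h1, h0] at hw
  exact hw

end Pool.Agent.H.MP_e11395_an
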