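import Pool.Agent.H.MP_e11395_an.C.IdeA
import Pool.Agent.H.MP_e11395_an.C.GLA

/-!
# Part C of MP_e11395: lifting of factorisations
-/

set_option autoImplicit false
set_option linter.unusedSectionVars false

open Filter Topology unitInterval

namespace Pool.Agent.H.MP_e11395_an

variable {N : Type} [Fintype N] [DecidableEq N]

/-- Lifting: factorisations at the ends extend to the whole interval.
`X̃ = w * cstM (w(0)⁻¹ X₀)`, `Ỹ = cstM (Y₀ w(0)) * w⁻¹` (`w(0)` commutes with `F(0)`) satisfy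
`X̃ Ỹ = F`, `Ỹ X̃ = 1`, `X̃(0) = X₀`. `c := Ỹ(1) X₁` is invertible with inverse `Y₁ X̃(1)`; let `γ`
be a path from `1` to `c` (`gl_path`). Then `X = X̃ γ`, `Y = γ⁻¹ Ỹ`;
`X(1) = X̃(1) Ỹ(1) X₁ = F(1) X₁ = X₁`, `Y(1) = Y₁ X̃(1) Ỹ(1) = Y₁ F(1) = Y₁`. -/
theorem idem_lift {M : Type} [Fintype M] [DecidableEq M] {F : Matrix N N CI} (hF : F * F = F)
    {X₀ X₁ : Matrix N M ℂ} {Y₀ Y₁ : Matrix M N ℂ} (h0 : X₀ * Y₀ = ev 0 F) (h0' : Y₀ * X₀ = 1)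
    (h1 : X₁ * Y₁ = ev 1 F) (h1' : Y₁ * X₁ = 1) :
    ∃ (X : Matrix N M CI) (Y : Matrix M N CI), X * Y = F ∧ Y * X = 1 ∧ ev 0 X = X₀ ∧
      ev 0 Y = Y₀ ∧ ev 1 X = X₁ ∧ ev 1 Y = Y₁ := by
  obtain ⟨w, hw, hFw⟩ := idem_const hF
  have hwx : ∀ x, IsUnit (ev x w) := isUnit_iff_ev.1 hw
  have hw1 : ∀ x, ev x w * (ev x w)⁻¹ = 1 := fun x =>
    Matrix.mul_nonsing_inv _ ((Matrix.isUnit_iff_isUnit_det _).1 (hwx x))
  have hw2 : ∀ x, (ev x w)⁻¹ * ev x w = 1 := fun x =>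
    Matrix.nonsing_inv_mul _ ((Matrix.isUnit_iff_isUnit_det _).1 (hwx x))
  have hc : ∀ x, ev x F * ev x w = ev x w * ev 0 F := fun x => by
    have h := congrArg (ev x) hFw
    rwa [ev_mul, ev_mul, ev_cst] at h
  -- the values of the first lift
  let Xt : Matrix N M CI := w * cstM ((ev 0 w)⁻¹ * X₀)
  let Yt : Matrix M N CI := cstM (Y₀ * ev 0 w) * w⁻¹
  have hXt : ∀ x, ev x Xt = ev x w * ((ev 0 w)⁻¹ * X₀) := fun x => by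
    change ev x (w * cstM ((ev 0 w)⁻¹ * X₀)) = _
    rw [ev_mul, ev_cst]
  have hYt : ∀ x, ev x Yt = Y₀ * ev 0 w * (ev x w)⁻¹ := fun x => by
    change ev x (cstM (Y₀ * ev 0 w) * w⁻¹) = _
    rw [ev_mul, ev_cst, ev_inv hw]
  have hXY : ∀ x, ev x Xt * ev x Yt = ev x F := fun x => by
    rw [hXt, hYt]
    have e1 : ev x w * ((ev 0 w)⁻¹ * X₀) * (Y₀ * ev 0 w * (ev x w)⁻¹) =
        ev x w * ((ev 0 w)⁻¹ * ((X₀ * Y₀) * ev 0 w)) * (ev x w)⁻¹ := by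
      simp only [Matrix.mul_assoc]
    rw [e1, h0, hc 0, ← Matrix.mul_assoc (ev 0 w)⁻¹, hw2, Matrix.one_mul, ← hc x,
      Matrix.mul_assoc, hw1, Matrix.mul_one]
  have hYX : ∀ x, ev x Yt * ev x Xt = 1 := fun x => by
    rw [hXt, hYt]
    have e1 : Y₀ * ev 0 w * (ev x w)⁻¹ * (ev x w * ((ev 0 w)⁻¹ * X₀)) =
        Y₀ * (ev 0 w * (((ev x w)⁻¹ * ev x w) * ((ev 0 w)⁻¹ * X₀))) := by
      simp only [Matrix.mul_assoc]
    rw [e1, hw2, Matrix.one_mul, ← Matrix.mul_assoc (ev 0 w), hw1, Matrix.one_mul, h0']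
  have hcc : (ev 1 Yt * X₁) * (Y₁ * ev 1 Xt) = 1 := by
    have e1 : (ev 1 Yt * X₁) * (Y₁ * ev 1 Xt) = ev 1 Yt * ((X₁ * Y₁) * ev 1 Xt) := by
      simp only [Matrix.mul_assoc]
    rw [e1, h1, ← hXY 1, Matrix.mul_assoc, hYX, Matrix.mul_one, hYX]
  have hcc' : (Y₁ * ev 1 Xt) * (ev 1 Yt * X₁) = 1 := mul_eq_one_comm.1 hcc
  obtain ⟨γ, hγ, hγ0, hγ1, hγu⟩ := gl_path (IsUnit.of_mul_eq_one _ hcc)
  have hG : IsUnit (mk γ hγ) := isUnit_iff_ev.2 fun x => by rw [ev_mk]; exact hγu x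
  have hg1 : ∀ x, γ x * (γ x)⁻¹ = 1 := fun x =>
    Matrix.mul_nonsing_inv _ ((Matrix.isUnit_iff_isUnit_det _).1 (hγu x))
  have hg2 : ∀ x, (γ x)⁻¹ * γ x = 1 := fun x =>
    Matrix.nonsing_inv_mul _ ((Matrix.isUnit_iff_isUnit_det _).1 (hγu x))
  have hX : ∀ x, ev x (Xt * mk γ hγ) = ev x Xt * γ x := fun x => by rw [ev_mul, ev_mk]
  have hY : ∀ x, ev x ((mk γ hγ)⁻¹ * Yt) = (γ x)⁻¹ * ev x Yt := fun x => by
    rw [ev_mul, ev_inv hG, ev_mk]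
  refine ⟨Xt * mk γ hγ, (mk γ hγ)⁻¹ * Yt, ev_ext fun x => ?_, ev_ext fun x => ?_, ?_, ?_, ?_, ?_⟩
  · have e1 : ev x Xt * γ x * ((γ x)⁻¹ * ev x Yt) = ev x Xt * ((γ x * (γ x)⁻¹) * ev x Yt) := by
      simp only [Matrix.mul_assoc]
    rw [ev_mul, hX, hY, e1, hg1, Matrix.one_mul, hXY]
  · have e1 : (γ x)⁻¹ * ev x Yt * (ev x Xt * γ x) = (γ x)⁻¹ * ((ev x Yt * ev x Xt) * γ x) := by
      simp only [Matrix.mul_assoc]
    rw [ev_mul, hX, hY, e1, hYX, Matrix.one_mul, hg2, ev_one]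
  · rw [hX, hγ0, Matrix.mul_one, hXt, ← Matrix.mul_assoc, hw1, Matrix.one_mul]
  · rw [hY, hγ0, inv_one, Matrix.one_mul, hYt, Matrix.mul_assoc, hw1, Matrix.mul_one]
  · rw [hX, hγ1, ← Matrix.mul_assoc, hXY, ← h1, Matrix.mul_assoc, h1', Matrix.mul_one]
  · rw [hY, hγ1, Matrix.inv_eq_left_inv hcc', Matrix.mul_assoc, hXY, ← h1, ← Matrix.mul_assoc, h1',
      Matrix.one_mul]

end Pool.Agent.H.MP_e11395_an
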