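import Pool.Agent.H.MP_e11395_an.Defs

/-!
# Part C of MP_e11395: generalities on `K0` (idempotent matrices)
-/

set_option autoImplicit false

namespace Pool.Agent.H.MP_e11395_an

variable {A : Type} [Ring A]

/-- The unit of `M_j(A)`. -/
def Idem.oneN (A : Type) [Ring A] (j : ℕ) : Idem A := ⟨j, 1, one_mul 1⟩

/-- Equivalent idempotents have the same class (the difference is one of the relations). -/
theorem K0.mk_eq_of_equiv {p q : Idem A} (h : p.Equiv q) : K0.mk p = K0.mk q := by
  refine QuotientAddGroup.eq_iff_sub_mem.2 (AddSubgroup.subset_closure (Or.inl ⟨p, q, h, rfl⟩))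

/-- The class of a sum. -/
theorem K0.mk_sum (p q : Idem A) : K0.mk (p.sum q) = K0.mk p + K0.mk q := by
  have h : FreeAbelianGroup.of (p.sum q) - (FreeAbelianGroup.of p + FreeAbelianGroup.of q) ∈
      AddSubgroup.closure (K0Rel A) := by
    rw [← sub_sub]
    exact AddSubgroup.subset_closure (Or.inr ⟨p, q, rfl⟩)
  exact QuotientAddGroup.eq_iff_sub_mem.2 h

theorem K0.K0_sum_one (j : ℕ) : (Idem.oneN A j).sum (Idem.one A) = Idem.oneN A (j + 1) := by
  have h : Matrix.reindex finSumFinEquiv finSumFinEquiv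
      (Matrix.fromBlocks (1 : Matrix (Fin j) (Fin j) A) 0 0 (1 : Matrix (Fin 1) (Fin 1) A)) =
      (1 : Matrix (Fin (j + 1)) (Fin (j + 1)) A) := by
    rw [Matrix.fromBlocks_one, Matrix.reindex_apply, Matrix.submatrix_one_equiv]
  unfold Idem.sum Idem.oneN Idem.one
  congr 1

/-- `[1_j] = j [1]`: induction on `j`; `1_0 ⊕ 1_0` and `1_0` are equivalent (matrices of size
`0 × 0`), so `[1_0] = 0`; and `1_j ⊕ 1` is equivalent to `1_{j+1}` by the rectangular identity
matrices (`finSumFinEquiv`). -/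
theorem K0.mk_oneN (j : ℕ) : K0.mk (Idem.oneN A j) = j • K0.mk (Idem.one A) := by
  induction j with
  | zero =>
    have h1 : ((Idem.oneN A 0).sum (Idem.oneN A 0)).Equiv (Idem.oneN A 0) := by
      refine ⟨0, 0, ?_, ?_⟩
      · ext i _
        exact absurd i.2 (Nat.not_lt_zero _)
      · ext i _
        exact absurd i.2 (Nat.not_lt_zero _)
    have h2 := K0.mk_eq_of_equiv h1
    rw [K0.mk_sum] at h2
    rw [zero_smul]
    exact add_eq_right.1 h2
  | succ j ih =>
    rw [← K0.K0_sum_one, K0.mk_sum, ih, succ_nsmul]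

/-- A tracial additive map induces a homomorphism on `K0`: `p ↦ ∑ i, τ (p_ii)` is additive for
block sums and invariant under equivalence
(`∑ i, τ ((x y)_ii) = ∑ i, ∑ k, τ (x_ik y_ki) = ∑ k, τ ((y x)_kk)`). -/
theorem K0.exists_trace (τ : A →+ ℂ) (hτ : ∀ x y, τ (x * y) = τ (y * x)) :
    ∃ t : K0 A →+ ℂ, ∀ p : Idem A, t (K0.mk p) = ∑ i, τ (p.e i i) := by
  set T : FreeAbelianGroup (Idem A) →+ ℂ :=
    FreeAbelianGroup.lift (fun p : Idem A => ∑ i, τ (p.e i i)) with hT
  have hker : AddSubgroup.closure (K0Rel A) ≤ T.ker := by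
    rw [AddSubgroup.closure_le]
    rintro z (⟨p, q, ⟨x, y, hxy, hyx⟩, rfl⟩ | ⟨p, q, rfl⟩)
    · rw [SetLike.mem_coe, AddMonoidHom.mem_ker, map_sub, hT, FreeAbelianGroup.lift_apply_of,
        FreeAbelianGroup.lift_apply_of, sub_eq_zero, ← hxy, ← hyx]
      simp only [Matrix.mul_apply, map_sum]
      rw [Finset.sum_comm]
      refine Finset.sum_congr rfl fun k _ => Finset.sum_congr rfl fun i _ => ?_
      exact hτ _ _
    · rw [SetLike.mem_coe, AddMonoidHom.mem_ker, map_sub, map_sub, hT,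
        FreeAbelianGroup.lift_apply_of, FreeAbelianGroup.lift_apply_of,
        FreeAbelianGroup.lift_apply_of]
      have h : ∑ i, τ ((p.sum q).e i i) = ∑ i, τ (p.e i i) + ∑ i, τ (q.e i i) := by
        show ∑ i : Fin (p.n + q.n), τ (Matrix.reindex finSumFinEquiv finSumFinEquiv
          (Matrix.fromBlocks p.e 0 0 q.e) i i) = _
        rw [← finSumFinEquiv.sum_comp, Fintype.sum_sum_type]
        simp
      rw [h]
      ring
  refine ⟨QuotientAddGroup.lift _ T hker, fun p => ?_⟩
  show T (FreeAbelianGroup.of p) = _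
  rw [hT, FreeAbelianGroup.lift_apply_of]

end Pool.Agent.H.MP_e11395_an
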