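import Pool.Agent.H.MP_e11395_an.C.K0

/-!
# Part C of MP_e11395: computation of `K0`
-/

set_option autoImplicit false
set_option linter.unusedSectionVars false

namespace Pool.Agent.H.MP_e11395_an

variable {A : Type} [Ring A]

/-- If every idempotent matrix is equivalent to some `1_j`, then every class is a multiple
of `[1]`. -/
theorem K0Main_surj (h : ∀ p : Idem A, ∃ j, p.Equiv (Idem.oneN A j)) (x : K0 A) :
    ∃ n : ℤ, n • K0.mk (Idem.one A) = x := by
  have h1 : ∀ p : Idem A, ∃ n : ℤ, n • K0.mk (Idem.one A) = K0.mk p := by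
    intro p
    obtain ⟨j, hj⟩ := h p
    refine ⟨(j : ℤ), ?_⟩
    rw [K0.mk_eq_of_equiv hj, K0.mk_oneN, natCast_zsmul]
  have h2 : ∀ z : FreeAbelianGroup (Idem A), ∃ n : ℤ,
      n • K0.mk (Idem.one A) = (QuotientAddGroup.mk z : K0 A) := by
    intro z
    induction z using FreeAbelianGroup.induction_on with
    | zero => exact ⟨0, by rw [zero_smul]; rfl⟩
    | of p => exact h1 p
    | neg p hp =>
      obtain ⟨n, hn⟩ := hp
      exact ⟨-n, by rw [neg_smul, hn]; rfl⟩
    | add y z hy hz =>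
      obtain ⟨n, hn⟩ := hy
      obtain ⟨m, hm⟩ := hz
      exact ⟨n + m, by rw [add_smul, hn, hm]; rfl⟩
  obtain ⟨z, rfl⟩ := QuotientAddGroup.mk_surjective x
  exact h2 z

/-- If every idempotent matrix is equivalent to some `1_j` and `A` has a trace, then
`K0 A = ℤ [1]`. The map `ℤ → K0 A`, `n ↦ n [1]` is surjective (the classes `[p] = j [1]` generate
`K0 A`: `K0 A` is a quotient of the free abelian group) and injective (apply the trace,
`t (n [1]) = n`). -/
theorem K0.main (h : ∀ p : Idem A, ∃ j, p.Equiv (Idem.oneN A j)) (τ : A →+ ℂ)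
    (hτ : ∀ x y, τ (x * y) = τ (y * x)) (h1 : τ 1 = 1) :
    ∃ φ : K0 A ≃+ ℤ, φ (K0.mk (Idem.one A)) = 1 := by
  obtain ⟨t, ht⟩ := K0.exists_trace τ hτ
  have ht1 : t (K0.mk (Idem.one A)) = 1 := by
    rw [ht]
    simp [Idem.one, h1]
  have hinj : Function.Injective (zmultiplesHom (K0 A) (K0.mk (Idem.one A))) := by
    rw [injective_iff_map_eq_zero]
    intro n hn
    rw [zmultiplesHom_apply] at hn
    have h2 := congrArg t hn
    rw [map_zsmul, ht1, map_zero, zsmul_eq_mul, mul_one] at h2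
    exact_mod_cast h2
  have hsurj : Function.Surjective (zmultiplesHom (K0 A) (K0.mk (Idem.one A))) := by
    intro x
    obtain ⟨n, hn⟩ := K0Main_surj h x
    exact ⟨n, by rw [zmultiplesHom_apply]; exact hn⟩
  refine ⟨(AddEquiv.ofBijective _ ⟨hinj, hsurj⟩).symm, ?_⟩
  rw [AddEquiv.symm_apply_eq]
  rw [AddEquiv.ofBijective_apply, zmultiplesHom_apply, one_smul]

end Pool.Agent.H.MP_e11395_an
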