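import Pool.Agent.H.MP_e11395_an.C.MtMat

/-!
# Part C of MP_e11395: idempotents and invertible matrices over a limit
-/

set_option autoImplicit false

open Filter Topology

namespace Pool.Agent.H.MP_e11395_an

variable {A : Type} [CStarAlgebra A] {An : ℕ → Type} [∀ n, CStarAlgebra (An n)]
  (R : ∀ n, An n →⋆ₐ[ℂ] A)

theorem LimA_fin (hmono : ∀ n m, n ≤ m → ∀ f, ∃ g, R m g = R n f)
    (hdense : ∀ a : A, ∀ ε : ℝ, 0 < ε → ∃ n f, ‖R n f - a‖ < ε)
    {τ : Type} [Fintype τ] (a : τ → A) (ε : ℝ) (hε : 0 < ε) :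
    ∃ n, ∃ y : τ → An n, ∀ t, ‖R n (y t) - a t‖ < ε := by
  choose n f hf using fun t => hdense (a t) ε hε
  choose g hg using fun t => hmono (n t) (Finset.univ.sup n) (Finset.le_sup (Finset.mem_univ t)) (f t)
  exact ⟨Finset.univ.sup n, g, fun t => by rw [hg]; exact hf t⟩

/-- Finitely many elements of `A` (here the entries of a matrix) are approximated by elements of
one `An n`: choose approximations of each entry in some `An n_ij` and take the maximum of the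
`n_ij` (`hmono`). -/
theorem limit_approx (hmono : ∀ n m, n ≤ m → ∀ f, ∃ g, R m g = R n f)
    (hdense : ∀ a : A, ∀ ε : ℝ, 0 < ε → ∃ n f, ‖R n f - a‖ < ε)
    {s : ℕ} (x : Mt (Fin s) A) (ε : ℝ) (hε : 0 < ε) :
    ∃ n, ∃ y : Mt (Fin s) (An n), ‖Mt.map (R n) y - x‖ < ε := by
  have hδ : 0 < ε / ((Fintype.card (Fin s) : ℝ) * Fintype.card (Fin s) + 1) := by positivity
  obtain ⟨n, y, hy⟩ := LimA_fin R hmono hdense (fun t : Fin s × Fin s => x t.1 t.2) _ hδ
  refine ⟨n, Mt.of fun i j => y (i, j), Mt.norm_lt_of_entry hε fun i j => ?_⟩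
  rw [Mt.sub_apply, Mt.map_apply, Mt.of_apply]
  exact (hy (i, j)).le

/-- The same for two matrices and one `n`. -/
theorem limit_approx₂ (hmono : ∀ n m, n ≤ m → ∀ f, ∃ g, R m g = R n f)
    (hdense : ∀ a : A, ∀ ε : ℝ, 0 < ε → ∃ n f, ‖R n f - a‖ < ε)
    {s : ℕ} (x x' : Mt (Fin s) A) (ε : ℝ) (hε : 0 < ε) :
    ∃ n, ∃ y y' : Mt (Fin s) (An n), ‖Mt.map (R n) y - x‖ < ε ∧ ‖Mt.map (R n) y' - x'‖ < ε := by
  have hδ : 0 < ε / ((Fintype.card (Fin s) : ℝ) * Fintype.card (Fin s) + 1) := by positivity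
  obtain ⟨n, y, hy⟩ := LimA_fin R hmono hdense
    (Sum.elim (fun t : Fin s × Fin s => x t.1 t.2) (fun t : Fin s × Fin s => x' t.1 t.2)) _ hδ
  refine ⟨n, Mt.of fun i j => y (Sum.inl (i, j)), Mt.of fun i j => y (Sum.inr (i, j)),
    Mt.norm_lt_of_entry hε fun i j => ?_, Mt.norm_lt_of_entry hε fun i j => ?_⟩
  · rw [Mt.sub_apply, Mt.map_apply, Mt.of_apply]
    exact (hy (Sum.inl (i, j))).le
  · rw [Mt.sub_apply, Mt.map_apply, Mt.of_apply]
    exact (hy (Sum.inr (i, j))).le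

end Pool.Agent.H.MP_e11395_an
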