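import Pool.Agent.H.MP_e11395_an.C.Path

/-!
# Part C of MP_e11395: loops of invertible matrices
-/

set_option autoImplicit false
set_option linter.unusedSectionVars false

open Filter Topology unitInterval

namespace Pool.Agent.H.MP_e11395_an

variable {N : Type} [Fintype N] [DecidableEq N]

/-- Loops of invertible matrices, based at `1`. -/
def Loops (N : Type) [Fintype N] [DecidableEq N] : Set (Matrix N N CI) :=
  {u | IsUnit u ∧ ev 0 u = 1 ∧ ev 1 u = 1}

theorem Loops_mul : ∀ u ∈ Loops N, ∀ v ∈ Loops N, u * v ∈ Loops N := by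
  rintro u ⟨hu, hu0, hu1⟩ v ⟨hv, hv0, hv1⟩
  exact ⟨hu.mul hv, by rw [ev_mul, hu0, hv0, one_mul], by rw [ev_mul, hu1, hv1, one_mul]⟩

theorem one_mem_Loops : (1 : Matrix N N CI) ∈ Loops N := ⟨isUnit_one, ev_one _, ev_one _⟩

/-- `diag(c, 1, ..., 1)` with `c` at the place `i₀`. -/
noncomputable def dg {R : Type} [CommRing R] (i₀ : N) (c : R) : Matrix N N R :=
  Matrix.diagonal (Function.update 1 i₀ c)

theorem dg_mul {R : Type} [CommRing R] (i₀ : N) (c d : R) :
    dg i₀ c * dg i₀ d = dg i₀ (c * d) := by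
  unfold dg
  rw [Matrix.diagonal_mul_diagonal]
  congr 1
  funext i
  by_cases h : i = i₀
  · subst h; simp
  · simp [h]

theorem dg_one {R : Type} [CommRing R] (i₀ : N) : dg i₀ (1 : R) = 1 := by
  unfold dg
  rw [← Matrix.diagonal_one]
  congr 1
  funext i
  by_cases h : i = i₀
  · subst h; simp
  · simp [h]

theorem det_dg {R : Type} [CommRing R] (i₀ : N) (c : R) : (dg i₀ c).det = c := by
  unfold dg
  rw [Matrix.det_diagonal, Finset.prod_update_of_mem (Finset.mem_univ _)]
  simp

theorem ev_dg (i₀ : N) (c : CI) (x : I) : ev x (dg i₀ c) = dg i₀ (c x) := by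
  funext i j
  by_cases h : i = j
  · subst h
    by_cases h0 : i = i₀
    · subst h0; simp [ev, dg]
    · simp [ev, dg, h0]
  · simp [ev, dg, h]

/-- `dg i₀ c` is a loop of invertible matrices when `c` is a loop of invertible numbers. -/
theorem dg_mem_Loops (i₀ : N) {c : CI} (hc : ∀ x, c x ≠ 0) (h0 : c 0 = 1) (h1 : c 1 = 1) :
    dg i₀ c ∈ Loops N := by
  refine ⟨isUnit_iff_ev.2 fun x => ?_, ?_, ?_⟩
  · rw [ev_dg, Matrix.isUnit_iff_isUnit_det, det_dg, isUnit_iff_ne_zero]
    exact hc x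
  · rw [ev_dg, h0, dg_one]
  · rw [ev_dg, h1, dg_one]

/-- The statement to be proved for a loop: it can be joined to `diag(det, 1, ..., 1)`, for every
choice of the place `i₀`. -/
def DetOK (u : Matrix N N CI) : Prop := ∀ i₀ : N, JoinedIn (Loops N) u (dg i₀ u.det)

end Pool.Agent.H.MP_e11395_an
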