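import Mathlib

/-!
# Part C of MP_e11395: matrices over `C([0,1])`

We work with matrices over the ring `C(I, ℂ)`; `ev x u` is the value of the matrix `u` at `x`.
-/

set_option autoImplicit false
set_option linter.unusedSectionVars false
set_option linter.unusedSimpArgs false

open Filter Topology unitInterval

namespace Pool.Agent.H.MP_e11395_an

/-- The ring of continuous functions on the unit interval. -/
abbrev CI : Type := C(I, ℂ)

/-- The value at `x` of a matrix of functions. -/
noncomputable def ev {N M : Type} (x : I) (u : Matrix N M CI) : Matrix N M ℂ := fun i j => u i j x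

/-- The matrix of constant functions. -/
noncomputable def cstM {N M : Type} (u : Matrix N M ℂ) : Matrix N M CI :=
  fun i j => ContinuousMap.const I (u i j)

/-- The matrix of functions with given values. -/
noncomputable def mk {N M : Type} (f : I → Matrix N M ℂ) (hf : Continuous f) : Matrix N M CI :=
  fun i j => ⟨fun x => f x i j, (continuous_apply j).comp ((continuous_apply i).comp hf)⟩

section

variable {N M K : Type} [Fintype N] [DecidableEq N] [Fintype M] [DecidableEq M]
  [Fintype K] [DecidableEq K]

@[simp] theorem ev_mk (f : I → Matrix N M ℂ) (hf : Continuous f) (x : I) : ev x (mk f hf) = f x :=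
  rfl

@[simp] theorem ev_cst (u : Matrix N M ℂ) (x : I) : ev x (cstM u) = u := rfl

theorem ev_ext {u v : Matrix N M CI} (h : ∀ x, ev x u = ev x v) : u = v := by
  funext i j
  ext x
  exact congrFun (congrFun (h x) i) j

theorem ev_continuous (u : Matrix N M CI) : Continuous fun x => ev x u :=
  continuous_pi fun i => continuous_pi fun j => (u i j).continuous

theorem ev_mul (x : I) (u : Matrix N M CI) (v : Matrix M K CI) : ev x (u * v) = ev x u * ev x v := by
  funext i j
  simp [ev, Matrix.mul_apply, ContinuousMap.sum_apply]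

@[simp] theorem ev_one (x : I) : ev x (1 : Matrix N N CI) = 1 := by
  funext i j
  by_cases h : i = j
  · simp [ev, h, Matrix.one_apply]
  · simp [ev, h, Matrix.one_apply]

theorem ev_add (x : I) (u v : Matrix N M CI) : ev x (u + v) = ev x u + ev x v := rfl

theorem ev_sub (x : I) (u v : Matrix N M CI) : ev x (u - v) = ev x u - ev x v := rfl

/-- The determinant is computed pointwise. -/
theorem ev_det (x : I) (u : Matrix N N CI) : u.det x = (ev x u).det :=
  RingHom.map_det ((Pi.evalRingHom (fun _ : I => ℂ) x).comp
    (ContinuousMap.coeFnRingHom : CI →+* (I → ℂ))) u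

/-- A matrix of functions is invertible iff its values are (determinants;
`ContinuousMap.isUnit_iff_forall_ne_zero`). -/
theorem isUnit_iff_ev {u : Matrix N N CI} : IsUnit u ↔ ∀ x, IsUnit (ev x u) := by
  rw [Matrix.isUnit_iff_isUnit_det, ContinuousMap.isUnit_iff_forall_ne_zero]
  refine forall_congr' fun x => ?_
  rw [ev_det, Matrix.isUnit_iff_isUnit_det, isUnit_iff_ne_zero]

/-- Values of the inverse. -/
theorem ev_inv {u : Matrix N N CI} (hu : IsUnit u) (x : I) : ev x u⁻¹ = (ev x u)⁻¹ := by
  refine (Matrix.inv_eq_left_inv ?_).symm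
  rw [← ev_mul, Matrix.nonsing_inv_mul _ ((Matrix.isUnit_iff_isUnit_det _).1 hu), ev_one]

/-- Paths of matrices of functions from jointly continuous families: `H τ x`.
(`ContinuousMap.curry`, entrywise.) -/
theorem joinedIn_of_homotopy {S : Set (Matrix N N CI)} {u v : Matrix N N CI}
    (H : I → I → Matrix N N ℂ) (hH : Continuous (Function.uncurry H))
    (h0 : ∀ x, H 0 x = ev x u) (h1 : ∀ x, H 1 x = ev x v)
    (hS : ∀ (τ : I) (w : Matrix N N CI), (∀ x, ev x w = H τ x) → w ∈ S) :
    JoinedIn S u v := by
  have hij : ∀ i j, Continuous fun z : I × I => H z.1 z.2 i j := fun i j =>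
    (continuous_apply j).comp ((continuous_apply i).comp hH)
  refine ⟨⟨⟨fun τ i j => ⟨fun x => H τ x i j,
    (hij i j).comp (Continuous.prodMk continuous_const continuous_id)⟩, ?_⟩, ?_, ?_⟩, ?_⟩
  · refine continuous_pi fun i => continuous_pi fun j => ?_
    exact (ContinuousMap.curry ⟨fun z : I × I => H z.1 z.2 i j, hij i j⟩).continuous
  · exact ev_ext fun x => h0 x
  · exact ev_ext fun x => h1 x
  · exact fun τ => hS τ _ fun x => rfl

/-- Products of paths. -/
theorem joinedIn_mul {X : Type} [TopologicalSpace X] [Mul X] [ContinuousMul X] {S : Set X}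
    (hS : ∀ x ∈ S, ∀ y ∈ S, x * y ∈ S) {u u' v v' : X} (h : JoinedIn S u u')
    (h' : JoinedIn S v v') : JoinedIn S (u * v) (u' * v') := by
  obtain ⟨γ, hγ⟩ := h
  obtain ⟨γ', hγ'⟩ := h'
  exact ⟨⟨⟨fun t => γ t * γ' t, γ.continuous.mul γ'.continuous⟩, by simp, by simp⟩,
    fun t => hS _ (hγ t) _ (hγ' t)⟩

end

end Pool.Agent.H.MP_e11395_an
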