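import Pool.Agent.H.MP_e11395_an.C.AmpC
import Pool.Agent.H.MP_e11395_an.C.Loop
import Pool.Agent.H.MP_e11395_an.C.GLA

/-!
# Part C of MP_e11395: reduction to loops
-/

set_option autoImplicit false
set_option linter.unusedSectionVars false

open Filter Topology unitInterval

namespace Pool.Agent.H.MP_e11395_an

variable {κ P₀ Q₀ P₁ Q₁ : Type} [Fintype κ] [DecidableEq κ] [Fintype P₀] [DecidableEq P₀]
  [Fintype Q₀] [DecidableEq Q₀] [Fintype P₁] [DecidableEq P₁] [Fintype Q₁] [DecidableEq Q₁]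
  (e₀ : κ ≃ P₀ × Q₀) (e₁ : κ ≃ P₁ × Q₁)
variable {α : Type} [Fintype α] [DecidableEq α]

/-- A loop satisfies the boundary condition. -/
theorem Loops_sub : Loops (α × κ) ⊆ BdU e₀ e₁ α := by
  rintro u ⟨hu, h0, h1⟩
  exact ⟨hu, ⟨1, by rw [h0, ampM_one]⟩, 1, by rw [h1, ampM_one]⟩

/-- Amplifications of invertible matrices are invertible. -/
theorem UniA_isUnit_ampM {κ P Q : Type} [Fintype κ] [DecidableEq κ] [Fintype P] [DecidableEq P]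
    [Fintype Q] [DecidableEq Q] (e : κ ≃ P × Q) {α : Type} [Fintype α] [DecidableEq α]
    {G : Matrix (α × P) (α × P) ℂ} (h : IsUnit G) : IsUnit (ampM e G) := by
  obtain ⟨u, rfl⟩ := h
  exact ⟨⟨ampM e ↑u, ampM e ↑u⁻¹, by rw [← ampM_mul, u.mul_inv, ampM_one],
    by rw [← ampM_mul, u.inv_mul, ampM_one]⟩, rfl⟩

/-- The reparametrisation `max(0, τ (1 - 2x))`. -/
noncomputable def UniA_rep₀ (τ x : I) : I :=
  Set.projIcc 0 1 zero_le_one ((τ : ℝ) * (1 - 2 * (x : ℝ)))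

/-- The reparametrisation `max(0, τ (2x - 1))`. -/
noncomputable def UniA_rep₁ (τ x : I) : I :=
  Set.projIcc 0 1 zero_le_one ((τ : ℝ) * (2 * (x : ℝ) - 1))

theorem UniA_rep₀_cont : Continuous fun z : I × I => UniA_rep₀ z.1 z.2 := by
  unfold UniA_rep₀
  exact continuous_projIcc.comp (by fun_prop)

theorem UniA_rep₁_cont : Continuous fun z : I × I => UniA_rep₁ z.1 z.2 := by
  unfold UniA_rep₁
  exact continuous_projIcc.comp (by fun_prop)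

theorem UniA_rep₀_zero_left (x : I) : UniA_rep₀ 0 x = 0 := by
  unfold UniA_rep₀
  apply Set.projIcc_of_le_left
  simp

theorem UniA_rep₁_zero_left (x : I) : UniA_rep₁ 0 x = 0 := by
  unfold UniA_rep₁
  apply Set.projIcc_of_le_left
  simp

theorem UniA_rep₀_zero (τ : I) : UniA_rep₀ τ 0 = τ := by
  unfold UniA_rep₀
  have : ((τ : ℝ) * (1 - 2 * ((0 : I) : ℝ))) = τ := by simp
  rw [this]
  exact Set.projIcc_val _ τ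

theorem UniA_rep₁_zero (τ : I) : UniA_rep₁ τ 0 = 0 := by
  unfold UniA_rep₁
  apply Set.projIcc_of_le_left
  have := τ.2.1
  simp only [Set.Icc.coe_zero]
  linarith

theorem UniA_rep₀_one (τ : I) : UniA_rep₀ τ 1 = 0 := by
  unfold UniA_rep₀
  apply Set.projIcc_of_le_left
  have := τ.2.1
  simp only [Set.Icc.coe_one]
  linarith

theorem UniA_rep₁_one (τ : I) : UniA_rep₁ τ 1 = τ := by
  unfold UniA_rep₁
  have : ((τ : ℝ) * (2 * ((1 : I) : ℝ) - 1)) = τ := by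
    simp only [Set.Icc.coe_one]
    ring
  rw [this]
  exact Set.projIcc_val _ τ

/-- The homotopy of `exists_ends`. -/
noncomputable def UniA_H (γ₀ : I → Matrix (α × P₀) (α × P₀) ℂ)
    (γ₁ : I → Matrix (α × P₁) (α × P₁) ℂ) (τ x : I) : Matrix (α × κ) (α × κ) ℂ :=
  ampM e₀ (γ₀ (UniA_rep₀ τ x)) * ampM e₁ (γ₁ (UniA_rep₁ τ x))

theorem UniA_H_cont {γ₀ : I → Matrix (α × P₀) (α × P₀) ℂ}
    {γ₁ : I → Matrix (α × P₁) (α × P₁) ℂ} (c₀ : Continuous γ₀) (c₁ : Continuous γ₁) :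
    Continuous (Function.uncurry (UniA_H e₀ e₁ γ₀ γ₁)) := by
  have a0 : Continuous fun z : I × I => ampM (α := α) (α' := α) e₀ (γ₀ (UniA_rep₀ z.1 z.2)) :=
    (ampM_continuous e₀).comp (c₀.comp UniA_rep₀_cont)
  have a1 : Continuous fun z : I × I => ampM (α := α) (α' := α) e₁ (γ₁ (UniA_rep₁ z.1 z.2)) :=
    (ampM_continuous e₁).comp (c₁.comp UniA_rep₁_cont)
  exact a0.matrix_mul a1

theorem UniA_H_cont_one {γ₀ : I → Matrix (α × P₀) (α × P₀) ℂ}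
    {γ₁ : I → Matrix (α × P₁) (α × P₁) ℂ} (c₀ : Continuous γ₀) (c₁ : Continuous γ₁) :
    Continuous (UniA_H e₀ e₁ γ₀ γ₁ 1) := by
  have := (UniA_H_cont e₀ e₁ c₀ c₁).comp
    (Continuous.prodMk (continuous_const (y := (1 : I))) continuous_id)
  exact this

theorem UniA_H_isUnit {γ₀ : I → Matrix (α × P₀) (α × P₀) ℂ}
    {γ₁ : I → Matrix (α × P₁) (α × P₁) ℂ} (u₀ : ∀ t, IsUnit (γ₀ t)) (u₁ : ∀ t, IsUnit (γ₁ t))
    (τ x : I) : IsUnit (UniA_H e₀ e₁ γ₀ γ₁ τ x) :=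
  (UniA_isUnit_ampM e₀ (u₀ _)).mul (UniA_isUnit_ampM e₁ (u₁ _))

theorem UniA_H_zero (γ₀ : I → Matrix (α × P₀) (α × P₀) ℂ)
    (γ₁ : I → Matrix (α × P₁) (α × P₁) ℂ) (z₁ : γ₁ 0 = 1) (τ : I) :
    UniA_H e₀ e₁ γ₀ γ₁ τ 0 = ampM e₀ (γ₀ τ) := by
  rw [UniA_H, UniA_rep₀_zero, UniA_rep₁_zero, z₁, ampM_one, mul_one]

theorem UniA_H_one (γ₀ : I → Matrix (α × P₀) (α × P₀) ℂ)
    (γ₁ : I → Matrix (α × P₁) (α × P₁) ℂ) (z₀ : γ₀ 0 = 1) (τ : I) :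
    UniA_H e₀ e₁ γ₀ γ₁ τ 1 = ampM e₁ (γ₁ τ) := by
  rw [UniA_H, UniA_rep₀_one, UniA_rep₁_one, z₀, ampM_one, one_mul]

theorem UniA_H_start (γ₀ : I → Matrix (α × P₀) (α × P₀) ℂ)
    (γ₁ : I → Matrix (α × P₁) (α × P₁) ℂ) (z₀ : γ₀ 0 = 1) (z₁ : γ₁ 0 = 1) (x : I) :
    UniA_H e₀ e₁ γ₀ γ₁ 0 x = 1 := by
  rw [UniA_H, UniA_rep₀_zero_left, UniA_rep₁_zero_left, z₀, z₁, ampM_one, ampM_one, mul_one]

/-- A matrix in `BdU` joined to `1` with prescribed invertible ends `G₀ ⊗ 1`, `G₁ ⊗ 1`: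
`v_τ(x) = ampM e₀ (γ₀ (τ max(0, 1 - 2x))) * ampM e₁ (γ₁ (τ max(0, 2x - 1)))` with paths `γ₀`, `γ₁`
from `1` to `G₀`, `G₁` (`gl_path`). -/
theorem exists_ends (G₀ : Matrix (α × P₀) (α × P₀) ℂ) (G₁ : Matrix (α × P₁) (α × P₁) ℂ)
    (h0 : IsUnit G₀) (h1 : IsUnit G₁) :
    ∃ v, JoinedIn (BdU e₀ e₁ α) 1 v ∧ ev 0 v = ampM e₀ G₀ ∧ ev 1 v = ampM e₁ G₁ := by
  obtain ⟨γ₀, c₀, z₀, o₀, u₀⟩ := gl_path h0
  obtain ⟨γ₁, c₁, z₁, o₁, u₁⟩ := gl_path h1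
  refine ⟨mk (UniA_H e₀ e₁ γ₀ γ₁ 1) (UniA_H_cont_one e₀ e₁ c₀ c₁),
    joinedIn_of_homotopy (UniA_H e₀ e₁ γ₀ γ₁) (UniA_H_cont e₀ e₁ c₀ c₁) ?_ ?_ ?_, ?_, ?_⟩
  · intro x
    rw [UniA_H_start e₀ e₁ γ₀ γ₁ z₀ z₁, ev_one]
  · intro x
    rw [ev_mk]
  · intro τ w hw
    refine ⟨isUnit_iff_ev.2 fun x => ?_, ⟨γ₀ τ, ?_⟩, γ₁ τ, ?_⟩
    · rw [hw x]
      exact UniA_H_isUnit e₀ e₁ u₀ u₁ τ x
    · rw [hw 0, UniA_H_zero e₀ e₁ γ₀ γ₁ z₁]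
    · rw [hw 1, UniA_H_one e₀ e₁ γ₀ γ₁ z₀]
  · rw [ev_mk, UniA_H_zero e₀ e₁ γ₀ γ₁ z₁, o₀]
  · rw [ev_mk, UniA_H_one e₀ e₁ γ₀ γ₁ z₀, o₁]

/-- Reduction to loops: multiply by a matrix from `exists_ends` with ends `u(0)⁻¹`, `u(1)⁻¹`. -/
theorem joined_loop [Nonempty Q₀] [Nonempty Q₁] {u : Matrix (α × κ) (α × κ) CI}
    (hu : u ∈ BdU e₀ e₁ α) : ∃ v ∈ Loops (α × κ), JoinedIn (BdU e₀ e₁ α) u v := by
  obtain ⟨hiu, ⟨G₀, hG₀⟩, G₁, hG₁⟩ := hu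
  have k0 : IsUnit G₀ := (ampM_isUnit e₀ G₀).1 (by rw [← hG₀]; exact isUnit_iff_ev.1 hiu 0)
  have k1 : IsUnit G₁ := (ampM_isUnit e₁ G₁).1 (by rw [← hG₁]; exact isUnit_iff_ev.1 hiu 1)
  have i0 : G₀ * G₀⁻¹ = 1 := Matrix.mul_nonsing_inv _ ((Matrix.isUnit_iff_isUnit_det _).1 k0)
  have i1 : G₁ * G₁⁻¹ = 1 := Matrix.mul_nonsing_inv _ ((Matrix.isUnit_iff_isUnit_det _).1 k1)
  have j0 : IsUnit G₀⁻¹ := (Matrix.isUnit_nonsing_inv_iff).2 k0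
  have j1 : IsUnit G₁⁻¹ := (Matrix.isUnit_nonsing_inv_iff).2 k1
  obtain ⟨v, hv, v0, v1⟩ := exists_ends e₀ e₁ G₀⁻¹ G₁⁻¹ j0 j1
  have hmem : u ∈ BdU e₀ e₁ α := ⟨hiu, ⟨G₀, hG₀⟩, G₁, hG₁⟩
  have hj : JoinedIn (BdU e₀ e₁ α) (u * 1) (u * v) :=
    joinedIn_mul (BdU_mul e₀ e₁) (JoinedIn.refl hmem) hv
  rw [mul_one] at hj
  refine ⟨u * v, ⟨hj.target_mem.1, ?_, ?_⟩, hj⟩
  · rw [ev_mul, hG₀, v0, ← ampM_mul, i0, ampM_one]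
  · rw [ev_mul, hG₁, v1, ← ampM_mul, i1, ampM_one]

end Pool.Agent.H.MP_e11395_an
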