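import Pool.Agent.H.MP_e11395_an.C.AmpC
import Pool.Agent.H.MP_e11395_an.C.Loop

/-!
# Part C of MP_e11395: the group of trivial scalar loops
-/

set_option autoImplicit false
set_option linter.unusedSectionVars false

open Filter Topology unitInterval

namespace Pool.Agent.H.MP_e11395_an

variable {κ P₀ Q₀ P₁ Q₁ : Type} [Fintype κ] [DecidableEq κ] [Fintype P₀] [DecidableEq P₀]
  [Fintype Q₀] [DecidableEq Q₀] [Fintype P₁] [DecidableEq P₁] [Fintype Q₁] [DecidableEq Q₁]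
  (e₀ : κ ≃ P₀ × Q₀) (e₁ : κ ≃ P₁ × Q₁)
variable {α : Type} [Fintype α] [DecidableEq α]

/-- The scalar loops `c` for which `diag(c, 1, ..., 1)` can be joined to `1` in `BdU`. -/
def Triv (i₀ : α × κ) (c : CI) : Prop :=
  (∀ x, c x ≠ 0) ∧ c 0 = 1 ∧ c 1 = 1 ∧ JoinedIn (BdU e₀ e₁ α) (dg i₀ c) 1

theorem Triv_mul {i₀ : α × κ} {c d : CI} (hc : Triv e₀ e₁ i₀ c) (hd : Triv e₀ e₁ i₀ d) :
    Triv e₀ e₁ i₀ (c * d) := by
  obtain ⟨c0, c1, c2, c3⟩ := hc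
  obtain ⟨d0, d1, d2, d3⟩ := hd
  refine ⟨fun x => mul_ne_zero (c0 x) (d0 x), ?_, ?_, ?_⟩
  · rw [ContinuousMap.mul_apply, c1, d1, one_mul]
  · rw [ContinuousMap.mul_apply, c2, d2, one_mul]
  · have h := joinedIn_mul (BdU_mul e₀ e₁) c3 d3
    rwa [dg_mul, one_mul] at h

/-- the inverse loop. (Multiply the path by `dg i₀ c⁻¹`.) -/
theorem Triv_inv {i₀ : α × κ} {c d : CI} (hc : Triv e₀ e₁ i₀ c) (h : c * d = 1) :
    Triv e₀ e₁ i₀ d := by
  obtain ⟨c0, c1, c2, c3⟩ := hc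
  have hx : ∀ x, c x * d x = 1 := fun x => congrArg (fun f : CI => f x) h
  have d0 : ∀ x, d x ≠ 0 := fun x h0 => by
    have := hx x
    rw [h0, mul_zero] at this
    exact zero_ne_one this
  have d1 : d 0 = 1 := by simpa [c1] using hx 0
  have d2 : d 1 = 1 := by simpa [c2] using hx 1
  refine ⟨d0, d1, d2, ?_⟩
  have hd : dg i₀ d ∈ BdU e₀ e₁ α := by
    obtain ⟨h0, h1, h2⟩ := dg_mem_Loops i₀ d0 d1 d2
    exact ⟨h0, ⟨1, by rw [h1, ampM_one]⟩, 1, by rw [h2, ampM_one]⟩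
  have h3 := joinedIn_mul (BdU_mul e₀ e₁) c3 (JoinedIn.refl hd)
  rw [dg_mul, h, dg_one, one_mul] at h3
  exact h3.symm

end Pool.Agent.H.MP_e11395_an
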