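import Pool.Agent.H.MP_e11395_an.C.UniB
import Pool.Agent.H.MP_e11395_an.C.UniA
import Pool.Agent.H.MP_e11395_an.C.GauF

/-!
# Part C of MP_e11395: powers of scalar loops are trivial
-/

set_option autoImplicit false
set_option linter.unusedSectionVars false

open Filter Topology unitInterval

namespace Pool.Agent.H.MP_e11395_an

variable {κ P₀ Q₀ P₁ Q₁ : Type} [Fintype κ] [DecidableEq κ] [Fintype P₀] [DecidableEq P₀]
  [Fintype Q₀] [DecidableEq Q₀] [Fintype P₁] [DecidableEq P₁] [Fintype Q₁] [DecidableEq Q₁]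
  (e₀ : κ ≃ P₀ × Q₀) (e₁ : κ ≃ P₁ × Q₁)
variable {α : Type} [Fintype α] [DecidableEq α]

theorem UniC_joined {P Q : Type} [Fintype P] [DecidableEq P] [Fintype Q] [DecidableEq Q]
    (e : κ ≃ P × Q) (S : Set (Matrix (α × κ) (α × κ) CI)) (hLS : Loops (α × κ) ⊆ S)
    (i₀ : α × κ) {c : CI} (hc : ∀ x, c x ≠ 0) (h0 : c 0 = 1) (h1 : c 1 = 1)
    (g : I → I → I) (hg : Continuous (Function.uncurry g)) (hg0 : ∀ x, c (g 0 x) = 1)
    (hg1 : ∀ x, g 1 x = x)
    (hS : ∀ (τ : I) (w : Matrix (α × κ) (α × κ) CI),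
      IsUnit w → (∀ x, ev x w = ampM e (dg (i₀.1, (e i₀.2).1) (c (g τ x)))) → w ∈ S) :
    JoinedIn S (dg i₀ (c ^ Fintype.card Q)) 1 := by
  haveI : Nonempty Q := ⟨(e i₀.2).2⟩
  set j₀ : α × P := (i₀.1, (e i₀.2).1) with hj₀
  have hdc : Continuous fun z : ℂ => (dg j₀ z : Matrix (α × P) (α × P) ℂ) := by
    unfold dg
    exact Continuous.matrix_diagonal (continuous_const.update j₀ continuous_id)
  have hun : ∀ x, IsUnit (ampM e (dg j₀ (c x))) := by
    intro x
    rw [ampM_isUnit, Matrix.isUnit_iff_isUnit_det, det_dg, isUnit_iff_ne_zero]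
    exact hc x
  have hdc' : Continuous fun x : I => ampM e (dg j₀ (c x)) :=
    (ampM_continuous e).comp (hdc.comp c.continuous)
  set u : Matrix (α × κ) (α × κ) CI := mk (fun x : I => ampM e (dg j₀ (c x))) hdc' with hu
  have hev : ∀ x, ev x u = ampM e (dg j₀ (c x)) := fun x => rfl
  have hul : u ∈ Loops (α × κ) := by
    refine ⟨isUnit_iff_ev.2 fun x => ?_, ?_, ?_⟩
    · rw [hev]; exact hun x
    · rw [hev, h0, dg_one, ampM_one]
    · rw [hev, h1, dg_one, ampM_one]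
  have hdet : u.det = c ^ Fintype.card Q := by
    ext x
    rw [ev_det, hev, ampM_det, det_dg, ContinuousMap.pow_apply]
  have hj1 : JoinedIn S u (dg i₀ (c ^ Fintype.card Q)) := by
    have := detOK_of_loop hul i₀
    rw [hdet] at this
    exact this.mono hLS
  have hj2 : JoinedIn S (1 : Matrix (α × κ) (α × κ) CI) u := by
    refine joinedIn_of_homotopy (fun τ x => ampM e (dg j₀ (c (g τ x)))) ?_ ?_ ?_ ?_
    · exact hdc'.comp hg
    · intro x
      change ampM e (dg j₀ (c (g 0 x))) = _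
      rw [hg0, dg_one, ampM_one, ev_one]
    · intro x
      change ampM e (dg j₀ (c (g 1 x))) = _
      rw [hg1, hev]
    · intro τ w hw
      refine hS τ w (isUnit_iff_ev.2 fun x => ?_) hw
      rw [hw x]
      exact hun _
  exact (hj2.trans hj1).symm

/-- `c^{|Q₀|}` is trivial. Let `c'(x) = c(1 - x)`. The path
`τ ↦ (x ↦ ampM e₀ (dg (i₀.1, p₀) (c' (τ (1 - x)))))` joins `1` (`τ = 0`) in `BdU` to the loop
`u(x) = ampM e₀ (dg (i₀.1, p₀) (c' (1 - x)))` (at `x = 0` it is `ampM` of something, at `x = 1`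
it is `1`), with determinant `c' (1 - x)^{|Q₀|} = c^{|Q₀|}` (`ampM_det`), and
`u ~ dg i₀ (det u)` by `detOK_of_loop`. -/
theorem Triv_pow₀ (i₀ : α × κ) {c : CI} (hc : ∀ x, c x ≠ 0) (h0 : c 0 = 1) (h1 : c 1 = 1) :
    Triv e₀ e₁ i₀ (c ^ Fintype.card Q₀) := by
  refine ⟨fun x => ?_, ?_, ?_, ?_⟩
  · rw [ContinuousMap.pow_apply]; exact pow_ne_zero _ (hc x)
  · rw [ContinuousMap.pow_apply, h0, one_pow]
  · rw [ContinuousMap.pow_apply, h1, one_pow]
  · refine UniC_joined e₀ _ (Loops_sub e₀ e₁) i₀ hc h0 h1 (fun τ x => σ (τ * σ x)) ?_ ?_ ?_ ?_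
    · exact unitInterval.continuous_symm.comp
        (continuous_fst.mul (unitInterval.continuous_symm.comp continuous_snd))
    · intro x
      simp only [zero_mul, unitInterval.symm_zero, h1]
    · intro x
      simp only [one_mul, unitInterval.symm_symm]
    · intro τ w hw hev
      refine ⟨hw, ⟨_, hev 0⟩, 1, ?_⟩
      rw [hev 1, unitInterval.symm_one, mul_zero, unitInterval.symm_zero, h1, dg_one, ampM_one,
        ampM_one]

/-- `c^{|Q₁|}` is trivial. The same with the path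
`τ ↦ (x ↦ ampM e₁ (dg (i₀.1, p₁) (c (τ x))))`. -/
theorem Triv_pow₁ (i₀ : α × κ) {c : CI} (hc : ∀ x, c x ≠ 0) (h0 : c 0 = 1) (h1 : c 1 = 1) :
    Triv e₀ e₁ i₀ (c ^ Fintype.card Q₁) := by
  refine ⟨fun x => ?_, ?_, ?_, ?_⟩
  · rw [ContinuousMap.pow_apply]; exact pow_ne_zero _ (hc x)
  · rw [ContinuousMap.pow_apply, h0, one_pow]
  · rw [ContinuousMap.pow_apply, h1, one_pow]
  · refine UniC_joined e₁ _ (Loops_sub e₀ e₁) i₀ hc h0 h1 (fun τ x => τ * x) ?_ ?_ ?_ ?_
    · exact continuous_fst.mul continuous_snd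
    · intro x
      simp only [zero_mul, h0]
    · intro x
      simp only [one_mul]
    · intro τ w hw hev
      refine ⟨hw, ⟨1, ?_⟩, _, hev 1⟩
      rw [hev 0, mul_zero, h0, dg_one, ampM_one, ampM_one]

end Pool.Agent.H.MP_e11395_an
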